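import Mathlib

/-!
# The hard instances

`val m L A c`: the number in position `c` of the array given by the vector `A` of offsets.
-/

namespace PR16

/-- Some entry is the sum of two others. -/
def HasThreeSum {n : ℕ} (x : Fin n → ℤ) : Prop :=
  ∃ i j k, i ≠ j ∧ i ≠ k ∧ j ≠ k ∧ x i + x j = x k

/-- The number in position `c`. -/
def val (m L : ℕ) (A : Fin (4 * m) → Fin L) (c : ℕ) : ℤ :=
  if h : c < 4 * m then
    16 * (((c : ℤ) - 2 * m) * L + (A ⟨c, h⟩).val) + (if c < m then 1 else if c < 3 * m then 5 else 4)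
  else 16 * (2 * m * L + c) + 11

variable {m L : ℕ}

theorem val_cases (A : Fin (4 * m) → Fin L) (c : ℕ) :
    (∃ h : c < 4 * m, c < m ∧ val m L A c = 16 * (((c : ℤ) - 2 * m) * L + (A ⟨c, h⟩).val) + 1) ∨
    (∃ h : c < 4 * m, m ≤ c ∧ c < 3 * m ∧
      val m L A c = 16 * (((c : ℤ) - 2 * m) * L + (A ⟨c, h⟩).val) + 5) ∨
    (∃ h : c < 4 * m, 3 * m ≤ c ∧
      val m L A c = 16 * (((c : ℤ) - 2 * m) * L + (A ⟨c, h⟩).val) + 4) ∨
    (4 * m ≤ c ∧ val m L A c = 16 * (2 * m * L + c) + 11) := by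
  unfold val
  by_cases h : c < 4 * m
  · rw [dif_pos h]
    by_cases h1 : c < m
    · left
      exact ⟨h, h1, by rw [if_pos h1]⟩
    · by_cases h2 : c < 3 * m
      · right; left
        exact ⟨h, by omega, h2, by rw [if_neg h1, if_pos h2]⟩
      · right; right; left
        exact ⟨h, by omega, by rw [if_neg h1, if_neg h2]⟩
  · right; right; right
    rw [dif_neg h]
    exact ⟨by omega, rfl⟩

theorem val_lt (A : Fin (4 * m) → Fin L) {c c' : ℕ} (h : c < c') : val m L A c < val m L A c' := by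
  by_cases h' : c' < 4 * m
  · have hc : c < 4 * m := by omega
    unfold val
    rw [dif_pos hc, dif_pos h']
    have h1 : (A ⟨c, hc⟩).val < L := (A ⟨c, hc⟩).isLt
    have h2 : ((c : ℤ) - 2 * m) * L + L ≤ ((c' : ℤ) - 2 * m) * L := by
      have : (c : ℤ) + 1 ≤ c' := by exact_mod_cast h
      have h3 : ((c : ℤ) - 2 * m + 1) * L ≤ ((c' : ℤ) - 2 * m) * L :=
        mul_le_mul_of_nonneg_right (by linarith) (by positivity)
      linarith
    have h3 : (0 : ℤ) ≤ (A ⟨c', h'⟩).val := by positivity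
    split_ifs <;> omega
  · by_cases hc : c < 4 * m
    · unfold val
      rw [dif_pos hc, dif_neg h']
      have h1 : (A ⟨c, hc⟩).val < L := (A ⟨c, hc⟩).isLt
      have h2 : ((c : ℤ) - 2 * m) * L + L ≤ 2 * m * L := by
        have : (c : ℤ) + 1 ≤ 4 * m := by exact_mod_cast hc
        have h3 : ((c : ℤ) - 2 * m + 1) * L ≤ (2 * m) * L :=
          mul_le_mul_of_nonneg_right (by linarith) (by positivity)
        linarith
      split_ifs <;> omega
    · unfold val
      rw [dif_neg hc, dif_neg h']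
      omega

theorem val_abs (A : Fin (4 * m) → Fin L) {n c : ℕ} (hn : 16 * (2 * m * L + n) + 11 ≤ n ^ 3)
    (hc : c < n) : |val m L A c| ≤ (n : ℤ) ^ 3 := by
  have hn' : 16 * (2 * (m : ℤ) * L + n) + 11 ≤ (n : ℤ) ^ 3 := by exact_mod_cast hn
  have hmL : (0 : ℤ) ≤ (m : ℤ) * L := by positivity
  by_cases h : c < 4 * m
  · unfold val
    rw [dif_pos h]
    have h1 : (A ⟨c, h⟩).val < L := (A ⟨c, h⟩).isLt
    have h2 : ((c : ℤ) - 2 * m) * L + L ≤ 2 * m * L := by
      have : (c : ℤ) + 1 ≤ 4 * m := by exact_mod_cast h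
      have h3 : ((c : ℤ) - 2 * m + 1) * L ≤ (2 * m) * L :=
        mul_le_mul_of_nonneg_right (by linarith) (by positivity)
      linarith
    have h4 : -(2 * m * L) ≤ ((c : ℤ) - 2 * m) * L := by
      have h3 : (-(2 * m : ℤ)) * L ≤ ((c : ℤ) - 2 * m) * L :=
        mul_le_mul_of_nonneg_right (by linarith [(Int.natCast_nonneg c)]) (by positivity)
      linarith
    rw [abs_le]
    split_ifs <;> constructor <;> omega
  · unfold val
    rw [dif_neg h, abs_le]
    have hmL2 : (0 : ℤ) ≤ 2 * (m : ℤ) * L := by positivity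
    constructor <;> omega

/-- The place of the first number of a triple. -/
def e0 (m : ℕ) (i : Fin m) : Fin (4 * m) := ⟨i, by omega⟩

/-- The place of the second number of a triple. -/
def e1 (m : ℕ) (j : Fin m) : Fin (4 * m) := ⟨3 * m + j, by omega⟩

/-- The place of the sum. -/
def e2 (m : ℕ) (i j : Fin m) : Fin (4 * m) := ⟨m + i + j, by omega⟩

/-- The next place. -/
def e3 (m : ℕ) (i j : Fin m) : Fin (4 * m) := ⟨m + i + j + 1, by omega⟩

theorem fin_add_eq [NeZero L] {u v w : Fin L} {d : ℤ} (h : d * L = (w.val : ℤ) - u.val - v.val) :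
    (d = 0 ∨ d = -1) ∧ w = u + v := by
  have hu := u.isLt
  have hv := v.isLt
  have hw := w.isLt
  have hL : (0 : ℤ) < L := by omega
  have d1 : d < 1 := by
    by_contra hc
    have : (1 : ℤ) * L ≤ d * L := mul_le_mul_of_nonneg_right (by omega) hL.le
    omega
  have d2 : -2 < d := by
    by_contra hc
    have : d * L ≤ (-2 : ℤ) * L := mul_le_mul_of_nonneg_right (by omega) hL.le
    omega
  have d3 : d = 0 ∨ d = -1 := by omega
  refine ⟨d3, Fin.ext ?_⟩
  rw [Fin.val_add]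
  rcases d3 with rfl | rfl
  · have : w.val = u.val + v.val := by omega
    rw [← this, Nat.mod_eq_of_lt hw]
  · have h2 : u.val + v.val = w.val + L := by omega
    rw [h2, Nat.add_mod_right, Nat.mod_eq_of_lt hw]

theorem sum_imp [NeZero L] (A : Fin (4 * m) → Fin L) {c1 c2 c3 : ℕ} (h1 : c1 < m)
    (h2 : 3 * m ≤ c2) (h2' : c2 < 4 * m) (h3 : m ≤ c3) (h3' : c3 < 3 * m)
    (h : (((c1 : ℤ) - 2 * m) * L + (A ⟨c1, by omega⟩).val) +
      (((c2 : ℤ) - 2 * m) * L + (A ⟨c2, h2'⟩).val) =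
      ((c3 : ℤ) - 2 * m) * L + (A ⟨c3, by omega⟩).val) :
    ∃ i j : Fin m, A (e2 m i j) = A (e0 m i) + A (e1 m j) ∨
      A (e3 m i j) = A (e0 m i) + A (e1 m j) := by
  have key : ((c1 : ℤ) + c2 - 2 * m - c3) * L = ((A ⟨c3, by omega⟩).val : ℤ) -
      (A ⟨c1, by omega⟩).val - (A ⟨c2, h2'⟩).val := by linarith
  obtain ⟨hd, hw⟩ := fin_add_eq key
  refine ⟨⟨c1, h1⟩, ⟨c2 - 3 * m, by omega⟩, ?_⟩
  have k0 : e0 m ⟨c1, h1⟩ = ⟨c1, by omega⟩ := rfl
  have k1 : e1 m ⟨c2 - 3 * m, by omega⟩ = ⟨c2, h2'⟩ := Fin.ext (by simp [e1]; omega)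
  rw [k0, k1, ← hw]
  rcases hd with hd | hd
  · left
    congr 1
    exact Fin.ext (by simp only [e2]; omega)
  · right
    congr 1
    exact Fin.ext (by simp only [e3]; omega)

/-- A triple in the array is a coincidence of offsets. -/
theorem three_imp [NeZero L] (A : Fin (4 * m) → Fin L) {n : ℕ}
    (h : HasThreeSum (fun c : Fin n => val m L A c)) :
    ∃ i j : Fin m, A (e2 m i j) = A (e0 m i) + A (e1 m j) ∨
      A (e3 m i j) = A (e0 m i) + A (e1 m j) := by
  obtain ⟨a, b, c, hab, hac, hbc, hs⟩ := h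
  dsimp only at hs
  rcases val_cases A a with ⟨ga, a1, a2⟩ | ⟨ga, a1, a2, a3⟩ | ⟨ga, a1, a2⟩ | ⟨a1, a2⟩ <;>
  rcases val_cases A b with ⟨gb, b1, b2⟩ | ⟨gb, b1, b2, b3⟩ | ⟨gb, b1, b2⟩ | ⟨b1, b2⟩ <;>
  rcases val_cases A c with ⟨gc, c1, c2⟩ | ⟨gc, c1, c2, c3⟩ | ⟨gc, c1, c2⟩ | ⟨c1, c2⟩ <;>
  first
  | (exfalso; omega)
  | (exact sum_imp A a1 b1 gb c1 c2 (by omega))
  | (exact sum_imp A b1 a1 ga c1 c2 (by omega))

/-- The planted triple is a triple. -/
theorem three_planted [NeZero L] (B : Fin (4 * m) → Fin L) {n : ℕ} (hn : 4 * m ≤ n) (i j : Fin m)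
    (hB : (B (e2 m i j)).val = (B (e0 m i)).val + (B (e1 m j)).val) :
    HasThreeSum (fun c : Fin n => val m L B c) := by
  have hi := i.isLt
  have hj := j.isLt
  refine ⟨⟨i, by omega⟩, ⟨3 * m + j, by omega⟩, ⟨m + i + j, by omega⟩, ?_, ?_, ?_, ?_⟩
  · intro h
    have := Fin.ext_iff.1 h
    dsimp only at this
    omega
  · intro h
    have := Fin.ext_iff.1 h
    dsimp only at this
    omega
  · intro h
    have := Fin.ext_iff.1 h
    dsimp only at this
    omega
  · have v0 : val m L B (i : ℕ) = 16 * (((i : ℕ) - 2 * m : ℤ) * L + (B (e0 m i)).val) + 1 := by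
      unfold val
      rw [dif_pos (by omega), if_pos hi]
      rfl
    have v1 : val m L B (3 * m + (j : ℕ)) =
        16 * (((3 * m + (j : ℕ) : ℕ) - 2 * m : ℤ) * L + (B (e1 m j)).val) + 4 := by
      unfold val
      rw [dif_pos (by omega), if_neg (by omega), if_neg (by omega)]
      rfl
    have v2 : val m L B (m + (i : ℕ) + (j : ℕ)) =
        16 * (((m + (i : ℕ) + (j : ℕ) : ℕ) - 2 * m : ℤ) * L + (B (e2 m i j)).val) + 5 := by
      unfold val
      rw [dif_pos (by omega), if_neg (by omega), if_pos (by omega)]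
      rfl
    show val m L B (i : ℕ) + val m L B (3 * m + (j : ℕ)) = val m L B (m + (i : ℕ) + (j : ℕ))
    rw [v0, v1, v2, hB]
    push_cast
    ring

end PR16
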