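import Mathlib

/-!
# Parallel machines

`Prog p S V`: the program of a CRCW PRAM with `p` processors, states in `S`, cell contents in `V`.
In one step every processor reads one cell, changes its state, and writes to any set of cells;
if several processors write to the same cell, the one with the smallest number wins.
`kids p t`: all pairs (time, processor) with time in `1..t`, latest time first, then smallest
processor first.  `src`: the pair (time, processor) responsible for the content of a cell.
`info`: what processor `i` learns in step `t`: its old state, the source of the content it reads,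
and the content.
-/

namespace PR16

/-- The program of a parallel machine. -/
structure Prog (p : ℕ) (S V : Type) where
  start : Fin p → S
  addr : Fin p → S → ℕ
  next : Fin p → S → V → S
  write : Fin p → S → ℕ → Option V

variable {p : ℕ} {S V : Type}

/-- The states of the processors and the contents of the cells after `t` steps. -/
def Prog.run (M : Prog p S V) (m : ℕ → V) : ℕ → (Fin p → S) × (ℕ → V)
  | 0 => (M.start, m)
  | t + 1 =>
    (fun i => M.next i ((M.run m t).1 i) ((M.run m t).2 (M.addr i ((M.run m t).1 i))),
     fun c => ((List.finRange p).findSome? fun i => M.write i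
        (M.next i ((M.run m t).1 i) ((M.run m t).2 (M.addr i ((M.run m t).1 i)))) c).getD
        ((M.run m t).2 c))

/-- The state of processor `i` after `t` steps. -/
def Prog.st (M : Prog p S V) (m : ℕ → V) (t : ℕ) (i : Fin p) : S := (M.run m t).1 i

/-- The content of cell `c` after `t` steps. -/
def Prog.mem (M : Prog p S V) (m : ℕ → V) (t : ℕ) (c : ℕ) : V := (M.run m t).2 c

theorem Prog.st_zero (M : Prog p S V) (m : ℕ → V) (i : Fin p) : M.st m 0 i = M.start i := rfl

theorem Prog.st_succ (M : Prog p S V) (m : ℕ → V) (t : ℕ) (i : Fin p) :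
    M.st m (t + 1) i = M.next i (M.st m t i) (M.mem m t (M.addr i (M.st m t i))) := rfl

theorem Prog.mem_zero (M : Prog p S V) (m : ℕ → V) (c : ℕ) : M.mem m 0 c = m c := rfl

theorem Prog.mem_succ (M : Prog p S V) (m : ℕ → V) (t : ℕ) (c : ℕ) :
    M.mem m (t + 1) c = ((List.finRange p).findSome? fun i => M.write i
      (M.st m (t + 1) i) c).getD (M.mem m t c) := rfl

/-- All pairs (time, processor) with time in `1..t`, in the order of priority. -/
def kids (p : ℕ) : ℕ → List (ℕ × Fin p)
  | 0 => []
  | t + 1 => (List.finRange p).map (fun i => (t + 1, i)) ++ kids p t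

theorem mem_kids {t : ℕ} {κ : ℕ × Fin p} : κ ∈ kids p t ↔ 1 ≤ κ.1 ∧ κ.1 ≤ t := by
  induction t with
  | zero =>
    simp only [kids, List.not_mem_nil, false_iff]
    omega
  | succ t ih =>
    rw [kids, List.mem_append, ih]
    constructor
    · rintro (h | h)
      · obtain ⟨i, -, rfl⟩ := List.mem_map.1 h
        exact ⟨by omega, le_rfl⟩
      · exact ⟨h.1, by omega⟩
    · rintro ⟨h1, h2⟩
      rcases Nat.lt_or_ge κ.1 (t + 1) with h | h
      · exact Or.inr ⟨h1, by omega⟩
      · refine Or.inl (List.mem_map.2 ⟨κ.2, List.mem_finRange _, ?_⟩)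
        exact Prod.ext (by simp; omega) rfl

/-- What the pair `κ` (time, processor) writes to the cell `c`. -/
def Prog.wr (M : Prog p S V) (m : ℕ → V) (κ : ℕ × Fin p) (c : ℕ) : Option V :=
  M.write κ.2 (M.st m κ.1 κ.2) c

/-- The source of the content of the cell `c` after `t` steps. -/
def Prog.src (M : Prog p S V) (m : ℕ → V) (t : ℕ) (c : ℕ) : Option (ℕ × Fin p) :=
  (kids p t).find? fun κ => (M.wr m κ c).isSome

theorem Prog.mem_eq (M : Prog p S V) (m : ℕ → V) (t : ℕ) (c : ℕ) :
    M.mem m t c = ((kids p t).findSome? fun κ => M.wr m κ c).getD (m c) := by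
  induction t with
  | zero => simp [kids, Prog.mem_zero]
  | succ t ih =>
    rw [Prog.mem_succ, kids, List.findSome?_append, List.findSome?_map, ih]
    cases h : (List.finRange p).findSome? fun i => M.write i (M.st m (t + 1) i) c with
    | none =>
      have h2 : (List.finRange p).findSome? ((fun κ => M.wr m κ c) ∘ fun i => (t + 1, i)) = none := h
      rw [h2]; rfl
    | some v =>
      have h2 : (List.finRange p).findSome? ((fun κ => M.wr m κ c) ∘ fun i => (t + 1, i)) = some v := h
      rw [h2]; rfl

theorem Prog.mem_of_src_none {M : Prog p S V} {m : ℕ → V} {t c : ℕ}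
    (h : M.src m t c = none) : M.mem m t c = m c := by
  rw [Prog.mem_eq]
  have : (kids p t).findSome? (fun κ => M.wr m κ c) = none := by
    rw [List.findSome?_eq_none_iff]
    intro κ hκ
    have := List.find?_eq_none.1 h κ hκ
    simpa using this
  rw [this]; rfl

theorem Prog.mem_of_src_some {M : Prog p S V} {m : ℕ → V} {t c : ℕ} {κ : ℕ × Fin p}
    (h : M.src m t c = some κ) : M.wr m κ c = some (M.mem m t c) := by
  rw [Prog.mem_eq]
  unfold Prog.src at h
  revert h
  induction kids p t with
  | nil => intro h; simp at h
  | cons a L ih =>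
    intro h
    rw [List.find?_cons] at h
    rw [List.findSome?_cons]
    cases hw : M.wr m a c with
    | none =>
      rw [hw] at h
      exact ih h
    | some v =>
      rw [hw] at h
      simp only [Option.isSome_some, Option.some.injEq] at h
      subst h
      rw [hw]; rfl

/-- What processor `i` learns in step `t`. -/
def Prog.info (M : Prog p S V) (m : ℕ → V) (t : ℕ) (i : Fin p) :
    S × Option (ℕ × Fin p) × V :=
  (M.st m t i, M.src m t (M.addr i (M.st m t i)), M.mem m t (M.addr i (M.st m t i)))

theorem Prog.st_of_info (M : Prog p S V) (m : ℕ → V) (t : ℕ) (i : Fin p) :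
    M.st m (t + 1) i = M.next i (M.info m t i).1 (M.info m t i).2.2 := rfl

end PR16
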