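import Mathlib
import Pool.Agent.PR16.Def

/-!
# The structure lemma on the cube

If on the three facets through the origin the information of every processor depends on at most one
coordinate, then on the whole cube every state depends on at most one coordinate.
-/

namespace PR16

variable {p : ℕ} {S V α : Type}

/-- `f` depends on at most one coordinate of the cube. -/
def Dic3 (f : Bool → Bool → Bool → α) : Prop :=
  (∀ a b c b' c', f a b c = f a b' c') ∨ (∀ a b c a' c', f a b c = f a' b c') ∨
    (∀ a b c a' b', f a b c = f a' b' c)

/-- On the facet with first coordinate `false`, `f` depends on at most one coordinate. -/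
def Fac0 (f : Bool → Bool → Bool → α) : Prop :=
  (∀ b c c', f false b c = f false b c') ∨ (∀ b b' c, f false b c = f false b' c)

/-- The same for the second coordinate. -/
def Fac1 (f : Bool → Bool → Bool → α) : Prop :=
  (∀ a c c', f a false c = f a false c') ∨ (∀ a a' c, f a false c = f a' false c)

/-- The same for the third coordinate. -/
def Fac2 (f : Bool → Bool → Bool → α) : Prop :=
  (∀ a b b', f a b false = f a b' false) ∨ (∀ a a' b, f a b false = f a' b false)

theorem find_forced {β : Type} (L : List β) (q q1 q2 q3 : β → Bool)
    (h : ∀ x ∈ L, q x = q1 x ∨ q x = q2 x ∨ q x = q3 x)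
    (h12 : L.find? q1 = L.find? q2) (h13 : L.find? q1 = L.find? q3) :
    L.find? q = L.find? q1 := by
  induction L with
  | nil => rfl
  | cons x L ih =>
    have hx := h x List.mem_cons_self
    have ih' := ih (fun y hy => h y (List.mem_cons_of_mem _ hy))
    rw [List.find?_cons, List.find?_cons] at h12 h13
    rw [List.find?_cons, List.find?_cons]
    have A : ∀ r : β → Bool, L.find? r = some x → r x = true := fun r hr => List.find?_some hr
    have A1 := A q1
    have A2 := A q2
    have A3 := A q3
    grind

theorem info_forced (M : Prog p S V) (mT m1 m2 m3 : ℕ → V) (t : ℕ) (i : Fin p)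
    (hs : ∀ τ ≤ t, ∀ j : Fin p, M.st mT τ j = M.st m1 τ j ∨ M.st mT τ j = M.st m2 τ j ∨
      M.st mT τ j = M.st m3 τ j)
    (hm : ∀ c, mT c = m1 c ∨ mT c = m2 c ∨ mT c = m3 c)
    (h12 : M.info m1 t i = M.info m2 t i) (h13 : M.info m1 t i = M.info m3 t i) :
    M.info mT t i = M.info m1 t i := by
  have e12 := Prod.ext_iff.1 h12
  have e13 := Prod.ext_iff.1 h13
  have s12 : M.st m1 t i = M.st m2 t i := e12.1
  have s13 : M.st m1 t i = M.st m3 t i := e13.1
  have hst : M.st mT t i = M.st m1 t i := by
    rcases hs t le_rfl i with h | h | h
    · exact h
    · rw [h, s12]
    · rw [h, s13]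
  set c := M.addr i (M.st m1 t i) with hc
  have hc2 : M.addr i (M.st m2 t i) = c := by rw [← s12]
  have hc3 : M.addr i (M.st m3 t i) = c := by rw [← s13]
  have src12 : M.src m1 t c = M.src m2 t c := by
    have := (Prod.ext_iff.1 e12.2).1
    change M.src m1 t c = M.src m2 t (M.addr i (M.st m2 t i)) at this
    rwa [hc2] at this
  have src13 : M.src m1 t c = M.src m3 t c := by
    have := (Prod.ext_iff.1 e13.2).1
    change M.src m1 t c = M.src m3 t (M.addr i (M.st m3 t i)) at this
    rwa [hc3] at this
  have mem12 : M.mem m1 t c = M.mem m2 t c := by
    have := (Prod.ext_iff.1 e12.2).2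
    change M.mem m1 t c = M.mem m2 t (M.addr i (M.st m2 t i)) at this
    rwa [hc2] at this
  have mem13 : M.mem m1 t c = M.mem m3 t c := by
    have := (Prod.ext_iff.1 e13.2).2
    change M.mem m1 t c = M.mem m3 t (M.addr i (M.st m3 t i)) at this
    rwa [hc3] at this
  have hwr : ∀ κ : ℕ × Fin p, κ.1 ≤ t → M.wr mT κ c = M.wr m1 κ c ∨ M.wr mT κ c = M.wr m2 κ c ∨
      M.wr mT κ c = M.wr m3 κ c := by
    intro κ hκ
    unfold Prog.wr
    rcases hs κ.1 hκ κ.2 with h | h | h
    · left; rw [h]
    · right; left; rw [h]
    · right; right; rw [h]
  have hsrc : M.src mT t c = M.src m1 t c := by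
    refine find_forced _ _ _ _ _ ?_ src12 src13
    intro κ hκ
    rcases hwr κ (mem_kids.1 hκ).2 with h | h | h
    · left; simp only [h]
    · right; left; simp only [h]
    · right; right; simp only [h]
  have hmem : M.mem mT t c = M.mem m1 t c := by
    rcases ho : M.src m1 t c with _ | κ
    · rw [Prog.mem_of_src_none (hsrc.trans ho), Prog.mem_of_src_none ho]
      have h2 : M.mem m2 t c = m2 c := Prog.mem_of_src_none (src12 ▸ ho)
      have h3 : M.mem m3 t c = m3 c := Prog.mem_of_src_none (src13 ▸ ho)
      have h1 : M.mem m1 t c = m1 c := Prog.mem_of_src_none ho
      rcases hm c with h | h | h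
      · exact h
      · rw [h, ← h2, ← mem12, h1]
      · rw [h, ← h3, ← mem13, h1]
    · have hT := Prog.mem_of_src_some (hsrc.trans ho)
      have h1 := Prog.mem_of_src_some ho
      have h2 := Prog.mem_of_src_some (src12 ▸ ho : M.src m2 t c = some κ)
      have h3 := Prog.mem_of_src_some (src13 ▸ ho : M.src m3 t c = some κ)
      have hκ : κ.1 ≤ t := (mem_kids.1 (List.mem_of_find?_eq_some ho)).2
      rcases hwr κ hκ with h | h | h
      · rw [hT, h1] at h; exact Option.some.inj h
      · rw [hT, h2] at h; rw [mem12]; exact Option.some.inj h
      · rw [hT, h3] at h; rw [mem13]; exact Option.some.inj h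
  unfold Prog.info
  rw [hst]
  exact Prod.ext rfl (Prod.ext hsrc hmem)

/-- Seven vertices. -/
theorem seven (g : Bool → Bool → Bool → α) (h0 : Fac0 g) (h1 : Fac1 g) (h2 : Fac2 g) :
    (g true false false = g true true false ∧ g true false false = g true false true ∧
      g false false false = g false true false ∧ g false false false = g false false true ∧
      g false false false = g false true true) ∨
    (g false true false = g true true false ∧ g false true false = g false true true ∧
      g false false false = g true false false ∧ g false false false = g false false true ∧
      g false false false = g true false true) ∨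
    (g false false true = g true false true ∧ g false false true = g false true true ∧
      g false false false = g true false false ∧ g false false false = g false true false ∧
      g false false false = g true true false) := by
  rcases h0 with h0 | h0 <;> rcases h1 with h1 | h1 <;> rcases h2 with h2 | h2
  · left
    have a1 := h0 false false true
    have a2 := h0 true false true
    have b1 := h1 false false true
    have b2 := h1 true false true
    have c1 := h2 false false true
    have c2 := h2 true false true
    refine ⟨?_, ?_, ?_, ?_, ?_⟩ <;> grind
  · right; left
    have a1 := h0 false false true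
    have a2 := h0 true false true
    have b1 := h1 false false true
    have b2 := h1 true false true
    have c1 := h2 false true false
    have c2 := h2 false true true
    refine ⟨?_, ?_, ?_, ?_, ?_⟩ <;> grind
  · left
    have a1 := h0 false false true
    have a2 := h0 true false true
    have b1 := h1 false true false
    have b2 := h1 false true true
    have c1 := h2 false false true
    have c2 := h2 true false true
    refine ⟨?_, ?_, ?_, ?_, ?_⟩ <;> grind
  · right; left
    have a1 := h0 false false true
    have a2 := h0 true false true
    have b1 := h1 false true false
    have b2 := h1 false true true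
    have c1 := h2 false true false
    have c2 := h2 false true true
    refine ⟨?_, ?_, ?_, ?_, ?_⟩ <;> grind
  · left
    have a1 := h0 false true false
    have a2 := h0 false true true
    have b1 := h1 false false true
    have b2 := h1 true false true
    have c1 := h2 false false true
    have c2 := h2 true false true
    refine ⟨?_, ?_, ?_, ?_, ?_⟩ <;> grind
  · right; left
    have a1 := h0 false true false
    have a2 := h0 false true true
    have b1 := h1 false false true
    have b2 := h1 true false true
    have c1 := h2 false true false
    have c2 := h2 false true true
    refine ⟨?_, ?_, ?_, ?_, ?_⟩ <;> grind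
  · right; right
    have a1 := h0 false true false
    have a2 := h0 false true true
    have b1 := h1 false true false
    have b2 := h1 false true true
    have c1 := h2 false false true
    have c2 := h2 true false true
    refine ⟨?_, ?_, ?_, ?_, ?_⟩ <;> grind
  · right; right
    have a1 := h0 false true false
    have a2 := h0 false true true
    have b1 := h1 false true false
    have b2 := h1 false true true
    have c1 := h2 false true false
    have c2 := h2 false true true
    refine ⟨?_, ?_, ?_, ?_, ?_⟩ <;> grind

theorem Dic3.comp {β : Type} {f : Bool → Bool → Bool → α} (h : Dic3 f) (g : α → β) :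
    Dic3 (fun a b c => g (f a b c)) := by
  rcases h with h | h | h
  · exact Or.inl fun a b c b' c' => by show g _ = g _; rw [h a b c b' c']
  · exact Or.inr (Or.inl fun a b c a' c' => by show g _ = g _; rw [h a b c a' c'])
  · exact Or.inr (Or.inr fun a b c a' b' => by show g _ = g _; rw [h a b c a' b'])

/-- The structure lemma. -/
theorem cube_info (M : Prog p S V) (m : Bool → Bool → Bool → ℕ → V)
    (hm : ∀ c, Dic3 (fun a b d => m a b d c)) (t : ℕ) (i : Fin p)
    (hs : ∀ τ ≤ t, ∀ j : Fin p, Dic3 (fun a b d => M.st (m a b d) τ j))
    (h0 : Fac0 (fun a b d => M.info (m a b d) t i)) (h1 : Fac1 (fun a b d => M.info (m a b d) t i))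
    (h2 : Fac2 (fun a b d => M.info (m a b d) t i)) :
    Dic3 (fun a b d => M.info (m a b d) t i) := by
  rcases seven _ h0 h1 h2 with ⟨e1, e2, e3, e4, e5⟩ | ⟨e1, e2, e3, e4, e5⟩ | ⟨e1, e2, e3, e4, e5⟩
  · have key := info_forced M (m true true true) (m true false false) (m true true false)
      (m true false true) t i ?_ ?_ e1 e2
    · left
      intro a b c b' c'
      beta_reduce
      rcases a with _ | _ <;> rcases b with _ | _ <;> rcases c with _ | _ <;>
        rcases b' with _ | _ <;> rcases c' with _ | _ <;> simp_all
    · intro τ hτ j
      rcases hs τ hτ j with h | h | h
      · exact Or.inl (h true true true false false)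
      · exact Or.inr (Or.inl (h true true true true false))
      · exact Or.inr (Or.inr (h true true true true false))
    · intro c
      rcases hm c with h | h | h
      · exact Or.inl (h true true true false false)
      · exact Or.inr (Or.inl (h true true true true false))
      · exact Or.inr (Or.inr (h true true true true false))
  · have key := info_forced M (m true true true) (m false true false) (m true true false)
      (m false true true) t i ?_ ?_ e1 e2
    · right; left
      intro a b c a' c'
      beta_reduce
      rcases a with _ | _ <;> rcases b with _ | _ <;> rcases c with _ | _ <;>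
        rcases a' with _ | _ <;> rcases c' with _ | _ <;> simp_all
    · intro τ hτ j
      rcases hs τ hτ j with h | h | h
      · exact Or.inr (Or.inl (h true true true true false))
      · exact Or.inl (h true true true false false)
      · exact Or.inr (Or.inr (h true true true false true))
    · intro c
      rcases hm c with h | h | h
      · exact Or.inr (Or.inl (h true true true true false))
      · exact Or.inl (h true true true false false)
      · exact Or.inr (Or.inr (h true true true false true))
  · have key := info_forced M (m true true true) (m false false true) (m true false true)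
      (m false true true) t i ?_ ?_ e1 e2
    · right; right
      intro a b c a' b'
      beta_reduce
      rcases a with _ | _ <;> rcases b with _ | _ <;> rcases c with _ | _ <;>
        rcases a' with _ | _ <;> rcases b' with _ | _ <;> simp_all
    · intro τ hτ j
      rcases hs τ hτ j with h | h | h
      · exact Or.inr (Or.inl (h true true true false true))
      · exact Or.inr (Or.inr (h true true true false true))
      · exact Or.inl (h true true true false false)
    · intro c
      rcases hm c with h | h | h
      · exact Or.inr (Or.inl (h true true true false true))
      · exact Or.inr (Or.inr (h true true true false true))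
      · exact Or.inl (h true true true false false)

/-- All states depend on at most one coordinate of the cube. -/
theorem cube_st (M : Prog p S V) (m : Bool → Bool → Bool → ℕ → V)
    (hm : ∀ c, Dic3 (fun a b d => m a b d c)) (T : ℕ)
    (hf : ∀ t < T, ∀ i : Fin p, Fac0 (fun a b d => M.info (m a b d) t i) ∧
      Fac1 (fun a b d => M.info (m a b d) t i) ∧ Fac2 (fun a b d => M.info (m a b d) t i)) :
    ∀ t ≤ T, ∀ i : Fin p, Dic3 (fun a b d => M.st (m a b d) t i) := by
  intro t
  induction t using Nat.strong_induction_on with
  | _ t ih =>
    intro ht i
    cases t with
    | zero => exact Or.inl fun _ _ _ _ _ => rfl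
    | succ t =>
      have h := cube_info M m hm t i (fun τ hτ j => ih τ (by omega) (by omega) j)
        (hf t (by omega) i).1 (hf t (by omega) i).2.1 (hf t (by omega) i).2.2
      exact h.comp (fun x => M.next i x.1 x.2.2)

end PR16
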