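import Mathlib

/-!
# Scanning an ordered list of terms

A term `(S, a, lab)` is satisfied by the assignment `b` iff `b = a` on `S`.  `kn L K b`: the set of
known variables after scanning the list `L`, if the variables in `K` are known at the start: a term
falsified by the known variables is skipped; otherwise all its variables are asked; the scan
stops at the first satisfied term.
-/

namespace PR16

variable {ι Λ : Type} [DecidableEq ι]

/-- A labelled term. -/
structure Term (ι Λ : Type) where
  S : Finset ι
  a : ι → Bool
  lab : Λ

/-- The assignment `b` satisfies the term `T`. -/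
def sat (b : ι → Bool) (T : Term ι Λ) : Bool := decide (∀ i ∈ T.S, b i = T.a i)

theorem sat_iff {b : ι → Bool} {T : Term ι Λ} : sat b T = true ↔ ∀ i ∈ T.S, b i = T.a i := by
  simp [sat]

/-- The known variables after the scan. -/
def kn : List (Term ι Λ) → Finset ι → (ι → Bool) → Finset ι
  | [], K, _ => K
  | T :: L, K, b =>
    if ∃ i ∈ T.S ∩ K, b i ≠ T.a i then kn L K b
    else if sat b T then K ∪ T.S else kn L (K ∪ T.S) b

theorem kn_nil (K : Finset ι) (b : ι → Bool) : kn ([] : List (Term ι Λ)) K b = K := rfl

theorem kn_cons (T : Term ι Λ) (L : List (Term ι Λ)) (K : Finset ι) (b : ι → Bool) :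
    kn (T :: L) K b = if ∃ i ∈ T.S ∩ K, b i ≠ T.a i then kn L K b
      else if sat b T then K ∪ T.S else kn L (K ∪ T.S) b := rfl

theorem subset_kn (L : List (Term ι Λ)) : ∀ (K : Finset ι) (b : ι → Bool), K ⊆ kn L K b := by
  induction L with
  | nil => intro K b; exact Finset.Subset.refl _
  | cons T L ih =>
    intro K b
    rw [kn_cons]
    split_ifs
    · exact ih K b
    · exact Finset.subset_union_left
    · exact Finset.subset_union_left.trans (ih _ b)

/-- If `b'` agrees with `b` on all variables known after the scan for `b`, the first satisfied
term is the same. -/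
theorem find_agree (L : List (Term ι Λ)) : ∀ (K : Finset ι) (b b' : ι → Bool),
    (∀ i ∈ kn L K b, b' i = b i) → L.find? (sat b') = L.find? (sat b) := by
  induction L with
  | nil => intro K b b' _; rfl
  | cons T L ih =>
    intro K b b' h
    rw [kn_cons] at h
    split_ifs at h with h1 h2
    · obtain ⟨i, hi, hne⟩ := h1
      rw [Finset.mem_inter] at hi
      have hb : sat b T = false := by
        rw [← Bool.not_eq_true, sat_iff]
        exact fun hh => hne (hh i hi.1)
      have hb' : sat b' T = false := by
        rw [← Bool.not_eq_true, sat_iff]
        intro hh
        have := hh i hi.1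
        rw [h i (subset_kn L K b hi.2)] at this
        exact hne this
      rw [List.find?_cons_of_neg (by rw [hb']; simp), List.find?_cons_of_neg (by rw [hb]; simp)]
      exact ih K b b' h
    · have hb' : sat b' T = true := by
        rw [sat_iff] at h2 ⊢
        intro i hi
        rw [h i (Finset.mem_union_right _ hi)]
        exact h2 i hi
      rw [List.find?_cons_of_pos hb', List.find?_cons_of_pos h2]
    · have hb : sat b T = false := by simpa using h2
      have hb' : sat b' T = false := by
        rw [← Bool.not_eq_true, sat_iff]
        intro hh
        apply h2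
        rw [sat_iff]
        intro i hi
        rw [← hh i hi]
        exact (h i (subset_kn L _ b (Finset.mem_union_right _ hi))).symm
      rw [List.find?_cons_of_neg (by rw [hb']; simp), List.find?_cons_of_neg (by rw [hb]; simp)]
      exact ih _ b b' h

end PR16
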