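import Mathlib
import Pool.Agent.PR16.Scan

/-!
# A switching lemma for ordered lists of terms

`switch`: for every family `U` of pairs (known set, assignment) closed under refinement.
-/

namespace PR16

variable {ι Λ : Type} [DecidableEq ι] [Fintype ι]

/-- The product weight of a known set. -/
noncomputable def wt (q : ℝ) (K : Finset ι) : ℝ := q ^ (Kᶜ).card * (1 - q) ^ K.card

theorem wt_nonneg {q : ℝ} (h0 : 0 < q) (h1 : q < 1) (K : Finset ι) : 0 ≤ wt q K :=
  mul_nonneg (pow_nonneg h0.le _) (pow_nonneg (by linarith) _)

theorem wt_union {q : ℝ} (h0 : 0 < q) (h1 : q < 1) {K Y : Finset ι} (h : Disjoint K Y) :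
    wt q K = (q / (1 - q)) ^ Y.card * wt q (K ∪ Y) := by
  have h2 : (1 - q) ≠ 0 := by linarith
  have hc : (Kᶜ).card = ((K ∪ Y)ᶜ).card + Y.card := by
    rw [← Finset.card_union_of_disjoint]
    · congr 1
      ext i
      simp only [Finset.mem_compl, Finset.mem_union]
      constructor
      · intro hi
        by_cases hY : i ∈ Y
        · exact Or.inr hY
        · exact Or.inl (by tauto)
      · rintro (hi | hi)
        · tauto
        · exact fun hK => Finset.disjoint_left.1 h hK hi
    · rw [Finset.disjoint_left]
      intro i hi hY
      exact (Finset.mem_compl.1 hi) (Finset.mem_union_right _ hY)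
  rw [wt, wt, hc, Finset.card_union_of_disjoint h, pow_add, pow_add, div_pow]
  field_simp

/-- The family of the pairs is closed under refinement. -/
def Refl (U : Finset (Finset ι × (ι → Bool))) : Prop :=
  ∀ K b K' b', (K, b) ∈ U → K ⊆ K' → (∀ i ∈ K, b' i = b i) → (K', b') ∈ U

theorem card_fiber (Y : Finset ι) (a : ι → Bool) (F : Finset (Finset ι × (ι → Bool)))
    (z0 : Finset ι × (ι → Bool))
    (hF : ∀ z ∈ F, (z.1, fun i => if i ∈ Y then a i else z.2 i) = z0) :
    F.card ≤ 2 ^ Y.card := by
  rw [← Finset.card_powerset]
  refine Finset.card_le_card_of_injOn (fun z => Y.filter fun i => z.2 i = true) ?_ ?_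
  · intro z _
    exact Finset.mem_coe.2 (Finset.mem_powerset.2 (Finset.filter_subset _ _))
  · intro z hz z' hz' h
    have e1 := hF z hz
    have e2 := hF z' hz'
    have e3 : z.1 = z'.1 := by
      have := e1.trans e2.symm
      exact (Prod.ext_iff.1 this).1
    refine Prod.ext e3 ?_
    funext i
    by_cases hi : i ∈ Y
    · have h' : (Y.filter fun i => z.2 i = true) = Y.filter fun i => z'.2 i = true := h
      have h3 : (i ∈ Y.filter fun i => z.2 i = true) ↔ (i ∈ Y.filter fun i => z'.2 i = true) := by
        rw [h']
      simp only [Finset.mem_filter, hi, true_and] at h3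
      rcases h4 : z.2 i with _ | _ <;> rcases h5 : z'.2 i with _ | _ <;> simp_all
    · have h3 := congrFun (Prod.ext_iff.1 (e1.trans e2.symm)).2 i
      simpa [hi] using h3

theorem switch {q θ : ℝ} (hq0 : 0 < q) (hq1 : q < 1) (hθ : 1 ≤ θ) {W : ℕ}
    (hW : (1 + 2 * (θ * q / (1 - q))) ^ W ≤ 3 / 2) (L : List (Term ι Λ)) :
    (∀ T ∈ L, T.S.card ≤ W) → ∀ U : Finset (Finset ι × (ι → Bool)), Refl U →
    ∑ z ∈ U, wt q z.1 * θ ^ (kn L z.1 z.2 \ z.1).card ≤ 2 * ∑ z ∈ U, wt q z.1 := by
  classical
  have hx0 : 0 ≤ θ * q / (1 - q) := div_nonneg (by positivity) (by linarith)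
  set x := θ * q / (1 - q) with hx
  have hθ0 : 0 < θ := by linarith
  induction L with
  | nil =>
    intro _ U _
    have : ∀ z ∈ U, wt q z.1 * θ ^ (kn ([] : List (Term ι Λ)) z.1 z.2 \ z.1).card = wt q z.1 := by
      intro z _
      rw [kn_nil, Finset.sdiff_self, Finset.card_empty, pow_zero, mul_one]
    rw [Finset.sum_congr rfl this]
    have : 0 ≤ ∑ z ∈ U, wt q z.1 := Finset.sum_nonneg fun z _ => wt_nonneg hq0 hq1 _
    linarith
  | cons T L ih =>
    intro hL U hU
    have ihL := ih (fun T' hT' => hL T' (List.mem_cons_of_mem _ hT'))
    have hTW : T.S.card ≤ W := hL T List.mem_cons_self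
    have hwn : ∀ K : Finset ι, 0 ≤ wt q K := wt_nonneg hq0 hq1
    -- the two parts
    set P : Finset ι × (ι → Bool) → Prop := fun z => ∃ i ∈ T.S ∩ z.1, z.2 i ≠ T.a i with hP
    rw [← Finset.sum_filter_add_sum_filter_not U P, ← Finset.sum_filter_add_sum_filter_not U P
      (fun z => wt q z.1), mul_add]
    refine add_le_add ?_ ?_
    · have e : ∀ z ∈ U.filter P, wt q z.1 * θ ^ (kn (T :: L) z.1 z.2 \ z.1).card =
          wt q z.1 * θ ^ (kn L z.1 z.2 \ z.1).card := by
        intro z hz
        have hz2 : ∃ i ∈ T.S ∩ z.1, z.2 i ≠ T.a i := (Finset.mem_filter.1 hz).2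
        rw [kn_cons, if_pos hz2]
      rw [Finset.sum_congr rfl e]
      refine ihL _ ?_
      intro K b K' b' h1 h2 h3
      rw [Finset.mem_filter] at h1 ⊢
      refine ⟨hU K b K' b' h1.1 h2 h3, ?_⟩
      obtain ⟨i, hi, hne⟩ := h1.2
      rw [Finset.mem_inter] at hi
      exact ⟨i, Finset.mem_inter.2 ⟨hi.1, h2 hi.2⟩, by
        show b' i ≠ T.a i
        rw [h3 i hi.2]; exact hne⟩
    · -- the unfalsified part
      set V := U.filter fun z => ¬ P z with hV
      set U0 := U.filter fun z => T.S ⊆ z.1 ∧ ∀ i ∈ T.S, z.2 i = T.a i with hU0
      have hU0V : U0 ⊆ V := by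
        intro z hz
        rw [hU0, Finset.mem_filter] at hz
        rw [hV, Finset.mem_filter]
        refine ⟨hz.1, ?_⟩
        rintro ⟨i, hi, hne⟩
        exact hne (hz.2.2 i (Finset.mem_inter.1 hi).1)
      have hS0 : 0 ≤ ∑ z ∈ U0, wt q z.1 := Finset.sum_nonneg fun z _ => hwn _
      have hfin : ∑ z ∈ V, wt q z.1 * θ ^ (kn (T :: L) z.1 z.2 \ z.1).card ≤
          2 * ∑ z ∈ U0, wt q z.1 := by
        have hpart : ∑ z ∈ V, wt q z.1 * θ ^ (kn (T :: L) z.1 z.2 \ z.1).card =
            ∑ Y ∈ T.S.powerset, ∑ z ∈ V.filter (fun z => T.S \ z.1 = Y),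
              wt q z.1 * θ ^ (kn (T :: L) z.1 z.2 \ z.1).card := by
          rw [Finset.sum_fiberwise_of_maps_to]
          intro z _
          exact Finset.mem_powerset.2 Finset.sdiff_subset
        rw [hpart]
        have hY : ∀ Y ∈ T.S.powerset, ∑ z ∈ V.filter (fun z => T.S \ z.1 = Y),
              wt q z.1 * θ ^ (kn (T :: L) z.1 z.2 \ z.1).card ≤
            (2 * ((2 * x) ^ Y.card * 1 ^ (T.S.card - Y.card)) - if Y = ∅ then 1 else 0) *
              ∑ z ∈ U0, wt q z.1 := by
          intro Y hYS
          rw [Finset.mem_powerset] at hYS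
          rw [one_pow, mul_one]
          by_cases hYe : Y = ∅
          · subst hYe
            rw [if_pos rfl, Finset.card_empty, pow_zero]
            have : (2 * 1 - 1 : ℝ) = 1 := by norm_num
            rw [this, one_mul]
            have hsub : V.filter (fun z => T.S \ z.1 = ∅) ⊆ U0 := by
              intro z hz
              rw [Finset.mem_filter, hV, Finset.mem_filter] at hz
              rw [hU0, Finset.mem_filter]
              have h1 : T.S ⊆ z.1 := Finset.sdiff_eq_empty_iff_subset.1 hz.2
              refine ⟨hz.1.1, h1, ?_⟩
              intro i hi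
              by_contra hne
              exact hz.1.2 ⟨i, Finset.mem_inter.2 ⟨hi, h1 hi⟩, hne⟩
            have hval : ∀ z ∈ V.filter (fun z => T.S \ z.1 = ∅),
                wt q z.1 * θ ^ (kn (T :: L) z.1 z.2 \ z.1).card = wt q z.1 := by
              intro z hz
              have h0 := hsub hz
              rw [hU0, Finset.mem_filter] at h0
              rw [Finset.mem_filter, hV, Finset.mem_filter] at hz
              have hn : ¬ ∃ i ∈ T.S ∩ z.1, z.2 i ≠ T.a i := hz.1.2
              have hs : sat z.2 T = true := sat_iff.2 h0.2.2
              rw [kn_cons, if_neg hn, if_pos hs]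
              have : (z.1 ∪ T.S) \ z.1 = ∅ := by
                rw [Finset.sdiff_eq_empty_iff_subset]
                exact Finset.union_subset (Finset.Subset.refl _) h0.2.1
              rw [this, Finset.card_empty, pow_zero, mul_one]
            rw [Finset.sum_congr rfl hval]
            exact Finset.sum_le_sum_of_subset_of_nonneg hsub fun z _ _ => hwn _
          · rw [if_neg hYe, sub_zero]
            set UY : Finset (Finset ι × (ι → Bool)) := Finset.univ.filter fun z =>
              T.S ⊆ z.1 ∧ (∀ i ∈ T.S \ Y, z.2 i = T.a i) ∧ (z.1 \ Y, z.2) ∈ U with hUY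
            have hUYR : Refl UY := by
              intro K b K' b' h1 h2 h3
              rw [hUY, Finset.mem_filter] at h1 ⊢
              obtain ⟨-, h4, h5, h6⟩ := h1
              refine ⟨Finset.mem_univ _, h4.trans h2, ?_, ?_⟩
              · intro i hi
                have hiK : i ∈ K := h4 (Finset.mem_sdiff.1 hi).1
                show b' i = T.a i
                rw [h3 i hiK]
                exact h5 i hi
              · exact hU _ _ _ _ h6 (Finset.sdiff_subset_sdiff h2 (Finset.Subset.refl _))
                  (fun i hi => h3 i (Finset.mem_sdiff.1 hi).1)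
            -- step 1
            have s1 : ∑ z ∈ V.filter (fun z => T.S \ z.1 = Y),
                wt q z.1 * θ ^ (kn (T :: L) z.1 z.2 \ z.1).card ≤
                x ^ Y.card * ∑ z ∈ UY, wt q z.1 * θ ^ (kn L z.1 z.2 \ z.1).card := by
              set g : Finset ι × (ι → Bool) → Finset ι × (ι → Bool) := fun z => (z.1 ∪ Y, z.2) with hg
              have hdis : ∀ z ∈ V.filter (fun z => T.S \ z.1 = Y), Disjoint z.1 Y := by
                intro z hz
                rw [Finset.mem_filter] at hz
                rw [← hz.2]
                exact Finset.disjoint_sdiff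
              have hinj : Set.InjOn g (V.filter (fun z => T.S \ z.1 = Y) : Finset _) := by
                intro z hz z' hz' h
                have h1 := hdis z hz
                have h2 := hdis z' hz'
                have h3 := Prod.ext_iff.1 h
                refine Prod.ext ?_ h3.2
                have h4 : (z.1 ∪ Y) \ Y = (z'.1 ∪ Y) \ Y := by
                  have : z.1 ∪ Y = z'.1 ∪ Y := h3.1
                  rw [this]
                rwa [Finset.union_sdiff_cancel_right h1, Finset.union_sdiff_cancel_right h2] at h4
              have hmaps : (V.filter (fun z => T.S \ z.1 = Y)).image g ⊆ UY := by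
                intro z' hz'
                obtain ⟨z, hz, rfl⟩ := Finset.mem_image.1 hz'
                have h1 := hdis z hz
                rw [Finset.mem_filter, hV, Finset.mem_filter] at hz
                rw [hUY, Finset.mem_filter]
                refine ⟨Finset.mem_univ _, ?_, ?_, ?_⟩
                · intro i hi
                  show i ∈ z.1 ∪ Y
                  rw [Finset.mem_union]
                  by_cases h2 : i ∈ z.1
                  · exact Or.inl h2
                  · exact Or.inr (by rw [← hz.2]; exact Finset.mem_sdiff.2 ⟨hi, h2⟩)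
                · intro i hi
                  rw [Finset.mem_sdiff] at hi
                  by_contra hne
                  have h2 : i ∈ z.1 := by
                    by_contra h3
                    exact hi.2 (by rw [← hz.2]; exact Finset.mem_sdiff.2 ⟨hi.1, h3⟩)
                  exact hz.1.2 ⟨i, Finset.mem_inter.2 ⟨hi.1, h2⟩, hne⟩
                · show ((z.1 ∪ Y) \ Y, z.2) ∈ U
                  rw [Finset.union_sdiff_cancel_right h1]
                  exact hz.1.1
              calc ∑ z ∈ V.filter (fun z => T.S \ z.1 = Y),
                  wt q z.1 * θ ^ (kn (T :: L) z.1 z.2 \ z.1).card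
                  ≤ ∑ z ∈ V.filter (fun z => T.S \ z.1 = Y),
                    x ^ Y.card * (wt q (g z).1 * θ ^ (kn L (g z).1 (g z).2 \ (g z).1).card) := by
                    refine Finset.sum_le_sum fun z hz => ?_
                    have h1 := hdis z hz
                    rw [Finset.mem_filter, hV, Finset.mem_filter] at hz
                    have hn : ¬ ∃ i ∈ T.S ∩ z.1, z.2 i ≠ T.a i := hz.1.2
                    have hKS : z.1 ∪ T.S = z.1 ∪ Y := by
                      ext i
                      rw [Finset.mem_union, Finset.mem_union, ← hz.2, Finset.mem_sdiff]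
                      tauto
                    show wt q z.1 * θ ^ (kn (T :: L) z.1 z.2 \ z.1).card ≤
                      x ^ Y.card * (wt q (z.1 ∪ Y) * θ ^ (kn L (z.1 ∪ Y) z.2 \ (z.1 ∪ Y)).card)
                    rw [wt_union hq0 hq1 h1]
                    have hxp : x ^ Y.card = (q / (1 - q)) ^ Y.card * θ ^ Y.card := by
                      rw [hx, ← mul_pow]; congr 1; ring
                    rw [hxp]
                    have key : θ ^ (kn (T :: L) z.1 z.2 \ z.1).card ≤
                        θ ^ Y.card * θ ^ (kn L (z.1 ∪ Y) z.2 \ (z.1 ∪ Y)).card := by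
                      rw [← pow_add]
                      refine pow_le_pow_right₀ hθ ?_
                      rw [kn_cons, if_neg hn, hKS]
                      split_ifs with hs
                      · rw [Finset.union_sdiff_cancel_left h1]
                        omega
                      · have hsub := subset_kn L (z.1 ∪ Y) z.2
                        have : kn L (z.1 ∪ Y) z.2 \ z.1 ⊆ Y ∪ (kn L (z.1 ∪ Y) z.2 \ (z.1 ∪ Y)) := by
                          intro i hi
                          rw [Finset.mem_sdiff] at hi
                          rw [Finset.mem_union, Finset.mem_sdiff, Finset.mem_union]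
                          tauto
                        exact (Finset.card_le_card this).trans (Finset.card_union_le _ _)
                    have hnn : 0 ≤ (q / (1 - q)) ^ Y.card * wt q (z.1 ∪ Y) :=
                      mul_nonneg (pow_nonneg (div_nonneg hq0.le (by linarith)) _) (hwn _)
                    calc (q / (1 - q)) ^ Y.card * wt q (z.1 ∪ Y) *
                        θ ^ (kn (T :: L) z.1 z.2 \ z.1).card
                        ≤ (q / (1 - q)) ^ Y.card * wt q (z.1 ∪ Y) *
                          (θ ^ Y.card * θ ^ (kn L (z.1 ∪ Y) z.2 \ (z.1 ∪ Y)).card) :=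
                          mul_le_mul_of_nonneg_left key hnn
                      _ = _ := by ring
                _ = x ^ Y.card * ∑ z ∈ (V.filter (fun z => T.S \ z.1 = Y)).image g,
                    wt q z.1 * θ ^ (kn L z.1 z.2 \ z.1).card := by
                    rw [Finset.sum_image hinj, Finset.mul_sum]
                _ ≤ _ := by
                    refine mul_le_mul_of_nonneg_left ?_ (pow_nonneg hx0 _)
                    refine Finset.sum_le_sum_of_subset_of_nonneg hmaps fun z _ _ => ?_
                    exact mul_nonneg (hwn _) (pow_nonneg hθ0.le _)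
            -- step 2
            have s2 : ∑ z ∈ UY, wt q z.1 ≤ 2 ^ Y.card * ∑ z ∈ U0, wt q z.1 := by
              set g : Finset ι × (ι → Bool) → Finset ι × (ι → Bool) :=
                fun z => (z.1, fun i => if i ∈ Y then T.a i else z.2 i) with hg
              have hmaps : ∀ z ∈ UY, g z ∈ U0 := by
                intro z hz
                rw [hUY, Finset.mem_filter] at hz
                obtain ⟨-, h4, h5, h6⟩ := hz
                rw [hU0, Finset.mem_filter]
                refine ⟨?_, h4, ?_⟩
                · refine hU _ _ _ _ h6 Finset.sdiff_subset ?_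
                  intro i hi
                  have : i ∉ Y := (Finset.mem_sdiff.1 hi).2
                  show (if i ∈ Y then T.a i else z.2 i) = z.2 i
                  rw [if_neg this]
                · intro i hi
                  show (if i ∈ Y then T.a i else z.2 i) = T.a i
                  split_ifs with h7
                  · rfl
                  · exact h5 i (Finset.mem_sdiff.2 ⟨hi, h7⟩)
              rw [← Finset.sum_fiberwise_of_maps_to hmaps, Finset.mul_sum]
              refine Finset.sum_le_sum fun z0 _ => ?_
              have e : ∀ z ∈ UY.filter (fun z => g z = z0), wt q z.1 = wt q z0.1 := by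
                intro z hz
                rw [← (Finset.mem_filter.1 hz).2]
              rw [Finset.sum_congr rfl e, Finset.sum_const, nsmul_eq_mul]
              refine mul_le_mul_of_nonneg_right ?_ (hwn _)
              have := card_fiber Y T.a (UY.filter (fun z => g z = z0)) z0
                (fun z hz => (Finset.mem_filter.1 hz).2)
              exact_mod_cast this
            calc _ ≤ x ^ Y.card * ∑ z ∈ UY, wt q z.1 * θ ^ (kn L z.1 z.2 \ z.1).card := s1
              _ ≤ x ^ Y.card * (2 * ∑ z ∈ UY, wt q z.1) :=
                  mul_le_mul_of_nonneg_left (ihL UY hUYR) (pow_nonneg hx0 _)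
              _ ≤ x ^ Y.card * (2 * (2 ^ Y.card * ∑ z ∈ U0, wt q z.1)) := by
                  refine mul_le_mul_of_nonneg_left ?_ (pow_nonneg hx0 _)
                  linarith
              _ = _ := by rw [mul_pow]; ring
        refine (Finset.sum_le_sum hY).trans ?_
        rw [← Finset.sum_mul]
        refine mul_le_mul_of_nonneg_right ?_ hS0
        rw [Finset.sum_sub_distrib, ← Finset.mul_sum, Finset.sum_pow_mul_eq_add_pow,
          Finset.sum_ite_eq' T.S.powerset ∅ (fun _ => (1 : ℝ)), if_pos (Finset.empty_mem_powerset _)]
        have h1 : (2 * x + 1) ^ T.S.card ≤ (2 * x + 1) ^ W :=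
          pow_le_pow_right₀ (by linarith) hTW
        have h2 : (2 * x + 1) ^ W ≤ 3 / 2 := by rw [add_comm]; exact hW
        linarith
      refine hfin.trans ?_
      refine mul_le_mul_of_nonneg_left ?_ (by norm_num)
      exact Finset.sum_le_sum_of_subset_of_nonneg hU0V fun z _ _ => hwn _

end PR16
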