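import Mathlib
import Pool.Agent.PR16.SW

/-!
# The kernel of a random refinement
-/

namespace PR16

variable {ι Λ : Type} [DecidableEq ι] [Fintype ι]

/-- The probability that the known set `K` becomes `K'`, if every unknown variable stays unknown
with probability `q`. -/
noncomputable def kw (q : ℝ) (K K' : Finset ι) : ℝ :=
  if K ⊆ K' then q ^ (K'ᶜ).card * (1 - q) ^ (K' \ K).card else 0

/-- The assignments which agree with `y` on `K`. -/
def cls (K : Finset ι) (y : ι → Bool) : Finset (ι → Bool) :=
  Finset.univ.filter fun b => ∀ i ∈ K, b i = y i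

theorem mem_cls {K : Finset ι} {y b : ι → Bool} : b ∈ cls K y ↔ ∀ i ∈ K, b i = y i := by
  simp [cls]

theorem kw_nonneg {q : ℝ} (h0 : 0 < q) (h1 : q < 1) (K K' : Finset ι) : 0 ≤ kw q K K' := by
  unfold kw
  split_ifs
  · exact mul_nonneg (pow_nonneg h0.le _) (pow_nonneg (by linarith) _)
  · exact le_rfl

theorem kw_sum {q : ℝ} (h0 : 0 < q) (K F : Finset ι) (hF : Disjoint K F) :
    ∑ K' : Finset ι, (if Disjoint K' F then kw q K K' else 0) = q ^ F.card := by
  classical
  have h1 : ∑ K' : Finset ι, (if Disjoint K' F then kw q K K' else 0) =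
      ∑ Z ∈ (K ∪ F)ᶜ.powerset, q ^ F.card * ((1 - q) ^ Z.card * q ^ ((K ∪ F)ᶜ.card - Z.card)) := by
    rw [← Finset.sum_subset (Finset.subset_univ (((K ∪ F)ᶜ.powerset).image fun Z => K ∪ Z))]
    · rw [Finset.sum_image]
      · refine Finset.sum_congr rfl fun Z hZ => ?_
        rw [Finset.mem_powerset] at hZ
        have hZK : Disjoint K Z := by
          rw [Finset.disjoint_left]
          intro i hi hiZ
          exact Finset.mem_compl.1 (hZ hiZ) (Finset.mem_union_left _ hi)
        have hZF : Disjoint Z F := by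
          rw [Finset.disjoint_left]
          intro i hi hiF
          exact Finset.mem_compl.1 (hZ hi) (Finset.mem_union_right _ hiF)
        have hd : Disjoint (K ∪ Z) F := Finset.disjoint_union_left.2 ⟨hF, hZF⟩
        rw [if_pos hd, kw, if_pos Finset.subset_union_left]
        have hs : (K ∪ Z) \ K = Z := by
          rw [Finset.union_sdiff_cancel_left hZK]
        have hc : ((K ∪ Z)ᶜ).card = F.card + ((K ∪ F)ᶜ.card - Z.card) := by
          have e1 : ((K ∪ Z)ᶜ).card = Fintype.card ι - (K ∪ Z).card := Finset.card_compl _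
          have e2 : ((K ∪ F)ᶜ).card = Fintype.card ι - (K ∪ F).card := Finset.card_compl _
          have e3 : (K ∪ Z).card = K.card + Z.card := Finset.card_union_of_disjoint hZK
          have e4 : (K ∪ F).card = K.card + F.card := Finset.card_union_of_disjoint hF
          have e5 : ((K ∪ Z) ∪ F).card = K.card + Z.card + F.card := by
            rw [Finset.card_union_of_disjoint hd, e3]
          have e6 : ((K ∪ Z) ∪ F).card ≤ Fintype.card ι := Finset.card_le_univ _
          omega
        rw [hs, hc, pow_add]
        ring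
      · intro Z hZ Z' hZ' h
        have hZ := Finset.mem_powerset.1 (Finset.mem_coe.1 hZ)
        have hZ' := Finset.mem_powerset.1 (Finset.mem_coe.1 hZ')
        have h' : K ∪ Z = K ∪ Z' := h
        ext i
        have hi : i ∈ K ∪ Z ↔ i ∈ K ∪ Z' := by rw [h']
        rw [Finset.mem_union, Finset.mem_union] at hi
        constructor
        · intro hz
          have hn : i ∉ K := fun hk => Finset.mem_compl.1 (hZ hz) (Finset.mem_union_left _ hk)
          exact (hi.1 (Or.inr hz)).resolve_left hn
        · intro hz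
          have hn : i ∉ K := fun hk => Finset.mem_compl.1 (hZ' hz) (Finset.mem_union_left _ hk)
          exact (hi.2 (Or.inr hz)).resolve_left hn
    · intro K' _ hK'
      split_ifs with hd
      · rw [kw, if_neg]
        intro hsub
        apply hK'
        rw [Finset.mem_image]
        refine ⟨K' \ K, ?_, Finset.union_sdiff_of_subset hsub⟩
        rw [Finset.mem_powerset]
        intro i hi
        rw [Finset.mem_sdiff] at hi
        rw [Finset.mem_compl, Finset.mem_union]
        rintro (h | h)
        · exact hi.2 h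
        · exact Finset.disjoint_left.1 hd hi.1 h
      · rfl
  rw [h1, ← Finset.mul_sum, Finset.sum_pow_mul_eq_add_pow]
  have : (1 - q + q : ℝ) = 1 := by ring
  rw [this, one_pow, mul_one]

theorem kw_sum_one {q : ℝ} (h0 : 0 < q) (K : Finset ι) : ∑ K' : Finset ι, kw q K K' = 1 := by
  have := kw_sum h0 K ∅ (Finset.disjoint_empty_right _)
  simpa using this

theorem switch_kw {q θ : ℝ} (hq0 : 0 < q) (hq1 : q < 1) (hθ : 1 ≤ θ) {W : ℕ}
    (hW : (1 + 2 * (θ * q / (1 - q))) ^ W ≤ 3 / 2) (L : List (Term ι Λ))
    (hL : ∀ T ∈ L, T.S.card ≤ W) (K : Finset ι) (y : ι → Bool) (w : ℕ) :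
    ∑ K' : Finset ι, kw q K K' * (((cls K y).filter fun b => w < (kn L K' b \ K').card).card : ℝ) ≤
      2 / θ ^ w * (cls K y).card := by
  classical
  have h1q : 0 < 1 - q := by linarith
  have hθ0 : 0 < θ := by linarith
  set U : Finset (Finset ι × (ι → Bool)) := (Finset.univ.filter fun K' => K ⊆ K') ×ˢ cls K y with hU
  have hUR : Refl U := by
    intro A b A' b' h1 h2 h3
    rw [hU, Finset.mem_product, Finset.mem_filter, mem_cls] at h1 ⊢
    refine ⟨⟨Finset.mem_univ _, h1.1.2.trans h2⟩, ?_⟩
    intro i hi
    show b' i = y i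
    rw [h3 i (h1.1.2 hi)]
    exact h1.2 i hi
  have key := switch hq0 hq1 hθ hW L hL U hUR
  have hwt : ∀ K' : Finset ι, K ⊆ K' → wt q K' = (1 - q) ^ K.card * kw q K K' := by
    intro K' h
    rw [wt, kw, if_pos h]
    have : K'.card = K.card + (K' \ K).card := by
      rw [Finset.card_sdiff_of_subset h]
      have := Finset.card_le_card h
      omega
    rw [this, pow_add]
    ring
  rw [hU, Finset.sum_product, Finset.sum_product] at key
  have hc0 : 0 < (1 - q) ^ K.card := pow_pos h1q _
  -- right side
  have hr : ∑ K' ∈ Finset.univ.filter (fun K' => K ⊆ K'), ∑ _b ∈ cls K y, wt q K' =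
      (1 - q) ^ K.card * (cls K y).card := by
    have : ∀ K' ∈ Finset.univ.filter (fun K' => K ⊆ K'), ∑ _b ∈ cls K y, wt q K' =
        (1 - q) ^ K.card * (cls K y).card * kw q K K' := by
      intro K' hK'
      rw [Finset.sum_const, nsmul_eq_mul, hwt K' (Finset.mem_filter.1 hK').2]
      ring
    rw [Finset.sum_congr rfl this, ← Finset.mul_sum]
    have h2 : ∑ K' ∈ Finset.univ.filter (fun K' => K ⊆ K'), kw q K K' = 1 := by
      rw [← kw_sum_one hq0 K, Finset.sum_filter]
      refine Finset.sum_congr rfl fun K' _ => ?_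
      split_ifs with h
      · rfl
      · rw [kw, if_neg h]
    rw [h2, mul_one]
  have hl : ∑ K' : Finset ι, (1 - q) ^ K.card * (θ ^ w * (kw q K K' *
      (((cls K y).filter fun b => w < (kn L K' b \ K').card).card : ℝ))) ≤
      ∑ K' ∈ Finset.univ.filter (fun K' => K ⊆ K'), ∑ b ∈ cls K y,
        wt q K' * θ ^ (kn L K' b \ K').card := by
    rw [Finset.sum_filter]
    refine Finset.sum_le_sum fun K' _ => ?_
    split_ifs with h
    · rw [hwt K' h]
      have h3 : (((cls K y).filter fun b => w < (kn L K' b \ K').card).card : ℝ) * θ ^ w ≤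
          ∑ b ∈ cls K y, θ ^ (kn L K' b \ K').card := by
        calc (((cls K y).filter fun b => w < (kn L K' b \ K').card).card : ℝ) * θ ^ w
            = ∑ b ∈ (cls K y).filter (fun b => w < (kn L K' b \ K').card), θ ^ w := by
              rw [Finset.sum_const, nsmul_eq_mul]
          _ ≤ ∑ b ∈ (cls K y).filter (fun b => w < (kn L K' b \ K').card),
                θ ^ (kn L K' b \ K').card := by
              refine Finset.sum_le_sum fun b hb => ?_
              exact pow_le_pow_right₀ hθ (Finset.mem_filter.1 hb).2.le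
          _ ≤ _ := by
              refine Finset.sum_le_sum_of_subset_of_nonneg (Finset.filter_subset _ _) ?_
              exact fun b _ _ => pow_nonneg hθ0.le _
      rw [← Finset.mul_sum]
      have hk : 0 ≤ (1 - q) ^ K.card * kw q K K' := mul_nonneg hc0.le (kw_nonneg hq0 hq1 _ _)
      calc _ = (1 - q) ^ K.card * kw q K K' *
            ((((cls K y).filter fun b => w < (kn L K' b \ K').card).card : ℝ) * θ ^ w) := by ring
        _ ≤ _ := mul_le_mul_of_nonneg_left h3 hk
    · rw [kw, if_neg h]
      simp
  rw [← Finset.mul_sum, ← Finset.mul_sum] at hl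
  have h4 := hl.trans key
  rw [hr] at h4
  have h5 : θ ^ w * ∑ K' : Finset ι, kw q K K' *
      (((cls K y).filter fun b => w < (kn L K' b \ K').card).card : ℝ) ≤ 2 * (cls K y).card := by
    have h6 : (1 - q) ^ K.card * (θ ^ w * ∑ K' : Finset ι, kw q K K' *
      (((cls K y).filter fun b => w < (kn L K' b \ K').card).card : ℝ)) ≤
      (1 - q) ^ K.card * (2 * (cls K y).card) := by linarith
    exact le_of_mul_le_mul_left h6 hc0
  rw [div_mul_eq_mul_div, le_div_iff₀ (pow_pos hθ0 _), mul_comm]
  exact h5

end PR16
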