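import Mathlib
import Pool.Agent.PR16.Def
import Pool.Agent.PR16.Ker

/-!
# The stages

A stage consists of a known set `K` with values `y`, a set `G` of good assignments (equal to `y` on
`K`), and sets `C τ i b` of variables which determine what processor `i` knows after `τ` steps.
-/

namespace PR16

variable {ι : Type} [DecidableEq ι] [Fintype ι] {p : ℕ} {S V : Type}

/-- A stage. -/
structure Stg (ι : Type) (p : ℕ) where
  K : Finset ι
  y : ι → Bool
  G : Finset (ι → Bool)
  C : ℕ → Fin p → (ι → Bool) → Finset ι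

/-- The stage `s` is valid at time `t` for the machine `M` and the memories `mm b`. -/
structure Stg.Ok (s : Stg ι p) (M : Prog p S V) (mm : (ι → Bool) → ℕ → V) (w t : ℕ) : Prop where
  sub : s.G ⊆ cls s.K s.y
  card : ∀ τ ≤ t, ∀ i, ∀ b ∈ s.G, (s.C τ i b).card ≤ w
  info : ∀ τ < t, ∀ i, ∀ b ∈ s.G, ∀ b' ∈ s.G, (∀ l ∈ s.C (τ + 1) i b, b' l = b l) →
    M.info (mm b') τ i = M.info (mm b) τ i

theorem Stg.Ok.st {s : Stg ι p} {M : Prog p S V} {mm : (ι → Bool) → ℕ → V} {w t : ℕ}
    (h : s.Ok M mm w t) {τ : ℕ} (hτ : τ ≤ t) (i : Fin p) {b b' : ι → Bool} (hb : b ∈ s.G)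
    (hb' : b' ∈ s.G) (e : ∀ l ∈ s.C τ i b, b' l = b l) :
    M.st (mm b') τ i = M.st (mm b) τ i := by
  cases τ with
  | zero => rfl
  | succ τ =>
    have := h.info τ (by omega) i b hb b' hb' e
    rw [Prog.st_of_info, Prog.st_of_info, this]

/-- The ordered list of terms for processor `i` in step `t`. -/
noncomputable def terms (M : Prog p S V) (mm : (ι → Bool) → ℕ → V) (loc : ℕ → Option ι)
    (s : Stg ι p) (t : ℕ) (i : Fin p) : List (Term ι (Option (ℕ × Fin p))) :=
  (kids p t).flatMap (fun κ => (s.G.toList.filter fun b =>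
      (M.wr (mm b) κ (M.addr i (M.st (mm b) t i))).isSome).map fun b =>
      (⟨s.C t i b ∪ s.C κ.1 κ.2 b, b, some κ⟩ : Term ι (Option (ℕ × Fin p)))) ++
    s.G.toList.map fun b =>
      (⟨s.C t i b ∪ (loc (M.addr i (M.st (mm b) t i))).toFinset, b, none⟩ :
        Term ι (Option (ℕ × Fin p)))

theorem terms_card {M : Prog p S V} {mm : (ι → Bool) → ℕ → V} {loc : ℕ → Option ι} {s : Stg ι p}
    {w t : ℕ} (h : s.Ok M mm w t) (hw : 1 ≤ w) (i : Fin p) :
    ∀ T ∈ terms M mm loc s t i, T.S.card ≤ 2 * w := by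
  intro T hT
  rw [terms, List.mem_append] at hT
  rcases hT with hT | hT
  · obtain ⟨κ, hκ, hT⟩ := List.mem_flatMap.1 hT
    obtain ⟨b, hb, rfl⟩ := List.mem_map.1 hT
    have hbG : b ∈ s.G := Finset.mem_toList.1 (List.mem_filter.1 hb).1
    have h1 := h.card t le_rfl i b hbG
    have h2 := h.card κ.1 (mem_kids.1 hκ).2 κ.2 b hbG
    exact (Finset.card_union_le _ _).trans (by omega)
  · obtain ⟨b, hb, rfl⟩ := List.mem_map.1 hT
    have h1 := h.card t le_rfl i b (Finset.mem_toList.1 hb)
    have h2 : ((loc (M.addr i (M.st (mm b) t i))).toFinset).card ≤ 1 := by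
      cases loc (M.addr i (M.st (mm b) t i)) <;> simp
    exact (Finset.card_union_le _ _).trans (by omega)

theorem findSome_eq {α β : Type} (L : List α) (g : α → Option β) :
    L.findSome? g = (L.find? fun x => (g x).isSome).bind g := by
  induction L with
  | nil => rfl
  | cons x L ih =>
    rw [List.findSome?_cons, List.find?_cons]
    cases h : g x with
    | none => simpa using ih
    | some v => simp [h]

theorem find_congr {α : Type} (L : List α) (q q' : α → Bool) (h : ∀ x ∈ L, q x = q' x) :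
    L.find? q = L.find? q' := by
  induction L with
  | nil => rfl
  | cons x L ih =>
    rw [List.find?_cons, List.find?_cons, h x List.mem_cons_self,
      ih fun y hy => h y (List.mem_cons_of_mem _ hy)]

/-- The first satisfied term. -/
theorem first_term {M : Prog p S V} {mm : (ι → Bool) → ℕ → V} {loc : ℕ → Option ι} {s : Stg ι p}
    {w t : ℕ} (h : s.Ok M mm w t) (i : Fin p) {b : ι → Bool} (hb : b ∈ s.G) :
    ∃ T, (terms M mm loc s t i).find? (sat b) = some T ∧ sat b T = true ∧ T.a ∈ s.G ∧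
      T.lab = M.src (mm b) t (M.addr i (M.st (mm b) t i)) ∧ s.C t i T.a ⊆ T.S ∧
      (∀ κ, T.lab = some κ → s.C κ.1 κ.2 T.a ⊆ T.S) ∧
      (T.lab = none → (loc (M.addr i (M.st (mm T.a) t i))).toFinset ⊆ T.S) := by
  set c := M.addr i (M.st (mm b) t i) with hc
  set f : ℕ × Fin p → List (Term ι (Option (ℕ × Fin p))) := fun κ => (s.G.toList.filter fun b =>
      (M.wr (mm b) κ (M.addr i (M.st (mm b) t i))).isSome).map fun b =>
      (⟨s.C t i b ∪ s.C κ.1 κ.2 b, b, some κ⟩ : Term ι (Option (ℕ × Fin p))) with hf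
  set g : ℕ × Fin p → Option (Term ι (Option (ℕ × Fin p))) := fun κ => (f κ).find? (sat b) with hg
  -- when a term with label `κ` is satisfied
  have h1 : ∀ κ ∈ kids p t, ((g κ).isSome = (M.wr (mm b) κ c).isSome) := by
    intro κ hκ
    have hκt := (mem_kids.1 hκ).2
    rw [Bool.eq_iff_iff]
    constructor
    · intro hs
      obtain ⟨T, hT⟩ := Option.isSome_iff_exists.1 hs
      have hT1 : T ∈ f κ := List.mem_of_find?_eq_some hT
      have hT2 : sat b T = true := List.find?_some hT
      obtain ⟨b0, hb0, rfl⟩ := List.mem_map.1 hT1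
      rw [List.mem_filter] at hb0
      have hb0G : b0 ∈ s.G := Finset.mem_toList.1 hb0.1
      rw [sat_iff] at hT2
      have e1 : M.st (mm b) t i = M.st (mm b0) t i :=
        h.st le_rfl i hb0G hb fun l hl => hT2 l (Finset.mem_union_left _ hl)
      have e2 : M.st (mm b) κ.1 κ.2 = M.st (mm b0) κ.1 κ.2 :=
        h.st hκt κ.2 hb0G hb fun l hl => hT2 l (Finset.mem_union_right _ hl)
      have h3 := hb0.2
      unfold Prog.wr at h3 ⊢
      rw [← e1, ← e2] at h3
      exact h3
    · intro hs
      rw [List.find?_isSome]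
      refine ⟨⟨s.C t i b ∪ s.C κ.1 κ.2 b, b, some κ⟩, List.mem_map.2 ⟨b, ?_, rfl⟩, ?_⟩
      · rw [List.mem_filter]
        exact ⟨Finset.mem_toList.2 hb, hs⟩
      · rw [sat_iff]; intro l _; rfl
  have h2 : (kids p t).find? (fun κ => (g κ).isSome) = M.src (mm b) t c := find_congr _ _ _ h1
  have h3 : (terms M mm loc s t i).find? (sat b) =
      ((M.src (mm b) t c).bind g).or ((s.G.toList.map fun b =>
      (⟨s.C t i b ∪ (loc (M.addr i (M.st (mm b) t i))).toFinset, b, none⟩ :
        Term ι (Option (ℕ × Fin p)))).find? (sat b)) := by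
    rw [terms, List.find?_append, List.find?_flatMap, ← h2, ← findSome_eq]
  rcases ho : M.src (mm b) t c with _ | κ
  · -- default term
    have h4 : ((s.G.toList.map fun b =>
      (⟨s.C t i b ∪ (loc (M.addr i (M.st (mm b) t i))).toFinset, b, none⟩ :
        Term ι (Option (ℕ × Fin p)))).find? (sat b)).isSome := by
      rw [List.find?_isSome]
      refine ⟨⟨s.C t i b ∪ (loc (M.addr i (M.st (mm b) t i))).toFinset, b, none⟩,
        List.mem_map.2 ⟨b, Finset.mem_toList.2 hb, rfl⟩, ?_⟩
      rw [sat_iff]; intro l _; rfl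
    obtain ⟨T, hT⟩ := Option.isSome_iff_exists.1 h4
    have hT1 := List.mem_of_find?_eq_some hT
    have hT2 : sat b T = true := List.find?_some hT
    refine ⟨T, ?_, hT2, ?_⟩
    · rw [h3, ho, hT]; rfl
    · obtain ⟨b0, hb0, rfl⟩ := List.mem_map.1 hT1
      refine ⟨Finset.mem_toList.1 hb0, rfl, Finset.subset_union_left, ?_, ?_⟩
      · intro κ hκ; simp at hκ
      · intro _; exact Finset.subset_union_right
  · have hκ : κ ∈ kids p t := List.mem_of_find?_eq_some ho
    have hw : (M.wr (mm b) κ c).isSome = true := by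
      have := Prog.mem_of_src_some ho
      rw [this]; rfl
    rw [← h1 κ hκ] at hw
    obtain ⟨T, hT⟩ := Option.isSome_iff_exists.1 hw
    have hT1 : T ∈ f κ := List.mem_of_find?_eq_some hT
    have hT2 : sat b T = true := List.find?_some hT
    refine ⟨T, ?_, hT2, ?_⟩
    · rw [h3, ho, Option.bind_some, hT]; rfl
    · obtain ⟨b0, hb0, rfl⟩ := List.mem_map.1 hT1
      refine ⟨Finset.mem_toList.1 (List.mem_filter.1 hb0).1, rfl, Finset.subset_union_left, ?_, ?_⟩
      · intro κ' hκ'
        simp only [Option.some.injEq] at hκ'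
        subst hκ'
        exact Finset.subset_union_right
      · intro hn; simp at hn

/-- Assignments with the same first satisfied term give the same information. -/
theorem info_of_find {M : Prog p S V} {mm : (ι → Bool) → ℕ → V} {loc : ℕ → Option ι}
    (hloc : ∀ c b b', (∀ l ∈ loc c, b l = b' l) → mm b c = mm b' c) {s : Stg ι p}
    {w t : ℕ} (h : s.Ok M mm w t) (i : Fin p) {b b' : ι → Bool} (hb : b ∈ s.G) (hb' : b' ∈ s.G)
    (e : (terms M mm loc s t i).find? (sat b') = (terms M mm loc s t i).find? (sat b)) :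
    M.info (mm b') t i = M.info (mm b) t i := by
  obtain ⟨T, f1, f2, f3, f4, f5, f6, f7⟩ := first_term (loc := loc) h i hb
  obtain ⟨T', g1, g2, g3, g4, g5, g6, g7⟩ := first_term (loc := loc) h i hb'
  have hTT : T' = T := by
    rw [e, f1] at g1
    exact (Option.some.inj g1).symm
  subst hTT
  rw [sat_iff] at f2 g2
  have e1 : M.st (mm b) t i = M.st (mm T'.a) t i :=
    h.st le_rfl i f3 hb fun l hl => f2 l (f5 hl)
  have e1' : M.st (mm b') t i = M.st (mm T'.a) t i :=
    h.st le_rfl i f3 hb' fun l hl => g2 l (f5 hl)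
  have ec : M.addr i (M.st (mm b') t i) = M.addr i (M.st (mm b) t i) := by rw [e1, e1']
  have es : M.src (mm b') t (M.addr i (M.st (mm b') t i)) =
      M.src (mm b) t (M.addr i (M.st (mm b) t i)) := by rw [← f4, ← g4]
  have em : M.mem (mm b') t (M.addr i (M.st (mm b') t i)) =
      M.mem (mm b) t (M.addr i (M.st (mm b) t i)) := by
    rcases ho : M.src (mm b) t (M.addr i (M.st (mm b) t i)) with _ | κ
    · rw [Prog.mem_of_src_none ho, Prog.mem_of_src_none (es.trans ho), ec]
      refine hloc _ _ _ fun l hl => ?_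
      have h7 := f7 (f4.trans ho)
      rw [← e1] at h7
      have hl' : l ∈ T'.S := h7 (Option.mem_toFinset.2 hl)
      rw [f2 l hl', g2 l hl']
    · have k1 := Prog.mem_of_src_some ho
      have k2 := Prog.mem_of_src_some (es.trans ho)
      have hκ : κ.1 ≤ t := (mem_kids.1 (List.mem_of_find?_eq_some ho)).2
      have h6 := f6 κ (f4.trans ho)
      have e2 : M.st (mm b) κ.1 κ.2 = M.st (mm T'.a) κ.1 κ.2 :=
        h.st hκ κ.2 f3 hb fun l hl => f2 l (h6 hl)
      have e2' : M.st (mm b') κ.1 κ.2 = M.st (mm T'.a) κ.1 κ.2 :=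
        h.st hκ κ.2 f3 hb' fun l hl => g2 l (h6 hl)
      unfold Prog.wr at k1 k2
      rw [e2', ec, ← e2, k1] at k2
      rw [ec]
      exact (Option.some.inj k2).symm
  unfold Prog.info
  exact Prod.ext (e1'.trans e1.symm) (Prod.ext es em)

/-- The next stage. -/
noncomputable def Stg.nxt (s : Stg ι p) (M : Prog p S V) (mm : (ι → Bool) → ℕ → V)
    (loc : ℕ → Option ι) (w t : ℕ) (K' : Finset ι) (b0 : ι → Bool) : Stg ι p where
  K := K'
  y := b0
  G := s.G.filter fun b => (∀ l ∈ K', b l = b0 l) ∧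
    ∀ i : Fin p, (kn (terms M mm loc s t i) K' b \ K').card ≤ w
  C := fun τ i b => if τ = t + 1 then kn (terms M mm loc s t i) K' b \ K' else s.C τ i b

theorem Stg.Ok.nxt {M : Prog p S V} {mm : (ι → Bool) → ℕ → V} {loc : ℕ → Option ι}
    (hloc : ∀ c b b', (∀ l ∈ loc c, b l = b' l) → mm b c = mm b' c) {s : Stg ι p}
    {w t : ℕ} (h : s.Ok M mm w t) (K' : Finset ι) (b0 : ι → Bool) :
    (s.nxt M mm loc w t K' b0).Ok M mm w (t + 1) where
  sub := by
    intro b hb
    rw [mem_cls]
    exact (Finset.mem_filter.1 hb).2.1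
  card := by
    intro τ hτ i b hb
    have hb1 := Finset.mem_filter.1 hb
    show (if τ = t + 1 then kn (terms M mm loc s t i) K' b \ K' else s.C τ i b).card ≤ w
    split_ifs with h1
    · exact hb1.2.2 i
    · exact h.card τ (by omega) i b hb1.1
  info := by
    intro τ hτ i b hb b' hb' e
    have hb1 := Finset.mem_filter.1 hb
    have hb1' := Finset.mem_filter.1 hb'
    change ∀ l ∈ (if τ + 1 = t + 1 then kn (terms M mm loc s t i) K' b \ K' else s.C (τ + 1) i b),
      b' l = b l at e
    split_ifs at e with h1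
    · have h2 : τ = t := by omega
      subst h2
      refine info_of_find hloc h i hb1.1 hb1'.1 ?_
      refine find_agree _ K' b b' fun l hl => ?_
      by_cases hk : l ∈ K'
      · rw [hb1.2.1 l hk, hb1'.2.1 l hk]
      · exact e l (Finset.mem_sdiff.2 ⟨hl, hk⟩)
    · exact h.info τ (by omega) i b hb1.1 b' hb1'.1 e

/-- The first stage. -/
def stg0 : Stg ι p where
  K := ∅
  y := fun _ => false
  G := Finset.univ
  C := fun _ _ _ => ∅

theorem stg0_ok (M : Prog p S V) (mm : (ι → Bool) → ℕ → V) (w : ℕ) :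
    (stg0 : Stg ι p).Ok M mm w 0 where
  sub := by
    intro b _
    rw [mem_cls]
    intro i hi
    exact absurd hi (Finset.notMem_empty _)
  card := by
    intro τ _ i b _
    show (∅ : Finset ι).card ≤ w
    simp
  info := by
    intro τ hτ
    omega

end PR16
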