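import Mathlib
import Pool.Agent.PR16.Stage

/-!
# Backward induction over the stages
-/

namespace PR16

variable {ι : Type} [DecidableEq ι] [Fintype ι] {p : ℕ} {S V : Type}

theorem cls_card (K : Finset ι) (y : ι → Bool) : (cls K y).card = 2 ^ (Kᶜ).card := by
  rw [← Finset.card_powerset]
  refine Finset.card_bij (fun b _ => (Kᶜ).filter fun i => b i = true) ?_ ?_ ?_
  · intro b _
    exact Finset.mem_powerset.2 (Finset.filter_subset _ _)
  · intro b hb b' hb' h
    rw [mem_cls] at hb hb'
    funext i
    by_cases hi : i ∈ K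
    · rw [hb i hi, hb' i hi]
    · have h3 : (i ∈ (Kᶜ).filter fun i => b i = true) ↔ (i ∈ (Kᶜ).filter fun i => b' i = true) := by
        rw [h]
      simp only [Finset.mem_filter, Finset.mem_compl, hi, not_false_eq_true, true_and] at h3
      rcases h4 : b i with _ | _ <;> rcases h5 : b' i with _ | _ <;> simp_all
  · intro Z hZ
    rw [Finset.mem_powerset] at hZ
    refine ⟨fun i => if i ∈ K then y i else decide (i ∈ Z), ?_, ?_⟩
    · rw [mem_cls]
      intro i hi
      rw [if_pos hi]
    · ext i
      rw [Finset.mem_filter, Finset.mem_compl]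
      constructor
      · rintro ⟨h1, h2⟩
        change (if i ∈ K then y i else decide (i ∈ Z)) = true at h2
        rw [if_neg h1] at h2
        exact of_decide_eq_true h2
      · intro h
        have h1 : i ∉ K := Finset.mem_compl.1 (hZ h)
        refine ⟨h1, ?_⟩
        show (if i ∈ K then y i else decide (i ∈ Z)) = true
        rw [if_neg h1]
        exact decide_eq_true h

/-- Double counting over the classes of a refinement. -/
theorem sum_cls {K K' : Finset ι} (hK : K ⊆ K') (y : ι → Bool) (f : (ι → Bool) → ℝ) :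
    ∑ b0 ∈ cls K y, ∑ b ∈ cls K' b0, f b = 2 ^ (K'ᶜ).card * ∑ b ∈ cls K y, f b := by
  have h1 : ∑ b0 ∈ cls K y, ∑ b ∈ cls K' b0, f b =
      ∑ b ∈ cls K y, ∑ b0 ∈ cls K' b, f b := by
    refine Finset.sum_comm' ?_
    intro b0 b
    rw [mem_cls, mem_cls, mem_cls, mem_cls]
    constructor
    · rintro ⟨h1, h2⟩
      exact ⟨fun i hi => (h2 i hi).symm, fun i hi => by rw [h2 i (hK hi), h1 i hi]⟩
    · rintro ⟨h1, h2⟩
      exact ⟨fun i hi => by rw [h1 i (hK hi), h2 i hi], fun i hi => (h1 i hi).symm⟩
  rw [h1, Finset.mul_sum]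
  refine Finset.sum_congr rfl fun b _ => ?_
  rw [Finset.sum_const, cls_card, nsmul_eq_mul]
  push_cast
  ring

theorem iter (M : Prog p S V) (mm : (ι → Bool) → ℕ → V) (loc : ℕ → Option ι)
    (hloc : ∀ c b b', (∀ l ∈ loc c, b l = b' l) → mm b c = mm b' c)
    {q θ : ℝ} (hq0 : 0 < q) (hq1 : q < 1) (hθ : 1 ≤ θ) {w : ℕ} (hw : 1 ≤ w)
    (hW : (1 + 2 * (θ * q / (1 - q))) ^ (2 * w) ≤ 3 / 2)
    {X : Type} [Fintype X] (supp : X → Finset ι) (d : ℕ) (hd : ∀ x, (supp x).card = d)
    (Ev : X → (ι → Bool) → Prop) [∀ x, DecidablePred (Ev x)] (T : ℕ) (a B : ℝ)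
    (hB : 0 ≤ B)
    (base : ∀ s : Stg ι p, s.Ok M mm w T →
      ∑ x ∈ Finset.univ.filter (fun x => Disjoint s.K (supp x)),
        ((((cls s.K s.y).filter (Ev x)).card : ℕ) : ℝ) ≤
      a * (cls s.K s.y).card + B * (cls s.K s.y \ s.G).card) :
    ∀ r t : ℕ, t + r = T → ∀ s : Stg ι p, s.Ok M mm w t →
      ∑ x ∈ Finset.univ.filter (fun x => Disjoint s.K (supp x)),
        ((((cls s.K s.y).filter (Ev x)).card : ℕ) : ℝ) ≤
      (1 / q) ^ (d * r) * (a * (cls s.K s.y).card +
        B * ((cls s.K s.y \ s.G).card + r * (p * (2 / θ ^ w)) * (cls s.K s.y).card)) := by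
  intro r
  induction r with
  | zero =>
    intro t ht s hs
    have : t = T := by omega
    subst this
    have := base s hs
    simpa using this
  | succ r ih =>
    intro t ht s hs
    have hθ0 : 0 < θ := by linarith
    set N : X → ℝ := fun x => ((((cls s.K s.y).filter (Ev x)).card : ℕ) : ℝ) with hN
    set Cc : ℝ := ((cls s.K s.y).card : ℝ) with hCc
    set bad : Finset ι → (ι → Bool) → Prop := fun K' b => b ∉ s.G ∨
      ∃ i : Fin p, w < (kn (terms M mm loc s t i) K' b \ K').card with hbad
    classical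
    -- expansion over the refinements
    have e1 : q ^ d * ∑ x ∈ Finset.univ.filter (fun x => Disjoint s.K (supp x)), N x =
        ∑ K' : Finset ι, kw q s.K K' * ∑ x ∈ Finset.univ.filter (fun x => Disjoint K' (supp x)), N x := by
      rw [Finset.mul_sum]
      have h1 : ∀ x ∈ Finset.univ.filter (fun x => Disjoint s.K (supp x)), q ^ d * N x =
          ∑ K' : Finset ι, (if Disjoint K' (supp x) then kw q s.K K' else 0) * N x := by
        intro x hx
        rw [← Finset.sum_mul, kw_sum hq0 s.K (supp x) (Finset.mem_filter.1 hx).2, hd]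
      rw [Finset.sum_congr rfl h1, Finset.sum_comm]
      refine Finset.sum_congr rfl fun K' _ => ?_
      rw [Finset.mul_sum]
      by_cases hK : s.K ⊆ K'
      · rw [Finset.sum_filter, Finset.sum_filter]
        refine Finset.sum_congr rfl fun x _ => ?_
        by_cases h2 : Disjoint K' (supp x)
        · rw [if_pos h2, if_pos h2, if_pos (Finset.disjoint_of_subset_left hK h2)]
        · rw [if_neg h2, if_neg h2]
          split_ifs <;> simp
      · have h0 : kw q s.K K' = 0 := by rw [kw, if_neg hK]
        rw [h0]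
        simp
    -- the bound for one refinement
    have e2 : ∀ K' : Finset ι, s.K ⊆ K' →
        ∑ x ∈ Finset.univ.filter (fun x => Disjoint K' (supp x)), N x ≤
        (1 / q) ^ (d * r) * (a * Cc + B * ((((cls s.K s.y).filter (bad K')).card : ℝ) +
          r * (p * (2 / θ ^ w)) * Cc)) := by
      intro K' hK
      have hc' : (0 : ℝ) < 2 ^ (K'ᶜ).card := by positivity
      refine le_of_mul_le_mul_left ?_ hc'
      have f1 : 2 ^ (K'ᶜ).card * ∑ x ∈ Finset.univ.filter (fun x => Disjoint K' (supp x)), N x =
          ∑ b0 ∈ cls s.K s.y, ∑ x ∈ Finset.univ.filter (fun x => Disjoint K' (supp x)),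
            ((((cls K' b0).filter (Ev x)).card : ℕ) : ℝ) := by
        rw [Finset.mul_sum, Finset.sum_comm]
        refine Finset.sum_congr rfl fun x _ => ?_
        have := sum_cls hK s.y (fun b => if Ev x b then (1 : ℝ) else 0)
        rw [hN]
        simp only [Finset.card_filter, Nat.cast_sum, Nat.cast_ite, Nat.cast_one, Nat.cast_zero]
        exact this.symm
      rw [f1]
      have f2 : ∀ b0 ∈ cls s.K s.y, ∑ x ∈ Finset.univ.filter (fun x => Disjoint K' (supp x)),
            ((((cls K' b0).filter (Ev x)).card : ℕ) : ℝ) ≤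
          (1 / q) ^ (d * r) * (a * 2 ^ (K'ᶜ).card + B * ((∑ b ∈ cls K' b0,
            if bad K' b then (1 : ℝ) else 0) + r * (p * (2 / θ ^ w)) * 2 ^ (K'ᶜ).card)) := by
        intro b0 hb0
        have := ih (t + 1) (by omega) (s.nxt M mm loc w t K' b0) (hs.nxt hloc K' b0)
        change ∑ x ∈ Finset.univ.filter (fun x => Disjoint K' (supp x)),
            ((((cls K' b0).filter (Ev x)).card : ℕ) : ℝ) ≤ _ at this
        refine this.trans (le_of_eq ?_)
        have hcc : ((cls (s.nxt M mm loc w t K' b0).K (s.nxt M mm loc w t K' b0).y).card : ℝ) =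
            2 ^ (K'ᶜ).card := by
          show ((cls K' b0).card : ℝ) = _
          rw [cls_card]; push_cast; ring
        have hgg : ((cls (s.nxt M mm loc w t K' b0).K (s.nxt M mm loc w t K' b0).y \
            (s.nxt M mm loc w t K' b0).G).card : ℝ) =
            ∑ b ∈ cls K' b0, if bad K' b then (1 : ℝ) else 0 := by
          rw [← Finset.sum_filter, Finset.sum_const, nsmul_eq_mul, mul_one]
          congr 2
          ext b
          show b ∈ cls K' b0 \ (s.G.filter fun b => (∀ l ∈ K', b l = b0 l) ∧
            ∀ i : Fin p, (kn (terms M mm loc s t i) K' b \ K').card ≤ w) ↔ _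
          rw [Finset.mem_sdiff, Finset.mem_filter, Finset.mem_filter, mem_cls]
          constructor
          · rintro ⟨h1, h2⟩
            refine ⟨h1, ?_⟩
            by_contra h3
            rw [hbad] at h3
            push Not at h3
            exact h2 ⟨h3.1, h1, h3.2⟩
          · rintro ⟨h1, h2⟩
            refine ⟨h1, ?_⟩
            rintro ⟨h3, -, h4⟩
            rcases h2 with h2 | ⟨i, h2⟩
            · exact h2 h3
            · exact absurd (h4 i) (not_le.2 h2)
        rw [hcc, hgg]
      refine (Finset.sum_le_sum f2).trans (le_of_eq ?_)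
      have f3 := sum_cls hK s.y (fun b => if bad K' b then (1 : ℝ) else 0)
      have f4 : ∑ b ∈ cls s.K s.y, (if bad K' b then (1 : ℝ) else 0) =
          (((cls s.K s.y).filter (bad K')).card : ℝ) := by
        rw [← Finset.sum_filter, Finset.sum_const, nsmul_eq_mul, mul_one]
      rw [← Finset.mul_sum, Finset.sum_add_distrib, Finset.sum_const, nsmul_eq_mul,
        ← Finset.mul_sum, Finset.sum_add_distrib, f3, Finset.sum_const, nsmul_eq_mul, f4]
      ring
    -- the bad assignments
    have e3 : ∑ K' : Finset ι, kw q s.K K' * (((cls s.K s.y).filter (bad K')).card : ℝ) ≤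
        ((cls s.K s.y \ s.G).card : ℝ) + p * (2 / θ ^ w) * Cc := by
      have g1 : ∀ K' : Finset ι, (((cls s.K s.y).filter (bad K')).card : ℝ) ≤
          ((cls s.K s.y \ s.G).card : ℝ) + ∑ i : Fin p,
            (((cls s.K s.y).filter fun b => w < (kn (terms M mm loc s t i) K' b \ K').card).card : ℝ) := by
        intro K'
        have h1 : (cls s.K s.y).filter (bad K') ⊆ (cls s.K s.y \ s.G) ∪
            Finset.univ.biUnion fun i : Fin p =>
              (cls s.K s.y).filter fun b => w < (kn (terms M mm loc s t i) K' b \ K').card := by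
          intro b hb
          rw [Finset.mem_filter] at hb
          rw [Finset.mem_union, Finset.mem_sdiff, Finset.mem_biUnion]
          rcases hb.2 with h2 | ⟨i, h2⟩
          · exact Or.inl ⟨hb.1, h2⟩
          · exact Or.inr ⟨i, Finset.mem_univ _, Finset.mem_filter.2 ⟨hb.1, h2⟩⟩
        have h2 := (Finset.card_le_card h1).trans (Finset.card_union_le _ _)
        have h3 := h2.trans (Nat.add_le_add_left Finset.card_biUnion_le _)
        exact_mod_cast h3
      calc ∑ K' : Finset ι, kw q s.K K' * (((cls s.K s.y).filter (bad K')).card : ℝ)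
          ≤ ∑ K' : Finset ι, kw q s.K K' * (((cls s.K s.y \ s.G).card : ℝ) + ∑ i : Fin p,
            (((cls s.K s.y).filter fun b =>
              w < (kn (terms M mm loc s t i) K' b \ K').card).card : ℝ)) :=
            Finset.sum_le_sum fun K' _ =>
              mul_le_mul_of_nonneg_left (g1 K') (kw_nonneg hq0 hq1 _ _)
        _ = ((cls s.K s.y \ s.G).card : ℝ) + ∑ i : Fin p, ∑ K' : Finset ι, kw q s.K K' *
            (((cls s.K s.y).filter fun b =>
              w < (kn (terms M mm loc s t i) K' b \ K').card).card : ℝ) := by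
            rw [Finset.sum_comm]
            simp only [mul_add, Finset.sum_add_distrib, Finset.mul_sum]
            rw [← Finset.sum_mul, kw_sum_one hq0, one_mul]
        _ ≤ ((cls s.K s.y \ s.G).card : ℝ) + ∑ _i : Fin p, 2 / θ ^ w * Cc := by
            gcongr with i _
            exact switch_kw hq0 hq1 hθ hW _ (terms_card hs hw i) _ _ _
        _ = _ := by
            rw [Finset.sum_const, Finset.card_univ, Fintype.card_fin, nsmul_eq_mul]
            ring
    -- conclusion
    have e4 : q ^ d * ∑ x ∈ Finset.univ.filter (fun x => Disjoint s.K (supp x)), N x ≤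
        (1 / q) ^ (d * r) * (a * Cc + B * (((cls s.K s.y \ s.G).card : ℝ) +
          (r + 1) * (p * (2 / θ ^ w)) * Cc)) := by
      rw [e1]
      have hqr : 0 ≤ (1 / q) ^ (d * r) := by positivity
      calc ∑ K' : Finset ι, kw q s.K K' *
            ∑ x ∈ Finset.univ.filter (fun x => Disjoint K' (supp x)), N x
          ≤ ∑ K' : Finset ι, kw q s.K K' * ((1 / q) ^ (d * r) * (a * Cc +
            B * ((((cls s.K s.y).filter (bad K')).card : ℝ) + r * (p * (2 / θ ^ w)) * Cc))) := by
            refine Finset.sum_le_sum fun K' _ => ?_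
            by_cases hK : s.K ⊆ K'
            · exact mul_le_mul_of_nonneg_left (e2 K' hK) (kw_nonneg hq0 hq1 _ _)
            · rw [kw, if_neg hK]; simp
        _ = (1 / q) ^ (d * r) * ((a * Cc + B * (r * (p * (2 / θ ^ w)) * Cc)) *
              ∑ K' : Finset ι, kw q s.K K' + B * ∑ K' : Finset ι, kw q s.K K' *
              (((cls s.K s.y).filter (bad K')).card : ℝ)) := by
            rw [Finset.mul_sum, Finset.mul_sum, ← Finset.sum_add_distrib, Finset.mul_sum]
            refine Finset.sum_congr rfl fun K' _ => ?_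
            ring
        _ ≤ (1 / q) ^ (d * r) * ((a * Cc + B * (r * (p * (2 / θ ^ w)) * Cc)) * 1 +
              B * (((cls s.K s.y \ s.G).card : ℝ) + p * (2 / θ ^ w) * Cc)) := by
            rw [kw_sum_one hq0]
            gcongr
        _ = _ := by ring
    have hqd : 0 < q ^ d := pow_pos hq0 _
    have e5 : (1 / q) ^ (d * (r + 1)) * q ^ d = (1 / q) ^ (d * r) := by
      rw [mul_add, mul_one, pow_add, mul_assoc, ← mul_pow, one_div, inv_mul_cancel₀ hq0.ne',
        one_pow, mul_one]
    refine le_of_mul_le_mul_left (e4.trans (le_of_eq ?_)) hqd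
    rw [← e5]
    push_cast
    ring

end PR16
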