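import Mathlib
import Pool.Agent.PR16.Iter

/-!
# Sensitive directions of a machine with Boolean inputs
-/

namespace PR16

variable {ι : Type} [DecidableEq ι] [Fintype ι] {p : ℕ} {S V : Type}

/-- Flip one variable. -/
def fl (b : ι → Bool) (l : ι) : ι → Bool := Function.update b l (!b l)

theorem fl_fl (b : ι → Bool) (l : ι) : fl (fl b l) l = b := by
  unfold fl
  simp

theorem fl_ne {b : ι → Bool} {l k : ι} (h : k ≠ l) : fl b l k = b k := by
  unfold fl
  rw [Function.update_of_ne h]

theorem fl_mem_cls {K : Finset ι} {y b : ι → Bool} {l : ι} (hl : l ∉ K) (hb : b ∈ cls K y) :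
    fl b l ∈ cls K y := by
  rw [mem_cls] at hb ⊢
  intro i hi
  have hne : i ≠ l := fun h => hl (h ▸ hi)
  rw [fl_ne hne]
  exact hb i hi

theorem card_fl (K : Finset ι) (y : ι → Bool) (l : ι) (hl : l ∉ K) (G : Finset (ι → Bool)) :
    ((cls K y).filter fun b => fl b l ∉ G).card = (cls K y \ G).card := by
  refine Finset.card_bij (fun b _ => fl b l) ?_ ?_ ?_
  · intro b hb
    rw [Finset.mem_filter] at hb
    exact Finset.mem_sdiff.2 ⟨fl_mem_cls hl hb.1, hb.2⟩
  · intro b _ b' _ h
    rw [← fl_fl b l, h, fl_fl]
  · intro b hb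
    rw [Finset.mem_sdiff] at hb
    exact ⟨fl b l, Finset.mem_filter.2 ⟨fl_mem_cls hl hb.1, by rw [fl_fl]; exact hb.2⟩, fl_fl b l⟩

/-- Both directions are sensitive for some processor in some step. -/
def H2 (M : Prog p S V) (mm : (ι → Bool) → ℕ → V) (T : ℕ) (l1 l2 : ι) (b : ι → Bool) : Prop :=
  ∃ t < T, ∃ i : Fin p, M.info (mm b) t i ≠ M.info (mm (fl b l1)) t i ∧
    M.info (mm b) t i ≠ M.info (mm (fl b l2)) t i

/-- The state of the processor `i` after `T` steps is sensitive. -/
def H1 (M : Prog p S V) (mm : (ι → Bool) → ℕ → V) (T : ℕ) (i : Fin p) (l : ι) (b : ι → Bool) :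
    Prop :=
  M.st (mm b) T i ≠ M.st (mm (fl b l)) T i

open Classical in
theorem pairs_le (M : Prog p S V) (mm : (ι → Bool) → ℕ → V) (loc : ℕ → Option ι)
    (hloc : ∀ c b b', (∀ l ∈ loc c, b l = b' l) → mm b c = mm b' c)
    {q θ : ℝ} (hq0 : 0 < q) (hq1 : q < 1) (hθ : 1 ≤ θ) {w : ℕ} (hw : 1 ≤ w)
    (hW : (1 + 2 * (θ * q / (1 - q))) ^ (2 * w) ≤ 3 / 2) (T : ℕ) :
    ∑ x : {x : ι × ι // x.1 ≠ x.2},
      (((Finset.univ.filter fun b => H2 M mm T x.1.1 x.1.2 b).card : ℕ) : ℝ) ≤
      (1 / q) ^ (2 * T) * (T * p * w ^ 2 + 3 * (Fintype.card ι) ^ 2 * (T * (p * (2 / θ ^ w)))) *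
        2 ^ Fintype.card ι := by
  have key := iter M mm loc hloc hq0 hq1 hθ hw hW
    (X := {x : ι × ι // x.1 ≠ x.2}) (fun x => {x.1.1, x.1.2}) 2
    (fun x => Finset.card_pair x.2) (fun x b => H2 M mm T x.1.1 x.1.2 b) T
    (T * p * w ^ 2) (3 * (Fintype.card ι) ^ 2) (by positivity) ?_ T 0 (by omega) stg0
    (stg0_ok M mm w)
  · have h1 : (cls (stg0 : Stg ι p).K (stg0 : Stg ι p).y) = Finset.univ := by
      ext b
      simp [mem_cls, stg0]
    have h2 : ((cls (stg0 : Stg ι p).K (stg0 : Stg ι p).y) \ (stg0 : Stg ι p).G) = ∅ := by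
      rw [h1]; simp [stg0]
    rw [h2, h1] at key
    have h3 : (Finset.univ.filter fun x : {x : ι × ι // x.1 ≠ x.2} =>
        Disjoint (stg0 : Stg ι p).K ({x.1.1, x.1.2} : Finset ι)) = Finset.univ := by
      rw [Finset.filter_eq_self]
      intro x _
      exact Finset.disjoint_empty_left _
    rw [h3] at key
    refine key.trans (le_of_eq ?_)
    rw [Finset.card_empty, Finset.card_univ, Fintype.card_fun, Fintype.card_bool]
    push_cast
    ring
  · intro s hs
    -- one pair
    have h1 : ∀ x ∈ Finset.univ.filter (fun x : {x : ι × ι // x.1 ≠ x.2} =>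
        Disjoint s.K ({x.1.1, x.1.2} : Finset ι)),
        ((((cls s.K s.y).filter fun b => H2 M mm T x.1.1 x.1.2 b).card : ℕ) : ℝ) ≤
        3 * (cls s.K s.y \ s.G).card + ∑ t ∈ Finset.range T, ∑ i : Fin p,
          (((s.G.filter fun b => x.1.1 ∈ s.C (t + 1) i b ∧ x.1.2 ∈ s.C (t + 1) i b).card : ℕ) : ℝ) := by
      intro x hx
      rw [Finset.mem_filter] at hx
      have hd := hx.2
      have hl1 : x.1.1 ∉ s.K := fun h => Finset.disjoint_left.1 hd h (by simp)
      have hl2 : x.1.2 ∉ s.K := fun h => Finset.disjoint_left.1 hd h (by simp)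
      have hsub : ((cls s.K s.y).filter fun b => H2 M mm T x.1.1 x.1.2 b) ⊆
          (((cls s.K s.y \ s.G) ∪ ((cls s.K s.y).filter fun b => fl b x.1.1 ∉ s.G)) ∪
          ((cls s.K s.y).filter fun b => fl b x.1.2 ∉ s.G)) ∪
          (Finset.range T).biUnion fun t => Finset.univ.biUnion fun i : Fin p =>
            s.G.filter fun b => x.1.1 ∈ s.C (t + 1) i b ∧ x.1.2 ∈ s.C (t + 1) i b := by
        intro b hb
        rw [Finset.mem_filter] at hb
        obtain ⟨hb1, t, ht, i, hi1, hi2⟩ := hb
        by_cases hg : b ∈ s.G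
        · by_cases hg1 : fl b x.1.1 ∈ s.G
          · by_cases hg2 : fl b x.1.2 ∈ s.G
            · refine Finset.mem_union_right _ (Finset.mem_biUnion.2 ⟨t, Finset.mem_range.2 ht,
                Finset.mem_biUnion.2 ⟨i, Finset.mem_univ _, Finset.mem_filter.2 ⟨hg, ?_, ?_⟩⟩⟩)
              · by_contra hn
                refine hi1 (hs.info t ht i b hg _ hg1 ?_).symm
                intro l hl
                exact fl_ne (fun h => hn (h ▸ hl))
              · by_contra hn
                refine hi2 (hs.info t ht i b hg _ hg2 ?_).symm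
                intro l hl
                exact fl_ne (fun h => hn (h ▸ hl))
            · exact Finset.mem_union_left _ (Finset.mem_union_right _
                (Finset.mem_filter.2 ⟨hb1, hg2⟩))
          · exact Finset.mem_union_left _ (Finset.mem_union_left _ (Finset.mem_union_right _
              (Finset.mem_filter.2 ⟨hb1, hg1⟩)))
        · exact Finset.mem_union_left _ (Finset.mem_union_left _ (Finset.mem_union_left _
            (Finset.mem_sdiff.2 ⟨hb1, hg⟩)))
      have hc := Finset.card_le_card hsub
      have hc1 : ((cls s.K s.y).filter fun b => H2 M mm T x.1.1 x.1.2 b).card ≤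
          ((cls s.K s.y \ s.G).card + (cls s.K s.y \ s.G).card + (cls s.K s.y \ s.G).card) +
          ∑ t ∈ Finset.range T, ∑ i : Fin p,
            (s.G.filter fun b => x.1.1 ∈ s.C (t + 1) i b ∧ x.1.2 ∈ s.C (t + 1) i b).card := by
        refine hc.trans ((Finset.card_union_le _ _).trans (Nat.add_le_add ?_ ?_))
        · refine (Finset.card_union_le _ _).trans (Nat.add_le_add ?_ ?_)
          · refine (Finset.card_union_le _ _).trans (Nat.add_le_add le_rfl ?_)
            exact (card_fl s.K s.y x.1.1 hl1 s.G).le
          · exact (card_fl s.K s.y x.1.2 hl2 s.G).le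
        · refine Finset.card_biUnion_le.trans (Finset.sum_le_sum fun t _ => ?_)
          exact Finset.card_biUnion_le
      have hc2 : (((((cls s.K s.y).filter fun b => H2 M mm T x.1.1 x.1.2 b).card) : ℕ) : ℝ) ≤
          ((((cls s.K s.y \ s.G).card + (cls s.K s.y \ s.G).card + (cls s.K s.y \ s.G).card) +
          ∑ t ∈ Finset.range T, ∑ i : Fin p,
            (s.G.filter fun b => x.1.1 ∈ s.C (t + 1) i b ∧ x.1.2 ∈ s.C (t + 1) i b).card : ℕ) : ℝ) := by
        exact_mod_cast hc1
      push_cast at hc2
      linarith
    refine (Finset.sum_le_sum h1).trans ?_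
    rw [Finset.sum_add_distrib, Finset.sum_const, nsmul_eq_mul]
    have hX : ((Finset.univ.filter (fun x : {x : ι × ι // x.1 ≠ x.2} =>
        Disjoint s.K ({x.1.1, x.1.2} : Finset ι))).card : ℝ) ≤ (Fintype.card ι) ^ 2 := by
      have : (Finset.univ.filter (fun x : {x : ι × ι // x.1 ≠ x.2} =>
        Disjoint s.K ({x.1.1, x.1.2} : Finset ι))).card ≤ (Fintype.card ι) ^ 2 := by
        refine (Finset.card_le_univ _).trans ?_
        refine (Fintype.card_subtype_le _).trans ?_
        rw [Fintype.card_prod, sq]
      exact_mod_cast this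
    have hG : (s.G.card : ℝ) ≤ (cls s.K s.y).card := by
      exact_mod_cast Finset.card_le_card hs.sub
    -- the main part
    have h2 : ∑ x ∈ Finset.univ.filter (fun x : {x : ι × ι // x.1 ≠ x.2} =>
        Disjoint s.K ({x.1.1, x.1.2} : Finset ι)), ∑ t ∈ Finset.range T, ∑ i : Fin p,
          (((s.G.filter fun b => x.1.1 ∈ s.C (t + 1) i b ∧ x.1.2 ∈ s.C (t + 1) i b).card : ℕ) : ℝ) ≤
        T * p * w ^ 2 * (cls s.K s.y).card := by
      rw [Finset.sum_comm]
      calc _ ≤ ∑ t ∈ Finset.range T, (p : ℝ) * w ^ 2 * (cls s.K s.y).card := by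
            refine Finset.sum_le_sum fun t ht => ?_
            rw [Finset.sum_comm]
            calc _ ≤ ∑ _i : Fin p, (w : ℝ) ^ 2 * (cls s.K s.y).card := by
                  refine Finset.sum_le_sum fun i _ => ?_
                  have e1 : ∀ x : {x : ι × ι // x.1 ≠ x.2},
                      (((s.G.filter fun b => x.1.1 ∈ s.C (t + 1) i b ∧
                        x.1.2 ∈ s.C (t + 1) i b).card : ℕ) : ℝ) =
                      ∑ b ∈ s.G, if (x.1.1 ∈ s.C (t + 1) i b ∧ x.1.2 ∈ s.C (t + 1) i b)
                        then (1 : ℝ) else 0 := by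
                    intro x
                    rw [← Finset.sum_filter, Finset.sum_const, nsmul_eq_mul, mul_one]
                  simp only [e1]
                  rw [Finset.sum_comm]
                  calc _ ≤ ∑ b ∈ s.G, (w : ℝ) ^ 2 := by
                        refine Finset.sum_le_sum fun b hb => ?_
                        rw [← Finset.sum_filter, Finset.sum_const, nsmul_eq_mul, mul_one]
                        have hcard := hs.card (t + 1) (by have := Finset.mem_range.1 ht; omega) i b hb
                        have hle : ((Finset.univ.filter (fun x : {x : ι × ι // x.1 ≠ x.2} =>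
                            Disjoint s.K ({x.1.1, x.1.2} : Finset ι))).filter fun x =>
                            x.1.1 ∈ s.C (t + 1) i b ∧ x.1.2 ∈ s.C (t + 1) i b).card ≤ w ^ 2 := by
                          calc _ ≤ (s.C (t + 1) i b ×ˢ s.C (t + 1) i b).card := by
                                refine Finset.card_le_card_of_injOn (fun x => x.1) ?_ ?_
                                · intro x hx
                                  have hx' := Finset.mem_filter.1 (Finset.mem_coe.1 hx)
                                  exact Finset.mem_coe.2 (Finset.mem_product.2 hx'.2)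
                                · intro x _ x' _ h
                                  exact Subtype.ext h
                            _ = (s.C (t + 1) i b).card * (s.C (t + 1) i b).card :=
                                Finset.card_product _ _
                            _ ≤ w * w := Nat.mul_le_mul hcard hcard
                            _ = w ^ 2 := (sq w).symm
                        exact_mod_cast hle
                    _ = (w : ℝ) ^ 2 * s.G.card := by
                        rw [Finset.sum_const, nsmul_eq_mul, mul_comm]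
                    _ ≤ _ := mul_le_mul_of_nonneg_left hG (by positivity)
              _ = _ := by
                  rw [Finset.sum_const, Finset.card_univ, Fintype.card_fin, nsmul_eq_mul]
                  ring
        _ = _ := by
            rw [Finset.sum_const, Finset.card_range, nsmul_eq_mul]
            ring
    have h3 : ((Finset.univ.filter (fun x : {x : ι × ι // x.1 ≠ x.2} =>
        Disjoint s.K ({x.1.1, x.1.2} : Finset ι))).card : ℝ) * (3 * (cls s.K s.y \ s.G).card) ≤
        (Fintype.card ι) ^ 2 * (3 * (cls s.K s.y \ s.G).card) :=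
      mul_le_mul_of_nonneg_right hX (by positivity)
    linarith

open Classical in
theorem singles_le (M : Prog p S V) (mm : (ι → Bool) → ℕ → V) (loc : ℕ → Option ι)
    (hloc : ∀ c b b', (∀ l ∈ loc c, b l = b' l) → mm b c = mm b' c)
    {q θ : ℝ} (hq0 : 0 < q) (hq1 : q < 1) (hθ : 1 ≤ θ) {w : ℕ} (hw : 1 ≤ w)
    (hW : (1 + 2 * (θ * q / (1 - q))) ^ (2 * w) ≤ 3 / 2) (T : ℕ) (i : Fin p) :
    ∑ l : ι, (((Finset.univ.filter fun b => H1 M mm T i l b).card : ℕ) : ℝ) ≤
      (1 / q) ^ T * (w + 2 * Fintype.card ι * (T * (p * (2 / θ ^ w)))) *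
        2 ^ Fintype.card ι := by
  have key := iter M mm loc hloc hq0 hq1 hθ hw hW
    (X := ι) (fun x => {x}) 1
    (fun x => Finset.card_singleton x) (fun x b => H1 M mm T i x b) T
    w (2 * (Fintype.card ι)) (by positivity) ?_ T 0 (by omega) stg0
    (stg0_ok M mm w)
  · have h1 : (cls (stg0 : Stg ι p).K (stg0 : Stg ι p).y) = Finset.univ := by
      ext b
      simp [mem_cls, stg0]
    have h2 : ((cls (stg0 : Stg ι p).K (stg0 : Stg ι p).y) \ (stg0 : Stg ι p).G) = ∅ := by
      rw [h1]; simp [stg0]
    rw [h2, h1] at key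
    have h3 : (Finset.univ.filter fun x : ι =>
        Disjoint (stg0 : Stg ι p).K ({x} : Finset ι)) = Finset.univ := by
      rw [Finset.filter_eq_self]
      intro x _
      exact Finset.disjoint_empty_left _
    rw [h3] at key
    refine key.trans (le_of_eq ?_)
    rw [Finset.card_empty, Finset.card_univ, Fintype.card_fun, Fintype.card_bool, one_mul]
    push_cast
    ring
  · intro s hs
    have h1 : ∀ x ∈ Finset.univ.filter (fun x : ι => Disjoint s.K ({x} : Finset ι)),
        ((((cls s.K s.y).filter fun b => H1 M mm T i x b).card : ℕ) : ℝ) ≤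
        2 * (cls s.K s.y \ s.G).card +
          (((s.G.filter fun b => x ∈ s.C T i b).card : ℕ) : ℝ) := by
      intro x hx
      rw [Finset.mem_filter] at hx
      have hd := hx.2
      have hl1 : x ∉ s.K := fun h => Finset.disjoint_left.1 hd h (by simp)
      have hsub : ((cls s.K s.y).filter fun b => H1 M mm T i x b) ⊆
          ((cls s.K s.y \ s.G) ∪ ((cls s.K s.y).filter fun b => fl b x ∉ s.G)) ∪
            s.G.filter fun b => x ∈ s.C T i b := by
        intro b hb
        rw [Finset.mem_filter] at hb
        obtain ⟨hb1, hb2⟩ := hb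
        by_cases hg : b ∈ s.G
        · by_cases hg1 : fl b x ∈ s.G
          · refine Finset.mem_union_right _ (Finset.mem_filter.2 ⟨hg, ?_⟩)
            by_contra hn
            refine hb2 (hs.st le_rfl i hg hg1 ?_).symm
            intro l hl
            exact fl_ne (fun h => hn (h ▸ hl))
          · exact Finset.mem_union_left _ (Finset.mem_union_right _
              (Finset.mem_filter.2 ⟨hb1, hg1⟩))
        · exact Finset.mem_union_left _ (Finset.mem_union_left _
            (Finset.mem_sdiff.2 ⟨hb1, hg⟩))
      have hc := Finset.card_le_card hsub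
      have hc1 : ((cls s.K s.y).filter fun b => H1 M mm T i x b).card ≤
          ((cls s.K s.y \ s.G).card + (cls s.K s.y \ s.G).card) +
            (s.G.filter fun b => x ∈ s.C T i b).card := by
        refine hc.trans ((Finset.card_union_le _ _).trans (Nat.add_le_add ?_ le_rfl))
        refine (Finset.card_union_le _ _).trans (Nat.add_le_add le_rfl ?_)
        exact (card_fl s.K s.y x hl1 s.G).le
      have hc2 : (((((cls s.K s.y).filter fun b => H1 M mm T i x b).card) : ℕ) : ℝ) ≤
          ((((cls s.K s.y \ s.G).card + (cls s.K s.y \ s.G).card) +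
            (s.G.filter fun b => x ∈ s.C T i b).card : ℕ) : ℝ) := by
        exact_mod_cast hc1
      push_cast at hc2
      linarith
    refine (Finset.sum_le_sum h1).trans ?_
    rw [Finset.sum_add_distrib, Finset.sum_const, nsmul_eq_mul]
    have hX : ((Finset.univ.filter (fun x : ι => Disjoint s.K ({x} : Finset ι))).card : ℝ) ≤
        (Fintype.card ι) := by
      exact_mod_cast (Finset.card_le_univ _)
    have hG : (s.G.card : ℝ) ≤ (cls s.K s.y).card := by
      exact_mod_cast Finset.card_le_card hs.sub
    have h2 : ∑ x ∈ Finset.univ.filter (fun x : ι => Disjoint s.K ({x} : Finset ι)),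
          (((s.G.filter fun b => x ∈ s.C T i b).card : ℕ) : ℝ) ≤ w * (cls s.K s.y).card := by
      have e1 : ∀ x : ι, (((s.G.filter fun b => x ∈ s.C T i b).card : ℕ) : ℝ) =
          ∑ b ∈ s.G, if x ∈ s.C T i b then (1 : ℝ) else 0 := by
        intro x
        rw [← Finset.sum_filter, Finset.sum_const, nsmul_eq_mul, mul_one]
      simp only [e1]
      rw [Finset.sum_comm]
      calc _ ≤ ∑ b ∈ s.G, (w : ℝ) := by
            refine Finset.sum_le_sum fun b hb => ?_
            rw [← Finset.sum_filter, Finset.sum_const, nsmul_eq_mul, mul_one]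
            have hcard := hs.card T le_rfl i b hb
            have hle : ((Finset.univ.filter (fun x : ι => Disjoint s.K ({x} : Finset ι))).filter
                fun x => x ∈ s.C T i b).card ≤ w := by
              refine le_trans (Finset.card_le_card ?_) hcard
              intro x hx
              exact (Finset.mem_filter.1 hx).2
            exact_mod_cast hle
        _ = (w : ℝ) * s.G.card := by
            rw [Finset.sum_const, nsmul_eq_mul, mul_comm]
        _ ≤ _ := mul_le_mul_of_nonneg_left hG (by positivity)
    have h3 : ((Finset.univ.filter (fun x : ι => Disjoint s.K ({x} : Finset ι))).card : ℝ) *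
        (2 * (cls s.K s.y \ s.G).card) ≤ (Fintype.card ι) * (2 * (cls s.K s.y \ s.G).card) :=
      mul_le_mul_of_nonneg_right hX (by positivity)
    linarith

end PR16
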