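import Mathlib
import Pool.Agent.PR16.Base

/-!
# Sensitive directions of a machine whose inputs are vectors over a finite set
-/

namespace PR16

variable {ι D : Type} [DecidableEq ι] [Fintype ι] [DecidableEq D] [Fintype D] {p : ℕ} {S V : Type}

/-- The vector with entries of `A'` where `c` is true and of `A` elsewhere. -/
def mix (A A' : ι → D) (c : ι → Bool) : ι → D := fun l => if c l then A' l else A l

omit [DecidableEq ι] [Fintype ι] [DecidableEq D] [Fintype D] in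
theorem mix_mix (A A' : ι → D) (c : ι → Bool) : mix (mix A A' c) (mix A' A c) c = A := by
  funext l
  unfold mix
  split_ifs <;> rfl

omit [DecidableEq D] [Fintype D] in
theorem mix_fl (A A' : ι → D) (c : ι → Bool) (l : ι) :
    mix A A' (fl c l) = Function.update (mix A A' c) l (mix A' A c l) := by
  funext k
  by_cases h : k = l
  · subst h
    rw [Function.update_self]
    unfold mix fl
    rw [Function.update_self]
    cases c k <;> simp
  · rw [Function.update_of_ne h]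
    unfold mix
    rw [fl_ne h]

/-- Both changes are seen by some processor in some step. -/
def K2 (M : Prog p S V) (inst : (ι → D) → ℕ → V) (T : ℕ) (l1 l2 : ι) (A : ι → D) (v1 v2 : D) :
    Prop :=
  ∃ t < T, ∃ i : Fin p, M.info (inst A) t i ≠ M.info (inst (Function.update A l1 v1)) t i ∧
    M.info (inst A) t i ≠ M.info (inst (Function.update A l2 v2)) t i

/-- The change is seen in the state of processor `i` after `T` steps. -/
def K1 (M : Prog p S V) (inst : (ι → D) → ℕ → V) (T : ℕ) (i : Fin p) (l : ι) (A : ι → D) (v : D) :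
    Prop :=
  M.st (inst A) T i ≠ M.st (inst (Function.update A l v)) T i

/-- Swap the entry at `l` with `v`. -/
def sw (l : ι) (z : (ι → D) × D) : (ι → D) × D := (Function.update z.1 l z.2, z.1 l)

omit [Fintype ι] [DecidableEq D] [Fintype D] in
theorem sw_sw (l : ι) (z : (ι → D) × D) : sw l (sw l z) = z := by
  unfold sw
  simp

theorem sum_sw (l : ι) (F : (ι → D) → D → ℝ) :
    ∑ A : ι → D, ∑ v : D, F A v = ∑ A : ι → D, ∑ v : D, F (Function.update A l v) (A l) := by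
  rw [← Finset.sum_product', ← Finset.sum_product']
  refine Finset.sum_nbij' (sw l) (sw l) (by simp) (by simp) (fun z _ => sw_sw l z)
    (fun z _ => sw_sw l z) ?_
  intro z _
  show F z.1 z.2 = F (Function.update (sw l z).1 l (sw l z).2) ((sw l z).1 l)
  unfold sw
  simp

theorem reorder4 {α β γ δ : Type} [Fintype α] [Fintype β] [Fintype γ] [Fintype δ]
    (f : α → β → γ → δ → ℝ) :
    ∑ a, ∑ b, ∑ x, ∑ c, f a b x c = ∑ x, ∑ c, ∑ a, ∑ b, f a b x c := by
  calc _ = ∑ a, ∑ x, ∑ c, ∑ b, f a b x c := by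
        refine Finset.sum_congr rfl fun a _ => ?_
        rw [Finset.sum_comm]
        exact Finset.sum_congr rfl fun x _ => Finset.sum_comm
    _ = ∑ x, ∑ a, ∑ c, ∑ b, f a b x c := Finset.sum_comm
    _ = _ := Finset.sum_congr rfl fun x _ => Finset.sum_comm

/-- Averages over the vectors of a function of two entries. -/
theorem sum_two {l1 l2 : ι} (h : l1 ≠ l2) (F : D → D → ℝ) :
    (Fintype.card D : ℝ) ^ 2 * ∑ A : ι → D, F (A l1) (A l2) =
      (Fintype.card (ι → D) : ℝ) * ∑ v1 : D, ∑ v2 : D, F v1 v2 := by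
  have key : ∑ A : ι → D, ∑ v2 : D, F (A l1) v2 = ∑ A : ι → D, ∑ v2 : D, F (A l1) (A l2) := by
    rw [sum_sw l2 (fun A v2 => F (A l1) v2)]
    refine Finset.sum_congr rfl fun A _ => Finset.sum_congr rfl fun v2 _ => ?_
    rw [Function.update_of_ne h]
  have h1 : ∑ _A : ι → D, ∑ v1 : D, ∑ v2 : D, F v1 v2 =
      ∑ A : ι → D, ∑ _v1 : D, ∑ v2 : D, F (A l1) v2 := by
    rw [sum_sw l1 (fun _ v1 => ∑ v2 : D, F v1 v2)]
  simp only [Finset.sum_const, Finset.card_univ, nsmul_eq_mul] at h1 key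
  rw [h1, ← Finset.mul_sum, key, ← Finset.mul_sum]
  ring

theorem sum_one (l : ι) (F : D → ℝ) :
    (Fintype.card D : ℝ) * ∑ A : ι → D, F (A l) =
      (Fintype.card (ι → D) : ℝ) * ∑ v : D, F v := by
  have h1 : ∑ A : ι → D, ∑ v : D, F v = ∑ A : ι → D, ∑ v : D, F (A l) := by
    rw [sum_sw l (fun _ v => F v)]
  rw [Finset.sum_const, Finset.card_univ, nsmul_eq_mul] at h1
  rw [h1]
  simp only [Finset.sum_const, Finset.card_univ, nsmul_eq_mul]
  rw [← Finset.mul_sum]

/-- Exchange the two vectors according to `c`. -/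
theorem sum_mix (c : ι → Bool) (F : (ι → D) → (ι → D) → ℝ) :
    ∑ A : ι → D, ∑ A' : ι → D, F (mix A A' c) (mix A' A c) = ∑ A : ι → D, ∑ A' : ι → D, F A A' := by
  rw [← Finset.sum_product', ← Finset.sum_product']
  refine Finset.sum_nbij' (fun z => (mix z.1 z.2 c, mix z.2 z.1 c))
    (fun z => (mix z.1 z.2 c, mix z.2 z.1 c)) (by simp) (by simp) ?_ ?_ ?_
  · intro z _
    exact Prod.ext (mix_mix _ _ _) (mix_mix _ _ _)
  · intro z _
    exact Prod.ext (mix_mix _ _ _) (mix_mix _ _ _)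
  · intro z _
    rfl

open Classical in
theorem vec_pairs (M : Prog p S V) (inst : (ι → D) → ℕ → V) (loc : ℕ → Option ι)
    (hloc : ∀ c A A', (∀ l ∈ loc c, A l = A' l) → inst A c = inst A' c)
    {q θ : ℝ} (hq0 : 0 < q) (hq1 : q < 1) (hθ : 1 ≤ θ) {w : ℕ} (hw : 1 ≤ w)
    (hW : (1 + 2 * (θ * q / (1 - q))) ^ (2 * w) ≤ 3 / 2) (T : ℕ) [Nonempty D] :
    ∑ x : {x : ι × ι // x.1 ≠ x.2}, ∑ A : ι → D, ∑ v1 : D, ∑ v2 : D,
      (if K2 M inst T x.1.1 x.1.2 A v1 v2 then (1 : ℝ) else 0) ≤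
      (Fintype.card (ι → D) : ℝ) * (Fintype.card D : ℝ) ^ 2 *
      ((1 / q) ^ (2 * T) * (T * p * w ^ 2 + 3 * (Fintype.card ι) ^ 2 * (T * (p * (2 / θ ^ w))))) := by
  set R : ℝ := (1 / q) ^ (2 * T) * (T * p * w ^ 2 + 3 * (Fintype.card ι) ^ 2 *
    (T * (p * (2 / θ ^ w)))) with hR
  set Z : ℝ := (Fintype.card (ι → D) : ℝ) with hZ
  -- for all pairs of vectors
  have h1 : ∀ A A' : ι → D, ∑ x : {x : ι × ι // x.1 ≠ x.2}, ∑ c : ι → Bool,
      (if H2 M (fun c => inst (mix A A' c)) T x.1.1 x.1.2 c then (1 : ℝ) else 0) ≤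
      R * 2 ^ Fintype.card ι := by
    intro A A'
    have := pairs_le M (fun c => inst (mix A A' c)) loc ?_ hq0 hq1 hθ hw hW T
    · refine le_trans (le_of_eq ?_) this
      refine Finset.sum_congr rfl fun x _ => ?_
      rw [← Finset.sum_filter, Finset.sum_const, nsmul_eq_mul, mul_one]
    · intro c b b' h
      refine hloc c _ _ fun l hl => ?_
      unfold mix
      rw [h l hl]
  have h2 : ∀ (A A' : ι → D) (l1 l2 : ι) (c : ι → Bool),
      H2 M (fun c => inst (mix A A' c)) T l1 l2 c ↔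
      K2 M inst T l1 l2 (mix A A' c) (mix A' A c l1) (mix A' A c l2) := by
    intro A A' l1 l2 c
    unfold H2 K2
    simp only [mix_fl]
  have h3 : ∑ A : ι → D, ∑ A' : ι → D, ∑ x : {x : ι × ι // x.1 ≠ x.2}, ∑ c : ι → Bool,
      (if H2 M (fun c => inst (mix A A' c)) T x.1.1 x.1.2 c then (1 : ℝ) else 0) ≤
      Z * (Z * (R * 2 ^ Fintype.card ι)) := by
    calc _ ≤ ∑ _A : ι → D, ∑ _A' : ι → D, R * 2 ^ Fintype.card ι :=
          Finset.sum_le_sum fun A _ => Finset.sum_le_sum fun A' _ => h1 A A'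
      _ = _ := by
          simp only [Finset.sum_const, Finset.card_univ, nsmul_eq_mul]
          ring
  have h4 : ∑ A : ι → D, ∑ A' : ι → D, ∑ x : {x : ι × ι // x.1 ≠ x.2}, ∑ c : ι → Bool,
      (if H2 M (fun c => inst (mix A A' c)) T x.1.1 x.1.2 c then (1 : ℝ) else 0) =
      2 ^ Fintype.card ι * ∑ x : {x : ι × ι // x.1 ≠ x.2}, ∑ A : ι → D, ∑ A' : ι → D,
        (if K2 M inst T x.1.1 x.1.2 A (A' x.1.1) (A' x.1.2) then (1 : ℝ) else 0) := by
    have e1 : ∑ A : ι → D, ∑ A' : ι → D, ∑ x : {x : ι × ι // x.1 ≠ x.2}, ∑ c : ι → Bool,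
        (if H2 M (fun c => inst (mix A A' c)) T x.1.1 x.1.2 c then (1 : ℝ) else 0) =
        ∑ x : {x : ι × ι // x.1 ≠ x.2}, ∑ c : ι → Bool, ∑ A : ι → D, ∑ A' : ι → D,
          (if K2 M inst T x.1.1 x.1.2 (mix A A' c) (mix A' A c x.1.1) (mix A' A c x.1.2)
            then (1 : ℝ) else 0) := by
      simp only [h2]
      exact reorder4 _
    rw [e1, Finset.mul_sum]
    refine Finset.sum_congr rfl fun x _ => ?_
    have e2 : ∀ c : ι → Bool, ∑ A : ι → D, ∑ A' : ι → D,
          (if K2 M inst T x.1.1 x.1.2 (mix A A' c) (mix A' A c x.1.1) (mix A' A c x.1.2)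
            then (1 : ℝ) else 0) = ∑ A : ι → D, ∑ A' : ι → D,
          (if K2 M inst T x.1.1 x.1.2 A (A' x.1.1) (A' x.1.2) then (1 : ℝ) else 0) :=
      fun c => sum_mix c (fun A A' =>
        if K2 M inst T x.1.1 x.1.2 A (A' x.1.1) (A' x.1.2) then (1 : ℝ) else 0)
    rw [Finset.sum_congr rfl fun c _ => e2 c, Finset.sum_const, Finset.card_univ,
      Fintype.card_fun, Fintype.card_bool, nsmul_eq_mul]
    push_cast
    rfl
  have h5 : ∑ x : {x : ι × ι // x.1 ≠ x.2}, ∑ A : ι → D, ∑ A' : ι → D,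
        (if K2 M inst T x.1.1 x.1.2 A (A' x.1.1) (A' x.1.2) then (1 : ℝ) else 0) ≤ Z * (Z * R) := by
    rw [h4] at h3
    have h2p : (0 : ℝ) < 2 ^ Fintype.card ι := by positivity
    refine le_of_mul_le_mul_left (h3.trans (le_of_eq ?_)) h2p
    ring
  have h6 : ∑ x : {x : ι × ι // x.1 ≠ x.2}, ∑ A : ι → D, ∑ A' : ι → D,
        (if K2 M inst T x.1.1 x.1.2 A (A' x.1.1) (A' x.1.2) then (1 : ℝ) else 0) *
          (Fintype.card D : ℝ) ^ 2 =
      Z * ∑ x : {x : ι × ι // x.1 ≠ x.2}, ∑ A : ι → D, ∑ v1 : D, ∑ v2 : D,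
      (if K2 M inst T x.1.1 x.1.2 A v1 v2 then (1 : ℝ) else 0) := by
    rw [Finset.mul_sum]
    refine Finset.sum_congr rfl fun x _ => ?_
    rw [Finset.mul_sum]
    refine Finset.sum_congr rfl fun A _ => ?_
    have := sum_two x.2 (fun v1 v2 => if K2 M inst T x.1.1 x.1.2 A v1 v2 then (1 : ℝ) else 0)
    rw [← Finset.sum_mul, mul_comm]
    exact this
  have hZ0 : 0 < Z := by
    rw [hZ]
    exact_mod_cast Fintype.card_pos
  have h7 : Z * ∑ x : {x : ι × ι // x.1 ≠ x.2}, ∑ A : ι → D, ∑ v1 : D, ∑ v2 : D,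
      (if K2 M inst T x.1.1 x.1.2 A v1 v2 then (1 : ℝ) else 0) ≤
      Z * (Z * (Fintype.card D : ℝ) ^ 2 * R) := by
    rw [← h6]
    have : ∑ x : {x : ι × ι // x.1 ≠ x.2}, ∑ A : ι → D, ∑ A' : ι → D,
        (if K2 M inst T x.1.1 x.1.2 A (A' x.1.1) (A' x.1.2) then (1 : ℝ) else 0) *
          (Fintype.card D : ℝ) ^ 2 = (∑ x : {x : ι × ι // x.1 ≠ x.2}, ∑ A : ι → D, ∑ A' : ι → D,
        (if K2 M inst T x.1.1 x.1.2 A (A' x.1.1) (A' x.1.2) then (1 : ℝ) else 0)) *
          (Fintype.card D : ℝ) ^ 2 := by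
      simp only [Finset.sum_mul]
    rw [this]
    have := mul_le_mul_of_nonneg_right h5 (by positivity : (0 : ℝ) ≤ (Fintype.card D : ℝ) ^ 2)
    refine this.trans (le_of_eq ?_)
    ring
  exact le_of_mul_le_mul_left h7 hZ0

open Classical in
theorem vec_singles (M : Prog p S V) (inst : (ι → D) → ℕ → V) (loc : ℕ → Option ι)
    (hloc : ∀ c A A', (∀ l ∈ loc c, A l = A' l) → inst A c = inst A' c)
    {q θ : ℝ} (hq0 : 0 < q) (hq1 : q < 1) (hθ : 1 ≤ θ) {w : ℕ} (hw : 1 ≤ w)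
    (hW : (1 + 2 * (θ * q / (1 - q))) ^ (2 * w) ≤ 3 / 2) (T : ℕ) (i : Fin p) [Nonempty D] :
    ∑ l : ι, ∑ A : ι → D, ∑ v : D, (if K1 M inst T i l A v then (1 : ℝ) else 0) ≤
      (Fintype.card (ι → D) : ℝ) * (Fintype.card D : ℝ) *
      ((1 / q) ^ T * (w + 2 * Fintype.card ι * (T * (p * (2 / θ ^ w))))) := by
  set R : ℝ := (1 / q) ^ T * (w + 2 * Fintype.card ι * (T * (p * (2 / θ ^ w)))) with hR
  set Z : ℝ := (Fintype.card (ι → D) : ℝ) with hZ
  have h1 : ∀ A A' : ι → D, ∑ l : ι, ∑ c : ι → Bool,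
      (if H1 M (fun c => inst (mix A A' c)) T i l c then (1 : ℝ) else 0) ≤
      R * 2 ^ Fintype.card ι := by
    intro A A'
    have := singles_le M (fun c => inst (mix A A' c)) loc ?_ hq0 hq1 hθ hw hW T i
    · refine le_trans (le_of_eq ?_) this
      refine Finset.sum_congr rfl fun x _ => ?_
      rw [← Finset.sum_filter, Finset.sum_const, nsmul_eq_mul, mul_one]
    · intro c b b' h
      refine hloc c _ _ fun l hl => ?_
      unfold mix
      rw [h l hl]
  have h2 : ∀ (A A' : ι → D) (l : ι) (c : ι → Bool),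
      H1 M (fun c => inst (mix A A' c)) T i l c ↔
      K1 M inst T i l (mix A A' c) (mix A' A c l) := by
    intro A A' l c
    unfold H1 K1
    simp only [mix_fl]
  have h3 : ∑ A : ι → D, ∑ A' : ι → D, ∑ l : ι, ∑ c : ι → Bool,
      (if H1 M (fun c => inst (mix A A' c)) T i l c then (1 : ℝ) else 0) ≤
      Z * (Z * (R * 2 ^ Fintype.card ι)) := by
    calc _ ≤ ∑ _A : ι → D, ∑ _A' : ι → D, R * 2 ^ Fintype.card ι :=
          Finset.sum_le_sum fun A _ => Finset.sum_le_sum fun A' _ => h1 A A'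
      _ = _ := by
          simp only [Finset.sum_const, Finset.card_univ, nsmul_eq_mul]
          ring
  have h4 : ∑ A : ι → D, ∑ A' : ι → D, ∑ l : ι, ∑ c : ι → Bool,
      (if H1 M (fun c => inst (mix A A' c)) T i l c then (1 : ℝ) else 0) =
      2 ^ Fintype.card ι * ∑ l : ι, ∑ A : ι → D, ∑ A' : ι → D,
        (if K1 M inst T i l A (A' l) then (1 : ℝ) else 0) := by
    have e1 : ∑ A : ι → D, ∑ A' : ι → D, ∑ l : ι, ∑ c : ι → Bool,
        (if H1 M (fun c => inst (mix A A' c)) T i l c then (1 : ℝ) else 0) =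
        ∑ l : ι, ∑ c : ι → Bool, ∑ A : ι → D, ∑ A' : ι → D,
          (if K1 M inst T i l (mix A A' c) (mix A' A c l) then (1 : ℝ) else 0) := by
      simp only [h2]
      exact reorder4 _
    rw [e1, Finset.mul_sum]
    refine Finset.sum_congr rfl fun x _ => ?_
    have e2 : ∀ c : ι → Bool, ∑ A : ι → D, ∑ A' : ι → D,
          (if K1 M inst T i x (mix A A' c) (mix A' A c x) then (1 : ℝ) else 0) =
          ∑ A : ι → D, ∑ A' : ι → D, (if K1 M inst T i x A (A' x) then (1 : ℝ) else 0) :=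
      fun c => sum_mix c (fun A A' => if K1 M inst T i x A (A' x) then (1 : ℝ) else 0)
    rw [Finset.sum_congr rfl fun c _ => e2 c, Finset.sum_const, Finset.card_univ,
      Fintype.card_fun, Fintype.card_bool, nsmul_eq_mul]
    push_cast
    rfl
  have h5 : ∑ l : ι, ∑ A : ι → D, ∑ A' : ι → D,
        (if K1 M inst T i l A (A' l) then (1 : ℝ) else 0) ≤ Z * (Z * R) := by
    rw [h4] at h3
    have h2p : (0 : ℝ) < 2 ^ Fintype.card ι := by positivity
    refine le_of_mul_le_mul_left (h3.trans (le_of_eq ?_)) h2p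
    ring
  have h6 : (Fintype.card D : ℝ) * ∑ l : ι, ∑ A : ι → D, ∑ A' : ι → D,
        (if K1 M inst T i l A (A' l) then (1 : ℝ) else 0) =
      Z * ∑ l : ι, ∑ A : ι → D, ∑ v : D, (if K1 M inst T i l A v then (1 : ℝ) else 0) := by
    rw [Finset.mul_sum, Finset.mul_sum]
    refine Finset.sum_congr rfl fun x _ => ?_
    rw [Finset.mul_sum, Finset.mul_sum]
    refine Finset.sum_congr rfl fun A _ => ?_
    exact sum_one x (fun v => if K1 M inst T i x A v then (1 : ℝ) else 0)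
  have hZ0 : 0 < Z := by
    rw [hZ]
    exact_mod_cast Fintype.card_pos
  have h7 : Z * ∑ l : ι, ∑ A : ι → D, ∑ v : D, (if K1 M inst T i l A v then (1 : ℝ) else 0) ≤
      Z * (Z * (Fintype.card D : ℝ) * R) := by
    rw [← h6]
    have := mul_le_mul_of_nonneg_left h5 (by positivity : (0 : ℝ) ≤ (Fintype.card D : ℝ))
    refine this.trans (le_of_eq ?_)
    ring
  exact le_of_mul_le_mul_left h7 hZ0

end PR16
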