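import Mathlib
import Pool.Agent.PR16.Vec
import Pool.Agent.PR16.Cube

/-!
# The planted triple is not seen
-/

namespace PR16

open Classical

variable {ι D : Type} [DecidableEq ι] [Fintype ι] [Fintype D] {p : ℕ} {S V : Type}

/-- The four vectors of a face. -/
noncomputable def face (A : ι → D) (l1 l2 : ι) (v1 v2 : D) (a b : Bool) : ι → D := fun l =>
  if l = l1 ∧ a = true then v1 else if l = l2 ∧ b = true then v2 else A l

/-- Some vertex of the face has two sensitive directions. -/
def FB (M : Prog p S V) (inst : (ι → D) → ℕ → V) (T : ℕ) (l1 l2 : ι) (A : ι → D) (v1 v2 : D) :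
    Prop :=
  K2 M inst T l1 l2 A v1 v2 ∨ K2 M inst T l1 l2 (Function.update A l1 v1) (A l1) v2 ∨
    K2 M inst T l1 l2 (Function.update A l2 v2) v1 (A l2) ∨
    K2 M inst T l1 l2 (Function.update (Function.update A l1 v1) l2 v2) (A l1) (A l2)

omit [Fintype ι] [Fintype D] in
theorem face_ff (A : ι → D) (l1 l2 : ι) (v1 v2 : D) : face A l1 l2 v1 v2 false false = A := by
  funext l; simp [face]

omit [Fintype ι] [Fintype D] in
theorem face_tf (A : ι → D) (l1 l2 : ι) (v1 v2 : D) :
    face A l1 l2 v1 v2 true false = Function.update A l1 v1 := by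
  funext l; simp [face, Function.update_apply]

omit [Fintype ι] [Fintype D] in
theorem face_ft (A : ι → D) (l1 l2 : ι) (v1 v2 : D) :
    face A l1 l2 v1 v2 false true = Function.update A l2 v2 := by
  funext l; simp [face, Function.update_apply]

omit [Fintype ι] [Fintype D] in
theorem face_tt {l1 l2 : ι} (h : l1 ≠ l2) (A : ι → D) (v1 v2 : D) :
    face A l1 l2 v1 v2 true true = Function.update (Function.update A l1 v1) l2 v2 := by
  funext l
  simp only [face, Function.update_apply, and_true]
  by_cases h1 : l = l1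
  · subst h1
    simp [h]
  · simp [h1]

omit [Fintype ι] [Fintype D] in
theorem upd_self (A : ι → D) (l : ι) (v : D) :
    Function.update (Function.update A l v) l (A l) = A := by
  simp

omit [Fintype ι] [Fintype D] in
theorem fb_of_face {M : Prog p S V} {inst : (ι → D) → ℕ → V} {T : ℕ} {l1 l2 : ι} (h : l1 ≠ l2)
    {A : ι → D} {v1 v2 : D} {t : ℕ} (ht : t < T) (i : Fin p)
    (hn : ¬ ((∀ a b b', M.info (inst (face A l1 l2 v1 v2 a b)) t i =
      M.info (inst (face A l1 l2 v1 v2 a b')) t i) ∨
      (∀ a a' b, M.info (inst (face A l1 l2 v1 v2 a b)) t i =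
      M.info (inst (face A l1 l2 v1 v2 a' b)) t i))) : FB M inst T l1 l2 A v1 v2 := by
  set f : Bool → Bool → S × Option (ℕ × Fin p) × V :=
    fun a b => M.info (inst (face A l1 l2 v1 v2 a b)) t i with hf
  have hn' : ¬ ((∀ a b b', f a b = f a b') ∨ (∀ a a' b, f a b = f a' b)) := hn
  rw [not_or] at hn'
  obtain ⟨n1, n2⟩ := hn'
  -- an edge in direction 2
  have e1 : ∃ a, f a false ≠ f a true := by
    by_contra hc
    push Not at hc
    apply n1
    intro a b b'
    rcases b with _ | _ <;> rcases b' with _ | _
    · rfl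
    · exact hc a
    · exact (hc a).symm
    · rfl
  have e2 : ∃ b, f false b ≠ f true b := by
    by_contra hc
    push Not at hc
    apply n2
    intro a a' b
    rcases a with _ | _ <;> rcases a' with _ | _
    · rfl
    · exact hc b
    · exact (hc b).symm
    · rfl
  obtain ⟨a, ha⟩ := e1
  obtain ⟨b, hb⟩ := e2
  have k1 : f a b ≠ f a (!b) := by
    cases b
    · exact ha
    · exact ha.symm
  have k2 : f a b ≠ f (!a) b := by
    cases a
    · exact hb
    · exact hb.symm
  have hne : l2 ≠ l1 := fun h' => h h'.symm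
  rcases a with _ | _ <;> rcases b with _ | _
  · -- the vertex 00
    left
    refine ⟨t, ht, i, ?_, ?_⟩
    · have := k2
      simp only [hf, Bool.not_false, face_ff, face_tf] at this
      exact this
    · have := k1
      simp only [hf, Bool.not_false, face_ff, face_ft] at this
      exact this
  · -- the vertex 01
    right; right; left
    refine ⟨t, ht, i, ?_, ?_⟩
    · have := k2
      simp only [hf, Bool.not_false, face_ft, face_tt h] at this
      rwa [Function.update_comm h] at this
    · have := k1
      simp only [hf, Bool.not_true, face_ft, face_ff] at this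
      rwa [upd_self]
  · -- the vertex 10
    right; left
    refine ⟨t, ht, i, ?_, ?_⟩
    · have := k2
      simp only [hf, Bool.not_true, face_tf, face_ff] at this
      rwa [upd_self]
    · have := k1
      simp only [hf, Bool.not_false, face_tf, face_tt h] at this
      exact this
  · right; right; right
    refine ⟨t, ht, i, ?_, ?_⟩
    · have := k2
      simp only [hf, Bool.not_true, face_ft, face_tt h] at this
      rw [Function.update_comm h] at this ⊢
      rw [show A l1 = (Function.update A l2 v2) l1 by rw [Function.update_of_ne h], upd_self]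
      exact this
    · have := k1
      simp only [hf, Bool.not_true, face_tf, face_tt h] at this
      rw [show A l2 = (Function.update A l1 v1) l2 by rw [Function.update_of_ne hne], upd_self]
      exact this

theorem fb_sum (M : Prog p S V) (inst : (ι → D) → ℕ → V) (T : ℕ) {l1 l2 : ι} (h : l1 ≠ l2) :
    ∑ A : ι → D, ∑ v1 : D, ∑ v2 : D, (if FB M inst T l1 l2 A v1 v2 then (1 : ℝ) else 0) ≤
    4 * ∑ A : ι → D, ∑ v1 : D, ∑ v2 : D, (if K2 M inst T l1 l2 A v1 v2 then (1 : ℝ) else 0) := by
  have hne : l2 ≠ l1 := fun h' => h h'.symm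
  set k : (ι → D) → D → D → ℝ := fun A v1 v2 => if K2 M inst T l1 l2 A v1 v2 then (1 : ℝ) else 0
    with hk
  have hk0 : ∀ A v1 v2, 0 ≤ k A v1 v2 := by
    intro A v1 v2
    rw [hk]
    dsimp only
    split_ifs <;> norm_num
  have h1 : ∀ A v1 v2, (if FB M inst T l1 l2 A v1 v2 then (1 : ℝ) else 0) ≤
      k A v1 v2 + k (Function.update A l1 v1) (A l1) v2 + k (Function.update A l2 v2) v1 (A l2) +
      k (Function.update (Function.update A l1 v1) l2 v2) (A l1) (A l2) := by
    intro A v1 v2
    have a1 := hk0 A v1 v2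
    have a2 := hk0 (Function.update A l1 v1) (A l1) v2
    have a3 := hk0 (Function.update A l2 v2) v1 (A l2)
    have a4 := hk0 (Function.update (Function.update A l1 v1) l2 v2) (A l1) (A l2)
    split_ifs with hc
    · rcases hc with hc | hc | hc | hc
      · have : k A v1 v2 = 1 := if_pos hc
        linarith
      · have : k (Function.update A l1 v1) (A l1) v2 = 1 := if_pos hc
        linarith
      · have : k (Function.update A l2 v2) v1 (A l2) = 1 := if_pos hc
        linarith
      · have : k (Function.update (Function.update A l1 v1) l2 v2) (A l1) (A l2) = 1 := if_pos hc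
        linarith
    · linarith
  have s2 : ∑ A : ι → D, ∑ v1 : D, ∑ v2 : D, k (Function.update A l1 v1) (A l1) v2 =
      ∑ A : ι → D, ∑ v1 : D, ∑ v2 : D, k A v1 v2 :=
    (sum_sw l1 (fun A v1 => ∑ v2 : D, k A v1 v2)).symm
  have s3 : ∑ A : ι → D, ∑ v1 : D, ∑ v2 : D, k (Function.update A l2 v2) v1 (A l2) =
      ∑ A : ι → D, ∑ v1 : D, ∑ v2 : D, k A v1 v2 := by
    have e : ∀ g : (ι → D) → D → D → ℝ, ∑ A : ι → D, ∑ v1 : D, ∑ v2 : D, g A v1 v2 =
        ∑ A : ι → D, ∑ v2 : D, ∑ v1 : D, g A v1 v2 :=
      fun g => Finset.sum_congr rfl fun A _ => Finset.sum_comm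
    rw [e, e k]
    exact (sum_sw l2 (fun A v2 => ∑ v1 : D, k A v1 v2)).symm
  have s4 : ∑ A : ι → D, ∑ v1 : D, ∑ v2 : D,
      k (Function.update (Function.update A l1 v1) l2 v2) (A l1) (A l2) =
      ∑ A : ι → D, ∑ v1 : D, ∑ v2 : D, k A v1 v2 := by
    rw [← s3]
    have := sum_sw l1 (fun A v1 => ∑ v2 : D, k (Function.update A l2 v2) v1 (A l2))
    rw [this]
    refine Finset.sum_congr rfl fun A _ => Finset.sum_congr rfl fun v1 _ =>
      Finset.sum_congr rfl fun v2 _ => ?_
    rw [Function.update_of_ne hne]
  calc _ ≤ ∑ A : ι → D, ∑ v1 : D, ∑ v2 : D, (k A v1 v2 + k (Function.update A l1 v1) (A l1) v2 +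
      k (Function.update A l2 v2) v1 (A l2) +
      k (Function.update (Function.update A l1 v1) l2 v2) (A l1) (A l2)) :=
        Finset.sum_le_sum fun A _ => Finset.sum_le_sum fun v1 _ => Finset.sum_le_sum fun v2 _ =>
          h1 A v1 v2
    _ = _ := by
        simp only [Finset.sum_add_distrib]
        rw [s2, s3, s4]
        ring

end PR16
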