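import Mathlib
import Pool.Agent.PR16.Plant

/-!
# The planted cube
-/

namespace PR16

open Classical

variable {ι D : Type} [DecidableEq ι] [Fintype ι] [Fintype D] {p : ℕ} {S V : Type}

/-- The eight vectors of a cube. -/
noncomputable def cube (A : ι → D) (l1 l2 l3 : ι) (v1 v2 v3 : D) (a b c : Bool) : ι → D := fun l =>
  if l = l1 ∧ a = true then v1 else if l = l2 ∧ b = true then v2 else
    if l = l3 ∧ c = true then v3 else A l

omit [Fintype ι] [Fintype D] in
theorem cube_f3 (A : ι → D) (l1 l2 l3 : ι) (v1 v2 v3 : D) (a b : Bool) :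
    cube A l1 l2 l3 v1 v2 v3 a b false = face A l1 l2 v1 v2 a b := by
  funext l; simp [cube, face]

omit [Fintype ι] [Fintype D] in
theorem cube_f2 (A : ι → D) (l1 l2 l3 : ι) (v1 v2 v3 : D) (a c : Bool) :
    cube A l1 l2 l3 v1 v2 v3 a false c = face A l1 l3 v1 v3 a c := by
  funext l; simp [cube, face]

omit [Fintype ι] [Fintype D] in
theorem cube_f1 (A : ι → D) (l1 l2 l3 : ι) (v1 v2 v3 : D) (b c : Bool) :
    cube A l1 l2 l3 v1 v2 v3 false b c = face A l2 l3 v2 v3 b c := by
  funext l; simp [cube, face]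

omit [Fintype ι] [Fintype D] in
/-- If the chief sees the planted triple then it sees one of its entries, or some processor sees two
of its entries. -/
theorem planted (M : Prog p S V) (inst : (ι → D) → ℕ → V) (loc : ℕ → Option ι)
    (hloc : ∀ c A A', (∀ l ∈ loc c, A l = A' l) → inst A c = inst A' c) (T : ℕ) (i : Fin p)
    {l1 l2 l3 : ι} (h12 : l1 ≠ l2) (h13 : l1 ≠ l3) (h23 : l2 ≠ l3) (A : ι → D) (v1 v2 v3 : D)
    (hne : M.st (inst A) T i ≠ M.st (inst (cube A l1 l2 l3 v1 v2 v3 true true true)) T i) :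
    FB M inst T l1 l2 A v1 v2 ∨ FB M inst T l1 l3 A v1 v3 ∨ FB M inst T l2 l3 A v2 v3 ∨
      K1 M inst T i l1 A v1 ∨ K1 M inst T i l2 A v2 ∨ K1 M inst T i l3 A v3 := by
  by_contra hc
  simp only [not_or] at hc
  obtain ⟨n12, n13, n23, k1, k2, k3⟩ := hc
  set mm : Bool → Bool → Bool → ℕ → V := fun a b c => inst (cube A l1 l2 l3 v1 v2 v3 a b c) with hmm
  have hm : ∀ c, Dic3 (fun a b d => mm a b d c) := by
    intro c
    by_cases c1 : loc c = some l1
    · left
      intro a b d b' d'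
      refine hloc c _ _ fun l hl => ?_
      rw [c1, Option.mem_some_iff] at hl
      subst hl
      simp [cube, h12, h13]
    · by_cases c2 : loc c = some l2
      · right; left
        intro a b d a' d'
        refine hloc c _ _ fun l hl => ?_
        rw [c2, Option.mem_some_iff] at hl
        subst hl
        simp [cube, h12.symm, h23]
      · right; right
        intro a b d a' b'
        refine hloc c _ _ fun l hl => ?_
        have e1 : l ≠ l1 := by
          rintro rfl
          exact c1 (Option.mem_def.1 hl)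
        have e2 : l ≠ l2 := by
          rintro rfl
          exact c2 (Option.mem_def.1 hl)
        simp [cube, e1, e2]
  have hf : ∀ t < T, ∀ j : Fin p, Fac0 (fun a b d => M.info (mm a b d) t j) ∧
      Fac1 (fun a b d => M.info (mm a b d) t j) ∧ Fac2 (fun a b d => M.info (mm a b d) t j) := by
    intro t ht j
    refine ⟨?_, ?_, ?_⟩
    · by_contra hh
      apply n23
      refine fb_of_face h23 ht j ?_
      unfold Fac0 at hh
      simp only [hmm, cube_f1] at hh
      exact hh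
    · by_contra hh
      apply n13
      refine fb_of_face h13 ht j ?_
      unfold Fac1 at hh
      simp only [hmm, cube_f2] at hh
      exact hh
    · by_contra hh
      apply n12
      refine fb_of_face h12 ht j ?_
      unfold Fac2 at hh
      simp only [hmm, cube_f3] at hh
      exact hh
  have hst := cube_st M mm hm T hf T le_rfl i
  have hA : mm false false false = inst A := by
    simp only [hmm, cube_f3, face_ff]
  have hA1 : mm true false false = inst (Function.update A l1 v1) := by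
    simp only [hmm, cube_f3, face_tf]
  have hA2 : mm false true false = inst (Function.update A l2 v2) := by
    simp only [hmm, cube_f3, face_ft]
  have hA3 : mm false false true = inst (Function.update A l3 v3) := by
    simp only [hmm, cube_f2, face_ft]
  unfold K1 at k1 k2 k3
  rw [not_not] at k1 k2 k3
  rcases hst with h | h | h
  · have := h true true true false false
    simp only [hA1] at this
    exact hne (k1.trans this.symm)
  · have := h true true true false false
    simp only [hA2] at this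
    exact hne (k2.trans this.symm)
  · have := h true true true false false
    simp only [hA3] at this
    exact hne (k3.trans this.symm)

theorem sum_inj {α β : Type} [Fintype α] [Fintype β] (e : α → β) (he : Function.Injective e)
    (f : β → ℝ) (hf : ∀ b, 0 ≤ f b) : ∑ a, f (e a) ≤ ∑ b, f b := by
  have h1 : ∑ a, f (e a) = ∑ b ∈ Finset.univ.image e, f b := by
    rw [Finset.sum_image (fun a _ b _ h => he h)]
  rw [h1]
  exact Finset.sum_le_sum_of_subset_of_nonneg (Finset.subset_univ _) fun b _ _ => hf b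

section count

variable {m N : ℕ}

/-- For one place of the triple. -/
theorem one_place (M : Prog p S V) (inst : (ι → Fin N) → ℕ → V) (loc : ℕ → Option ι)
    (hloc : ∀ c A A', (∀ l ∈ loc c, A l = A' l) → inst A c = inst A' c) (T : ℕ) (i : Fin p)
    {l1 l2 l3 : ι} (h12 : l1 ≠ l2) (h13 : l1 ≠ l3) (h23 : l2 ≠ l3) [NeZero N] :
    ∑ A : ι → Fin N, ∑ u : Fin N, ∑ v : Fin N,
      (if M.st (inst A) T i ≠ M.st (inst (cube A l1 l2 l3 u v (u + v) true true true)) T i
        then (1 : ℝ) else 0) ≤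
    (∑ A : ι → Fin N, ∑ u : Fin N, ∑ v : Fin N, (if FB M inst T l1 l2 A u v then (1 : ℝ) else 0)) +
    (∑ A : ι → Fin N, ∑ u : Fin N, ∑ v : Fin N, (if FB M inst T l1 l3 A u v then (1 : ℝ) else 0)) +
    (∑ A : ι → Fin N, ∑ u : Fin N, ∑ v : Fin N, (if FB M inst T l2 l3 A u v then (1 : ℝ) else 0)) +
    N * (∑ A : ι → Fin N, ∑ u : Fin N, (if K1 M inst T i l1 A u then (1 : ℝ) else 0)) +
    N * (∑ A : ι → Fin N, ∑ u : Fin N, (if K1 M inst T i l2 A u then (1 : ℝ) else 0)) +
    N * (∑ A : ι → Fin N, ∑ u : Fin N, (if K1 M inst T i l3 A u then (1 : ℝ) else 0)) := by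
  have h1 : ∀ A : ι → Fin N, ∀ u v : Fin N,
      (if M.st (inst A) T i ≠ M.st (inst (cube A l1 l2 l3 u v (u + v) true true true)) T i
        then (1 : ℝ) else 0) ≤
      (if FB M inst T l1 l2 A u v then (1 : ℝ) else 0) +
      (if FB M inst T l1 l3 A u (u + v) then (1 : ℝ) else 0) +
      (if FB M inst T l2 l3 A v (u + v) then (1 : ℝ) else 0) +
      (if K1 M inst T i l1 A u then (1 : ℝ) else 0) +
      (if K1 M inst T i l2 A v then (1 : ℝ) else 0) +
      (if K1 M inst T i l3 A (u + v) then (1 : ℝ) else 0) := by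
    intro A u v
    have nn : ∀ P : Prop, (0 : ℝ) ≤ (if P then (1 : ℝ) else 0) := by
      intro P
      split_ifs <;> norm_num
    have n1 := nn (FB M inst T l1 l2 A u v)
    have n2 := nn (FB M inst T l1 l3 A u (u + v))
    have n3 := nn (FB M inst T l2 l3 A v (u + v))
    have n4 := nn (K1 M inst T i l1 A u)
    have n5 := nn (K1 M inst T i l2 A v)
    have n6 := nn (K1 M inst T i l3 A (u + v))
    by_cases hne : M.st (inst A) T i ≠ M.st (inst (cube A l1 l2 l3 u v (u + v) true true true)) T i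
    · rw [if_pos hne]
      rcases planted M inst loc hloc T i h12 h13 h23 A u v (u + v) hne with h | h | h | h | h | h <;>
        rw [if_pos h] at * <;> linarith
    · rw [if_neg hne]
      linarith
  have e2 : ∑ A : ι → Fin N, ∑ u : Fin N, ∑ v : Fin N,
      (if FB M inst T l1 l3 A u (u + v) then (1 : ℝ) else 0) =
      ∑ A : ι → Fin N, ∑ u : Fin N, ∑ v : Fin N,
        (if FB M inst T l1 l3 A u v then (1 : ℝ) else 0) := by
    refine Finset.sum_congr rfl fun A _ => Finset.sum_congr rfl fun u _ => ?_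
    exact Equiv.sum_comp (Equiv.addLeft u)
      (fun v => if FB M inst T l1 l3 A u v then (1 : ℝ) else 0)
  have e3 : ∑ A : ι → Fin N, ∑ u : Fin N, ∑ v : Fin N,
      (if FB M inst T l2 l3 A v (u + v) then (1 : ℝ) else 0) =
      ∑ A : ι → Fin N, ∑ u : Fin N, ∑ v : Fin N,
        (if FB M inst T l2 l3 A u v then (1 : ℝ) else 0) := by
    refine Finset.sum_congr rfl fun A _ => ?_
    rw [Finset.sum_comm]
    refine Finset.sum_congr rfl fun v _ => ?_
    exact Equiv.sum_comp (Equiv.addRight v)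
      (fun u => if FB M inst T l2 l3 A v u then (1 : ℝ) else 0)
  have e4 : ∑ A : ι → Fin N, ∑ u : Fin N, ∑ _v : Fin N,
      (if K1 M inst T i l1 A u then (1 : ℝ) else 0) =
      N * (∑ A : ι → Fin N, ∑ u : Fin N, (if K1 M inst T i l1 A u then (1 : ℝ) else 0)) := by
    simp only [Finset.sum_const, Finset.card_univ, Fintype.card_fin, nsmul_eq_mul, Finset.mul_sum]
  have e5 : ∑ A : ι → Fin N, ∑ _u : Fin N, ∑ v : Fin N,
      (if K1 M inst T i l2 A v then (1 : ℝ) else 0) =
      N * (∑ A : ι → Fin N, ∑ u : Fin N, (if K1 M inst T i l2 A u then (1 : ℝ) else 0)) := by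
    simp only [Finset.sum_const, Finset.card_univ, Fintype.card_fin, nsmul_eq_mul, Finset.mul_sum]
  have e6 : ∑ A : ι → Fin N, ∑ u : Fin N, ∑ v : Fin N,
      (if K1 M inst T i l3 A (u + v) then (1 : ℝ) else 0) =
      N * (∑ A : ι → Fin N, ∑ u : Fin N, (if K1 M inst T i l3 A u then (1 : ℝ) else 0)) := by
    have : ∀ A : ι → Fin N, ∀ u : Fin N, ∑ v : Fin N,
        (if K1 M inst T i l3 A (u + v) then (1 : ℝ) else 0) =
        ∑ v : Fin N, (if K1 M inst T i l3 A v then (1 : ℝ) else 0) := fun A u =>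
      Equiv.sum_comp (Equiv.addLeft u) (fun v => if K1 M inst T i l3 A v then (1 : ℝ) else 0)
    simp only [this]
    simp only [Finset.sum_const, Finset.card_univ, Fintype.card_fin, nsmul_eq_mul, Finset.mul_sum]
  refine (Finset.sum_le_sum fun A _ => Finset.sum_le_sum fun u _ => Finset.sum_le_sum fun v _ =>
    h1 A u v).trans (le_of_eq ?_)
  simp only [Finset.sum_add_distrib]
  rw [e2, e3, e4, e5, e6]

/-- The total number of samples on which the chief sees the planted triple. -/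
theorem plant_count (M : Prog p S V) (inst : (ι → Fin N) → ℕ → V)
    (loc : ℕ → Option ι)
    (hloc : ∀ c A A', (∀ l ∈ loc c, A l = A' l) → inst A c = inst A' c)
    {q θ : ℝ} (hq0 : 0 < q) (hq1 : q < 1) (hθ : 1 ≤ θ) {w : ℕ} (hw : 1 ≤ w)
    (hW : (1 + 2 * (θ * q / (1 - q))) ^ (2 * w) ≤ 3 / 2) (T : ℕ) (i0 : Fin p) [NeZero N]
    {e0 e1 : Fin m → ι} {e2 : Fin m → Fin m → ι} (j0 : Function.Injective e0)
    (j1 : Function.Injective e1) (j2 : ∀ i, Function.Injective (e2 i))
    (j2' : ∀ j, Function.Injective fun i => e2 i j) (n01 : ∀ i j, e0 i ≠ e1 j)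
    (n02 : ∀ i j, e0 i ≠ e2 i j) (n12 : ∀ i j, e1 j ≠ e2 i j) :
    ∑ i : Fin m, ∑ j : Fin m, ∑ A : ι → Fin N, ∑ u : Fin N, ∑ v : Fin N,
      (if M.st (inst A) T i0 ≠
        M.st (inst (cube A (e0 i) (e1 j) (e2 i j) u v (u + v) true true true)) T i0
        then (1 : ℝ) else 0) ≤
    (Fintype.card (ι → Fin N) : ℝ) * (N : ℝ) ^ 2 *
      (12 * ((1 / q) ^ (2 * T) * (T * p * w ^ 2 +
        3 * (Fintype.card ι) ^ 2 * (T * (p * (2 / θ ^ w))))) +
      3 * m * ((1 / q) ^ T * (w + 2 * Fintype.card ι *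
        (T * (p * (2 / θ ^ w)))))) := by
  set Z : ℝ := (Fintype.card (ι → Fin N) : ℝ) with hZ
  set R2 : ℝ := (1 / q) ^ (2 * T) * (T * p * w ^ 2 +
        3 * (Fintype.card ι) ^ 2 * (T * (p * (2 / θ ^ w)))) with hR2
  set R1 : ℝ := (1 / q) ^ T * (w + 2 * Fintype.card ι *
        (T * (p * (2 / θ ^ w)))) with hR1
  set P : ι → ι → ℝ := fun l1 l2 => ∑ A : ι → Fin N,
    ∑ u : Fin N, ∑ v : Fin N, (if FB M inst T l1 l2 A u v then (1 : ℝ) else 0) with hP
  set Q : ι → ℝ := fun l => ∑ A : ι → Fin N,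
    ∑ u : Fin N, (if K1 M inst T i0 l A u then (1 : ℝ) else 0) with hQ
  have nn : ∀ P : Prop, (0 : ℝ) ≤ (if P then (1 : ℝ) else 0) := by
    intro P
    split_ifs <;> norm_num
  have hP0 : ∀ l1 l2, 0 ≤ P l1 l2 := fun l1 l2 =>
    Finset.sum_nonneg fun A _ => Finset.sum_nonneg fun u _ => Finset.sum_nonneg fun v _ => nn _
  have hQ0 : ∀ l, 0 ≤ Q l := fun l =>
    Finset.sum_nonneg fun A _ => Finset.sum_nonneg fun u _ => nn _
  have hpairs : ∑ x : {x : ι × ι // x.1 ≠ x.2}, P x.1.1 x.1.2 ≤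
      4 * (Z * (N : ℝ) ^ 2 * R2) := by
    have h1 : ∀ x : {x : ι × ι // x.1 ≠ x.2}, P x.1.1 x.1.2 ≤
        4 * ∑ A : ι → Fin N, ∑ v1 : Fin N, ∑ v2 : Fin N,
          (if K2 M inst T x.1.1 x.1.2 A v1 v2 then (1 : ℝ) else 0) :=
      fun x => fb_sum M inst T x.2
    refine (Finset.sum_le_sum fun x _ => h1 x).trans ?_
    rw [← Finset.mul_sum]
    have h2 := vec_pairs M inst loc hloc hq0 hq1 hθ hw hW T
    rw [Fintype.card_fin] at h2
    exact mul_le_mul_of_nonneg_left h2 (by norm_num)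
  have hsing : ∑ l : ι, Q l ≤ Z * N * R1 := by
    have h2 := vec_singles M inst loc hloc hq0 hq1 hθ hw hW T i0
    rw [Fintype.card_fin] at h2
    exact h2
  have b01 : ∑ i : Fin m, ∑ j : Fin m, P (e0 i) (e1 j) ≤ 4 * (Z * (N : ℝ) ^ 2 * R2) := by
    refine le_trans ?_ hpairs
    rw [← Finset.sum_product']
    refine sum_inj (α := Fin m × Fin m)
      (fun z => (⟨(e0 z.1, e1 z.2), n01 _ _⟩ : {x : ι × ι // x.1 ≠ x.2}))
      (fun z z' h => ?_) (fun x => P x.1.1 x.1.2) (fun x => hP0 _ _)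
    have h := Prod.ext_iff.1 (Subtype.ext_iff.1 h)
    exact Prod.ext (j0 h.1) (j1 h.2)
  have b02 : ∑ i : Fin m, ∑ j : Fin m, P (e0 i) (e2 i j) ≤ 4 * (Z * (N : ℝ) ^ 2 * R2) := by
    refine le_trans ?_ hpairs
    rw [← Finset.sum_product']
    refine sum_inj (α := Fin m × Fin m)
      (fun z => (⟨(e0 z.1, e2 z.1 z.2), n02 _ _⟩ : {x : ι × ι // x.1 ≠ x.2}))
      (fun z z' h => ?_) (fun x => P x.1.1 x.1.2) (fun x => hP0 _ _)
    have h := Prod.ext_iff.1 (Subtype.ext_iff.1 h)
    have h1 : z.1 = z'.1 := j0 h.1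
    have h2 : e2 z.1 z.2 = e2 z'.1 z'.2 := h.2
    rw [h1] at h2
    exact Prod.ext h1 (j2 _ h2)
  have b12 : ∑ i : Fin m, ∑ j : Fin m, P (e1 j) (e2 i j) ≤ 4 * (Z * (N : ℝ) ^ 2 * R2) := by
    refine le_trans ?_ hpairs
    rw [← Finset.sum_product']
    refine sum_inj (α := Fin m × Fin m)
      (fun z => (⟨(e1 z.2, e2 z.1 z.2), n12 _ _⟩ : {x : ι × ι // x.1 ≠ x.2}))
      (fun z z' h => ?_) (fun x => P x.1.1 x.1.2) (fun x => hP0 _ _)
    have h := Prod.ext_iff.1 (Subtype.ext_iff.1 h)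
    have h1 : z.2 = z'.2 := j1 h.1
    have h2 : e2 z.1 z.2 = e2 z'.1 z'.2 := h.2
    rw [h1] at h2
    exact Prod.ext (j2' _ h2) h1
  have c0 : ∀ e : Fin m → ι, Function.Injective e → ∑ i : Fin m, Q (e i) ≤ Z * N * R1 :=
    fun e he => (sum_inj e he Q hQ0).trans hsing
  have step : ∀ i j : Fin m, ∑ A : ι → Fin N, ∑ u : Fin N, ∑ v : Fin N,
      (if M.st (inst A) T i0 ≠
        M.st (inst (cube A (e0 i) (e1 j) (e2 i j) u v (u + v) true true true)) T i0
        then (1 : ℝ) else 0) ≤ P (e0 i) (e1 j) + P (e0 i) (e2 i j) + P (e1 j) (e2 i j) +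
        N * Q (e0 i) + N * Q (e1 j) + N * Q (e2 i j) := fun i j =>
    one_place M inst loc hloc T i0 (n01 i j) (n02 i j) (n12 i j)
  refine (Finset.sum_le_sum fun i _ => Finset.sum_le_sum fun j _ => step i j).trans ?_
  have hm0 : (0 : ℝ) ≤ m := Nat.cast_nonneg m
  have hN0 : (0 : ℝ) ≤ N := Nat.cast_nonneg N
  have f0 : ∑ i : Fin m, ∑ _j : Fin m, (N : ℝ) * Q (e0 i) ≤ m * (N * (Z * N * R1)) := by
    rw [Finset.sum_comm, Finset.sum_const, Finset.card_univ, Fintype.card_fin, nsmul_eq_mul,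
      ← Finset.mul_sum]
    exact mul_le_mul_of_nonneg_left (mul_le_mul_of_nonneg_left (c0 e0 j0) hN0) hm0
  have f1 : ∑ _i : Fin m, ∑ j : Fin m, (N : ℝ) * Q (e1 j) ≤ m * (N * (Z * N * R1)) := by
    rw [Finset.sum_const, Finset.card_univ, Fintype.card_fin, nsmul_eq_mul, ← Finset.mul_sum]
    exact mul_le_mul_of_nonneg_left (mul_le_mul_of_nonneg_left (c0 e1 j1) hN0) hm0
  have f2 : ∑ i : Fin m, ∑ j : Fin m, (N : ℝ) * Q (e2 i j) ≤ m * (N * (Z * N * R1)) := by
    have : ∀ i : Fin m, ∑ j : Fin m, (N : ℝ) * Q (e2 i j) ≤ N * (Z * N * R1) := by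
      intro i
      rw [← Finset.mul_sum]
      exact mul_le_mul_of_nonneg_left (c0 (e2 i) (j2 i)) hN0
    refine (Finset.sum_le_sum fun i _ => this i).trans (le_of_eq ?_)
    rw [Finset.sum_const, Finset.card_univ, Fintype.card_fin, nsmul_eq_mul]
  simp only [Finset.sum_add_distrib]
  refine (add_le_add (add_le_add (add_le_add (add_le_add (add_le_add b01 b02) b12) f0) f1)
    f2).trans (le_of_eq ?_)
  ring

end count

end PR16
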