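import Mathlib
import Pool.Agent.PR16.Plant2
import Pool.Agent.PR16.Inst

/-!
# Averaging
-/

namespace PR16

open Classical

variable {ι : Type} [DecidableEq ι] [Fintype ι] {p m L n : ℕ} {S V : Type}

theorem coin [NeZero L] {l1 l2 l3 : ι} (h1 : l1 ≠ l3) (h2 : l2 ≠ l3) :
    (L : ℝ) * ∑ A : ι → Fin L, (if A l3 = A l1 + A l2 then (1 : ℝ) else 0) =
      (Fintype.card (ι → Fin L) : ℝ) := by
  have h := sum_sw l3 (fun (A : ι → Fin L) (v : Fin L) =>
    if v = A l1 + A l2 then (1 : ℝ) else 0)
  simp only [Function.update_of_ne h1, Function.update_of_ne h2] at h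
  rw [Finset.mul_sum]
  have e1 : ∀ A : ι → Fin L, ∑ v : Fin L, (if v = A l1 + A l2 then (1 : ℝ) else 0) = 1 := by
    intro A
    rw [Finset.sum_ite_eq' Finset.univ (A l1 + A l2) (fun _ => (1 : ℝ))]
    simp
  rw [Finset.sum_congr rfl fun A _ => e1 A] at h
  rw [Finset.sum_const, Finset.card_univ, nsmul_eq_mul, mul_one] at h
  rw [h]
  refine Finset.sum_congr rfl fun A _ => ?_
  rw [Finset.sum_const, Finset.card_univ, Fintype.card_fin, nsmul_eq_mul]

theorem half : (L : ℝ) ^ 2 ≤
    2 * ∑ u : Fin L, ∑ v : Fin L, (if u.val + v.val < L then (1 : ℝ) else 0) := by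
  have e : ∑ u : Fin L, ∑ v : Fin L, (if u.val + v.val < L then (1 : ℝ) else 0) =
      ∑ u : Fin L, ∑ v : Fin L, (if (Fin.rev u).val + (Fin.rev v).val < L then (1 : ℝ) else 0) := by
    rw [← Equiv.sum_comp (Fin.revPerm : Equiv.Perm (Fin L))]
    refine Finset.sum_congr rfl fun u _ => ?_
    rw [← Equiv.sum_comp (Fin.revPerm : Equiv.Perm (Fin L))]
    rfl
  rw [two_mul]
  nth_rw 2 [e]
  rw [← Finset.sum_add_distrib]
  have h1 : ∀ u v : Fin L, (1 : ℝ) ≤ (if u.val + v.val < L then (1 : ℝ) else 0) +
      (if (Fin.rev u).val + (Fin.rev v).val < L then (1 : ℝ) else 0) := by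
    intro u v
    have hu := u.isLt
    have hv := v.isLt
    by_cases h : u.val + v.val < L
    · rw [if_pos h]
      split_ifs <;> norm_num
    · have h2 : (Fin.rev u).val + (Fin.rev v).val < L := by
        rw [Fin.val_rev, Fin.val_rev]
        omega
      rw [if_neg h, if_pos h2]
      norm_num
  calc (L : ℝ) ^ 2 = ∑ _u : Fin L, ∑ _v : Fin L, (1 : ℝ) := by
        simp only [Finset.sum_const, Finset.card_univ, Fintype.card_fin, nsmul_eq_mul, mul_one]
        ring
    _ ≤ _ := by
        refine Finset.sum_le_sum fun u _ => ?_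
        rw [← Finset.sum_add_distrib]
        exact Finset.sum_le_sum fun v _ => h1 u v

/-- The weight of the vectors whose array has a triple. -/
theorem three_count [NeZero L] (n : ℕ) :
    (L : ℝ) * ∑ A : Fin (4 * m) → Fin L,
      (if HasThreeSum (fun c : Fin n => val m L A c) then (1 : ℝ) else 0) ≤
      2 * m ^ 2 * (Fintype.card (Fin (4 * m) → Fin L) : ℝ) := by
  have nn : ∀ (P : Prop) [Decidable P], (0 : ℝ) ≤ (if P then (1 : ℝ) else 0) := by
    intro P _
    split_ifs <;> norm_num
  have h1 : ∀ A : Fin (4 * m) → Fin L,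
      (if HasThreeSum (fun c : Fin n => val m L A c) then (1 : ℝ) else 0) ≤
      ∑ i : Fin m, ∑ j : Fin m, ((if A (e2 m i j) = A (e0 m i) + A (e1 m j) then (1 : ℝ) else 0) +
        (if A (e3 m i j) = A (e0 m i) + A (e1 m j) then (1 : ℝ) else 0)) := by
    intro A
    have hnn : ∀ i j : Fin m, (0 : ℝ) ≤
        (if A (e2 m i j) = A (e0 m i) + A (e1 m j) then (1 : ℝ) else 0) +
        (if A (e3 m i j) = A (e0 m i) + A (e1 m j) then (1 : ℝ) else 0) :=
      fun i j => add_nonneg (nn _) (nn _)
    by_cases h : HasThreeSum (fun c : Fin n => val m L A c)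
    · rw [if_pos h]
      obtain ⟨i, j, hij⟩ := three_imp A h
      refine le_trans ?_ (Finset.single_le_sum (f := fun i => ∑ j : Fin m,
        ((if A (e2 m i j) = A (e0 m i) + A (e1 m j) then (1 : ℝ) else 0) +
        (if A (e3 m i j) = A (e0 m i) + A (e1 m j) then (1 : ℝ) else 0)))
        (fun i _ => Finset.sum_nonneg fun j _ => hnn i j) (Finset.mem_univ i))
      refine le_trans ?_ (Finset.single_le_sum (f := fun j =>
        ((if A (e2 m i j) = A (e0 m i) + A (e1 m j) then (1 : ℝ) else 0) +
        (if A (e3 m i j) = A (e0 m i) + A (e1 m j) then (1 : ℝ) else 0)))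
        (fun j _ => hnn i j) (Finset.mem_univ j))
      rcases hij with hij | hij
      · rw [if_pos hij]
        linarith [nn (A (e3 m i j) = A (e0 m i) + A (e1 m j))]
      · rw [if_pos hij]
        linarith [nn (A (e2 m i j) = A (e0 m i) + A (e1 m j))]
    · rw [if_neg h]
      exact Finset.sum_nonneg fun i _ => Finset.sum_nonneg fun j _ => hnn i j
  have n02 : ∀ i j : Fin m, e0 m i ≠ e2 m i j := by
    intro i j h
    have := Fin.ext_iff.1 h
    simp only [e0, e2] at this
    omega
  have n12 : ∀ i j : Fin m, e1 m j ≠ e2 m i j := by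
    intro i j h
    have := Fin.ext_iff.1 h
    simp only [e1, e2] at this
    omega
  have n03 : ∀ i j : Fin m, e0 m i ≠ e3 m i j := by
    intro i j h
    have := Fin.ext_iff.1 h
    simp only [e0, e3] at this
    omega
  have n13 : ∀ i j : Fin m, e1 m j ≠ e3 m i j := by
    intro i j h
    have := Fin.ext_iff.1 h
    simp only [e1, e3] at this
    omega
  calc _ ≤ (L : ℝ) * ∑ A : Fin (4 * m) → Fin L, ∑ i : Fin m, ∑ j : Fin m,
      ((if A (e2 m i j) = A (e0 m i) + A (e1 m j) then (1 : ℝ) else 0) +
        (if A (e3 m i j) = A (e0 m i) + A (e1 m j) then (1 : ℝ) else 0)) :=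
        mul_le_mul_of_nonneg_left (Finset.sum_le_sum fun A _ => h1 A) (Nat.cast_nonneg L)
    _ = ∑ i : Fin m, ∑ j : Fin m,
        ((L : ℝ) * ∑ A : Fin (4 * m) → Fin L,
          (if A (e2 m i j) = A (e0 m i) + A (e1 m j) then (1 : ℝ) else 0) +
        (L : ℝ) * ∑ A : Fin (4 * m) → Fin L,
          (if A (e3 m i j) = A (e0 m i) + A (e1 m j) then (1 : ℝ) else 0)) := by
        rw [Finset.sum_comm, Finset.mul_sum]
        refine Finset.sum_congr rfl fun i _ => ?_
        rw [Finset.sum_comm, Finset.mul_sum]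
        refine Finset.sum_congr rfl fun j _ => ?_
        rw [Finset.sum_add_distrib, mul_add]
    _ = ∑ _i : Fin m, ∑ _j : Fin m, (2 * (Fintype.card (Fin (4 * m) → Fin L) : ℝ)) := by
        refine Finset.sum_congr rfl fun i _ => Finset.sum_congr rfl fun j _ => ?_
        have a1 := coin (L := L) (n02 i j) (n12 i j)
        have a2 := coin (L := L) (n03 i j) (n13 i j)
        have b1 : (L : ℝ) * ∑ A : Fin (4 * m) → Fin L,
          (if A (e2 m i j) = A (e0 m i) + A (e1 m j) then (1 : ℝ) else 0) =
          (Fintype.card (Fin (4 * m) → Fin L) : ℝ) := a1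
        have b2 : (L : ℝ) * ∑ A : Fin (4 * m) → Fin L,
          (if A (e3 m i j) = A (e0 m i) + A (e1 m j) then (1 : ℝ) else 0) =
          (Fintype.card (Fin (4 * m) → Fin L) : ℝ) := a2
        rw [b1, b2]
        ring
    _ = _ := by
        simp only [Finset.sum_const, Finset.card_univ, Fintype.card_fin, nsmul_eq_mul]
        ring

/-- A parallel machine for arrays of `n` integers: the program, the content of the input cell `i`
when the number is given, the contents of the other cells, the processor whose state after the last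
step tells the answer. -/
structure Machine (n p : ℕ) (S V : Type) extends Prog p S V where
  input : Fin n → ℤ → V
  blank : ℕ → V
  chief : Fin p
  accept : S → Bool

/-- The contents of the cells at the beginning: the cells `0, …, n - 1` hold the input. -/
def Machine.mem0 (M : Machine n p S V) (x : Fin n → ℤ) (c : ℕ) : V :=
  if h : c < n then M.input ⟨c, h⟩ (x ⟨c, h⟩) else M.blank c

/-- The answer after `T` steps. -/
def Machine.answer (M : Machine n p S V) (x : Fin n → ℤ) (T : ℕ) : Bool :=
  M.accept (M.toProg.st (M.mem0 x) T M.chief)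

/-- The number of the vector entry in cell `c`. -/
def loc (m : ℕ) (c : ℕ) : Option (Fin (4 * m)) := if h : c < 4 * m then some ⟨c, h⟩ else none

theorem loc_spec (M : Machine n p S V) (c : ℕ) (A A' : Fin (4 * m) → Fin L)
    (h : ∀ l ∈ loc m c, A l = A' l) :
    M.mem0 (fun c : Fin n => val m L A c) c = M.mem0 (fun c : Fin n => val m L A' c) c := by
  have hv : val m L A c = val m L A' c := by
    unfold val
    by_cases hc : c < 4 * m
    · have : A ⟨c, hc⟩ = A' ⟨c, hc⟩ := by
        refine h _ ?_
        unfold loc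
        rw [dif_pos hc]
        rfl
      rw [dif_pos hc, dif_pos hc, this]
    · rw [dif_neg hc, dif_neg hc]
  unfold Machine.mem0
  by_cases hc : c < n
  · rw [dif_pos hc, dif_pos hc]
    dsimp only
    rw [hv]
  · rw [dif_neg hc, dif_neg hc]

end PR16
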