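import Mathlib
import Pool.Agent.PR16.Avg

/-!
# Averaging over the machine and the samples
-/

namespace PR16

open Classical

variable {p m L n : ℕ} {S V : Type}

theorem e0_inj : Function.Injective (e0 m) := by
  intro i j h
  have := Fin.ext_iff.1 h
  simp only [e0] at this
  exact Fin.ext this

theorem e1_inj : Function.Injective (e1 m) := by
  intro i j h
  have := Fin.ext_iff.1 h
  simp only [e1] at this
  exact Fin.ext (by omega)

theorem e2_inj (i : Fin m) : Function.Injective (e2 m i) := by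
  intro j j' h
  have := Fin.ext_iff.1 h
  simp only [e2] at this
  exact Fin.ext (by omega)

theorem e2_inj' (j : Fin m) : Function.Injective (fun i => e2 m i j) := by
  intro i i' h
  have := Fin.ext_iff.1 h
  simp only [e2] at this
  exact Fin.ext (by omega)

theorem ne01 (i j : Fin m) : e0 m i ≠ e1 m j := by
  intro h
  have := Fin.ext_iff.1 h
  simp only [e0, e1] at this
  omega

theorem ne02 (i j : Fin m) : e0 m i ≠ e2 m i j := by
  intro h
  have := Fin.ext_iff.1 h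
  simp only [e0, e2] at this
  omega

theorem ne12 (i j : Fin m) : e1 m j ≠ e2 m i j := by
  intro h
  have := Fin.ext_iff.1 h
  simp only [e1, e2] at this
  omega

/-- One sample. -/
theorem one_sample {Ω : Type} [Fintype Ω] (M : Ω → Machine n p S V) (μ : Ω → ℝ)
    (hμ0 : ∀ ω, 0 ≤ μ ω) (hμ1 : ∑ ω, μ ω = 1) (T : ℕ)
    (hcorr : ∀ x : Fin n → ℤ, StrictMono x → (∀ i, |x i| ≤ (n : ℤ) ^ 3) →
      (2 / 3 : ℝ) ≤ ∑ ω, if ((M ω).answer x T = true ↔ HasThreeSum x) then μ ω else 0)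
    (hm : 4 * m ≤ n) (hn : 16 * (2 * m * L + n) + 11 ≤ n ^ 3) [NeZero L]
    (i j : Fin m) (A : Fin (4 * m) → Fin L) (u v : Fin L) (huv : u.val + v.val < L) :
    (1 / 3 : ℝ) ≤ ∑ ω, μ ω * (if (M ω).toProg.st ((M ω).mem0 (fun c : Fin n => val m L A c)) T
        (M ω).chief ≠ (M ω).toProg.st ((M ω).mem0 (fun c : Fin n => val m L
          (cube A (e0 m i) (e1 m j) (e2 m i j) u v (u + v) true true true) c)) T (M ω).chief
        then (1 : ℝ) else 0) +
      (if HasThreeSum (fun c : Fin n => val m L A c) then (1 : ℝ) else 0) := by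
  set B : Fin (4 * m) → Fin L := cube A (e0 m i) (e1 m j) (e2 m i j) u v (u + v) true true true
    with hB
  have nn : ∀ (P : Prop) [Decidable P], (0 : ℝ) ≤ (if P then (1 : ℝ) else 0) := by
    intro P _
    split_ifs <;> norm_num
  have hs0 : 0 ≤ ∑ ω, μ ω * (if (M ω).toProg.st ((M ω).mem0 (fun c : Fin n => val m L A c)) T
        (M ω).chief ≠ (M ω).toProg.st ((M ω).mem0 (fun c : Fin n => val m L B c)) T (M ω).chief
        then (1 : ℝ) else 0) :=
    Finset.sum_nonneg fun ω _ => mul_nonneg (hμ0 ω) (nn _)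
  by_cases h3 : HasThreeSum (fun c : Fin n => val m L A c)
  · rw [if_pos h3]
    linarith
  rw [if_neg h3, add_zero]
  have mono : ∀ C : Fin (4 * m) → Fin L, StrictMono (fun c : Fin n => val m L C c) :=
    fun C a b hab => val_lt C hab
  have bd : ∀ C : Fin (4 * m) → Fin L, ∀ c : Fin n, |(fun c : Fin n => val m L C c) c| ≤
      (n : ℤ) ^ 3 := fun C c => val_abs C hn c.isLt
  have cA := hcorr _ (mono A) (bd A)
  have cB := hcorr _ (mono B) (bd B)
  have hB3 : HasThreeSum (fun c : Fin n => val m L B c) := by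
    refine three_planted B hm i j ?_
    have b0 : B (e0 m i) = u := by simp [hB, cube]
    have b1 : B (e1 m j) = v := by simp [hB, cube, (ne01 i j).symm]
    have b2 : B (e2 m i j) = u + v := by simp [hB, cube, (ne02 i j).symm, (ne12 i j).symm]
    rw [b0, b1, b2, Fin.val_add, Nat.mod_eq_of_lt huv]
  have key : ∀ ω, (if ((M ω).answer (fun c : Fin n => val m L A c) T = true ↔
      HasThreeSum (fun c : Fin n => val m L A c)) then μ ω else 0) +
      (if ((M ω).answer (fun c : Fin n => val m L B c) T = true ↔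
      HasThreeSum (fun c : Fin n => val m L B c)) then μ ω else 0) ≤
      μ ω + μ ω * (if (M ω).toProg.st ((M ω).mem0 (fun c : Fin n => val m L A c)) T
        (M ω).chief ≠ (M ω).toProg.st ((M ω).mem0 (fun c : Fin n => val m L B c)) T (M ω).chief
        then (1 : ℝ) else 0) := by
    intro ω
    have h0 := hμ0 ω
    by_cases hne : (M ω).toProg.st ((M ω).mem0 (fun c : Fin n => val m L A c)) T
        (M ω).chief ≠ (M ω).toProg.st ((M ω).mem0 (fun c : Fin n => val m L B c)) T (M ω).chief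
    · rw [if_pos hne]
      split_ifs <;> linarith
    · rw [if_neg hne]
      rw [not_not] at hne
      have hans : (M ω).answer (fun c : Fin n => val m L A c) T =
          (M ω).answer (fun c : Fin n => val m L B c) T := by
        unfold Machine.answer
        rw [hne]
      have e1 : ¬ (((M ω).answer (fun c : Fin n => val m L A c) T = true ↔
          HasThreeSum (fun c : Fin n => val m L A c)) ∧
          ((M ω).answer (fun c : Fin n => val m L B c) T = true ↔
          HasThreeSum (fun c : Fin n => val m L B c))) := by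
        rintro ⟨g1, g2⟩
        exact h3 (g1.1 (hans ▸ (g2.2 hB3)))
      split_ifs with g1 g2 g2
      · exact absurd ⟨g1, g2⟩ e1
      · linarith
      · linarith
      · linarith
  have tot := Finset.sum_le_sum fun ω (_ : ω ∈ Finset.univ) => key ω
  rw [Finset.sum_add_distrib, Finset.sum_add_distrib, hμ1] at tot
  have cA' : (2 / 3 : ℝ) ≤ ∑ ω, if ((M ω).answer (fun c : Fin n => val m L A c) T = true ↔
      HasThreeSum (fun c : Fin n => val m L A c)) then μ ω else 0 := by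
    convert cA
  have cB' : (2 / 3 : ℝ) ≤ ∑ ω, if ((M ω).answer (fun c : Fin n => val m L B c) T = true ↔
      HasThreeSum (fun c : Fin n => val m L B c)) then μ ω else 0 := by
    convert cB
  linarith

/-- The sum over all samples. -/
theorem avg {Ω : Type} [Fintype Ω] (M : Ω → Machine n p S V) (μ : Ω → ℝ)
    (hμ0 : ∀ ω, 0 ≤ μ ω) (hμ1 : ∑ ω, μ ω = 1) (T : ℕ)
    (hcorr : ∀ x : Fin n → ℤ, StrictMono x → (∀ i, |x i| ≤ (n : ℤ) ^ 3) →
      (2 / 3 : ℝ) ≤ ∑ ω, if ((M ω).answer x T = true ↔ HasThreeSum x) then μ ω else 0)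
    (hm : 4 * m ≤ n) (hn : 16 * (2 * m * L + n) + 11 ≤ n ^ 3) [NeZero L]
    {q θ : ℝ} (hq0 : 0 < q) (hq1 : q < 1) (hθ : 1 ≤ θ) {w : ℕ} (hw : 1 ≤ w)
    (hW : (1 + 2 * (θ * q / (1 - q))) ^ (2 * w) ≤ 3 / 2) :
    (m : ℝ) ^ 2 / 3 ≤ 24 * ((1 / q) ^ (2 * T) * (T * p * w ^ 2 +
        3 * (4 * m) ^ 2 * (T * (p * (2 / θ ^ w))))) +
      6 * m * ((1 / q) ^ T * (w + 2 * (4 * m) * (T * (p * (2 / θ ^ w))))) +
      2 * m ^ 4 / L := by
  set Z : ℝ := (Fintype.card (Fin (4 * m) → Fin L) : ℝ) with hZ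
  set R : ℝ := 12 * ((1 / q) ^ (2 * T) * (T * p * w ^ 2 +
        3 * (4 * m) ^ 2 * (T * (p * (2 / θ ^ w))))) +
      3 * m * ((1 / q) ^ T * (w + 2 * (4 * m) * (T * (p * (2 / θ ^ w))))) with hR
  set K : ℝ := ∑ u : Fin L, ∑ v : Fin L, (if u.val + v.val < L then (1 : ℝ) else 0) with hK
  have nn : ∀ (P : Prop) [Decidable P], (0 : ℝ) ≤ (if P then (1 : ℝ) else 0) := by
    intro P _
    split_ifs <;> norm_num
  have hL0 : (0 : ℝ) < L := by
    have := NeZero.pos L
    exact_mod_cast this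
  have hZ0 : 0 < Z := by
    rw [hZ]
    have : 0 < Fintype.card (Fin (4 * m) → Fin L) := Fintype.card_pos_iff.2 ⟨fun _ => 0⟩
    exact_mod_cast this
  have hK2 : (L : ℝ) ^ 2 ≤ 2 * K := half
  have hK0 : 0 < K := by
    have : (0 : ℝ) < (L : ℝ) ^ 2 := by positivity
    linarith
  -- the weight of the bad samples for one machine
  set f : Ω → Fin m → Fin m → (Fin (4 * m) → Fin L) → Fin L → Fin L → ℝ := fun ω i j A u v =>
    (if (M ω).toProg.st ((M ω).mem0 (fun c : Fin n => val m L A c)) T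
        (M ω).chief ≠ (M ω).toProg.st ((M ω).mem0 (fun c : Fin n => val m L
          (cube A (e0 m i) (e1 m j) (e2 m i j) u v (u + v) true true true) c)) T (M ω).chief
        then (1 : ℝ) else 0) with hf
  have hf0 : ∀ ω i j A u v, 0 ≤ f ω i j A u v := fun ω i j A u v => nn _
  have h1 : ∀ ω, ∑ i, ∑ j, ∑ A, ∑ u, ∑ v, f ω i j A u v ≤ Z * (L : ℝ) ^ 2 * R := by
    intro ω
    have := plant_count (M ω).toProg
      (fun A : Fin (4 * m) → Fin L => (M ω).mem0 (fun c : Fin n => val m L A c)) (loc m)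
      (fun c A A' h => loc_spec (M ω) c A A' h) hq0 hq1 hθ hw hW T (M ω).chief
      (e0_inj (m := m)) e1_inj e2_inj e2_inj' ne01 ne02 ne12
    have hc : (Fintype.card (Fin (4 * m)) : ℝ) = 4 * m := by
      rw [Fintype.card_fin]
      push_cast
      rfl
    rw [hc] at this
    exact this
  -- one sample
  set g : (Fin (4 * m) → Fin L) → ℝ := fun A =>
    (if HasThreeSum (fun c : Fin n => val m L A c) then (1 : ℝ) else 0) with hg
  have hg0 : ∀ A, 0 ≤ g A := fun A => nn _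
  have h2 : ∀ (i j : Fin m) (A : Fin (4 * m) → Fin L) (u v : Fin L),
      (1 / 3 : ℝ) * (if u.val + v.val < L then (1 : ℝ) else 0) ≤
      ∑ ω, μ ω * f ω i j A u v + g A * (if u.val + v.val < L then (1 : ℝ) else 0) := by
    intro i j A u v
    have hs : 0 ≤ ∑ ω, μ ω * f ω i j A u v :=
      Finset.sum_nonneg fun ω _ => mul_nonneg (hμ0 ω) (hf0 _ _ _ _ _ _)
    by_cases h : u.val + v.val < L
    · rw [if_pos h, mul_one, mul_one]
      exact one_sample M μ hμ0 hμ1 T hcorr hm hn i j A u v h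
    · rw [if_neg h, mul_zero, mul_zero, add_zero]
      exact hs
  have h3 : ∑ _i : Fin m, ∑ _j : Fin m, ∑ _A : Fin (4 * m) → Fin L, ∑ u : Fin L, ∑ v : Fin L,
      (1 / 3 : ℝ) * (if u.val + v.val < L then (1 : ℝ) else 0) ≤
      ∑ i : Fin m, ∑ j : Fin m, ∑ A : Fin (4 * m) → Fin L, ∑ u : Fin L, ∑ v : Fin L,
      (∑ ω, μ ω * f ω i j A u v + g A * (if u.val + v.val < L then (1 : ℝ) else 0)) :=
    Finset.sum_le_sum fun i _ => Finset.sum_le_sum fun j _ => Finset.sum_le_sum fun A _ =>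
      Finset.sum_le_sum fun u _ => Finset.sum_le_sum fun v _ => h2 i j A u v
  have h4 : ∑ _i : Fin m, ∑ _j : Fin m, ∑ _A : Fin (4 * m) → Fin L, ∑ u : Fin L, ∑ v : Fin L,
      (1 / 3 : ℝ) * (if u.val + v.val < L then (1 : ℝ) else 0) = m ^ 2 * (Z * (K / 3)) := by
    simp only [← Finset.mul_sum, Finset.sum_const, Finset.card_univ, Fintype.card_fin,
      nsmul_eq_mul]
    rw [← hK, ← hZ]
    ring
  have h5 : ∑ i : Fin m, ∑ j : Fin m, ∑ A : Fin (4 * m) → Fin L, ∑ u : Fin L, ∑ v : Fin L,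
      (∑ ω, μ ω * f ω i j A u v + g A * (if u.val + v.val < L then (1 : ℝ) else 0)) =
      ∑ ω, μ ω * (∑ i, ∑ j, ∑ A, ∑ u, ∑ v, f ω i j A u v) + m ^ 2 * ((∑ A, g A) * K) := by
    simp only [Finset.sum_add_distrib]
    congr 1
    · have c1 : ∀ (i j : Fin m) (A : Fin (4 * m) → Fin L) (u : Fin L),
          ∑ v, ∑ ω, μ ω * f ω i j A u v = ∑ ω, μ ω * ∑ v, f ω i j A u v := by
        intro i j A u
        rw [Finset.sum_comm]
        exact Finset.sum_congr rfl fun ω _ => (Finset.mul_sum _ _ _).symm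
      have c2 : ∀ (i j : Fin m) (A : Fin (4 * m) → Fin L),
          ∑ u, ∑ v, ∑ ω, μ ω * f ω i j A u v = ∑ ω, μ ω * ∑ u, ∑ v, f ω i j A u v := by
        intro i j A
        simp only [c1]
        rw [Finset.sum_comm]
        exact Finset.sum_congr rfl fun ω _ => (Finset.mul_sum _ _ _).symm
      have c3 : ∀ (i j : Fin m),
          ∑ A, ∑ u, ∑ v, ∑ ω, μ ω * f ω i j A u v = ∑ ω, μ ω * ∑ A, ∑ u, ∑ v, f ω i j A u v := by
        intro i j
        simp only [c2]
        rw [Finset.sum_comm]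
        exact Finset.sum_congr rfl fun ω _ => (Finset.mul_sum _ _ _).symm
      have c4 : ∀ (i : Fin m),
          ∑ j, ∑ A, ∑ u, ∑ v, ∑ ω, μ ω * f ω i j A u v =
          ∑ ω, μ ω * ∑ j, ∑ A, ∑ u, ∑ v, f ω i j A u v := by
        intro i
        simp only [c3]
        rw [Finset.sum_comm]
        exact Finset.sum_congr rfl fun ω _ => (Finset.mul_sum _ _ _).symm
      simp only [c4]
      rw [Finset.sum_comm]
      exact Finset.sum_congr rfl fun ω _ => (Finset.mul_sum _ _ _).symm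
    · simp only [← Finset.mul_sum, Finset.sum_const, Finset.card_univ, Fintype.card_fin,
        nsmul_eq_mul]
      rw [← Finset.sum_mul, ← hK]
      ring
  have h6 : ∑ ω, μ ω * (∑ i, ∑ j, ∑ A, ∑ u, ∑ v, f ω i j A u v) ≤ Z * (L : ℝ) ^ 2 * R := by
    calc _ ≤ ∑ ω, μ ω * (Z * (L : ℝ) ^ 2 * R) :=
          Finset.sum_le_sum fun ω _ => mul_le_mul_of_nonneg_left (h1 ω) (hμ0 ω)
      _ = _ := by rw [← Finset.sum_mul, hμ1, one_mul]
  have h7 : (L : ℝ) * ∑ A, g A ≤ 2 * m ^ 2 * Z := three_count (m := m) (L := L) n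
  have hR0 : 0 ≤ R := by
    have : (0 : ℝ) < θ := by linarith
    positivity
  have h8 : (m : ℝ) ^ 2 * (Z * (K / 3)) ≤ Z * (2 * K) * R + m ^ 2 * ((2 * m ^ 2 * Z / L) * K) := by
    have a1 : Z * (L : ℝ) ^ 2 * R ≤ Z * (2 * K) * R :=
      mul_le_mul_of_nonneg_right (mul_le_mul_of_nonneg_left hK2 hZ0.le) hR0
    have a2 : ∑ A, g A ≤ 2 * m ^ 2 * Z / L := by
      rw [le_div_iff₀ hL0]
      linarith
    have a3 : (m : ℝ) ^ 2 * ((∑ A, g A) * K) ≤ m ^ 2 * ((2 * m ^ 2 * Z / L) * K) :=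
      mul_le_mul_of_nonneg_left (mul_le_mul_of_nonneg_right a2 hK0.le) (by positivity)
    calc _ = _ := h4.symm
      _ ≤ _ := h3
      _ = _ := h5
      _ ≤ Z * (L : ℝ) ^ 2 * R + (m : ℝ) ^ 2 * ((∑ A, g A) * K) := add_le_add h6 le_rfl
      _ ≤ _ := add_le_add a1 a3
  have h9 : (Z * K) * ((m : ℝ) ^ 2 / 3) ≤ (Z * K) * (2 * R + 2 * m ^ 4 / L) := by
    refine le_trans (le_of_eq ?_) (h8.trans (le_of_eq ?_))
    · ring
    · field_simp
  have h10 := le_of_mul_le_mul_left h9 (mul_pos hZ0 hK0)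
  refine h10.trans (le_of_eq ?_)
  rw [hR]
  ring

end PR16
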