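import Mathlib
import Pool.Agent.PR16.Avg2

/-!
# Numbers
-/

namespace PR16

theorem numW {g : ℕ} (hg : 1 ≤ g) :
    (1 + 2 * (4 * (1 / (100 * (g : ℝ))) / (1 - 1 / (100 * (g : ℝ))))) ^ (2 * (2 * g)) ≤ 3 / 2 := by
  have hg' : (1 : ℝ) ≤ g := by exact_mod_cast hg
  have h1 : (0 : ℝ) < 100 * g - 1 := by linarith
  have e1 : 1 + 2 * (4 * (1 / (100 * (g : ℝ))) / (1 - 1 / (100 * (g : ℝ)))) =
      8 / (100 * g - 1) + 1 := by
    field_simp
    ring
  rw [e1]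
  have h2 : (0 : ℝ) ≤ 8 / (100 * g - 1) + 1 := by positivity
  have h3 := Real.add_one_le_exp (8 / (100 * (g : ℝ) - 1))
  have h4 : (8 / (100 * (g : ℝ) - 1) + 1) ^ (2 * (2 * g)) ≤
      Real.exp (32 * g / (100 * g - 1)) := by
    refine (pow_le_pow_left₀ h2 h3 _).trans (le_of_eq ?_)
    rw [← Real.exp_nat_mul]
    congr 1
    push_cast
    ring
  refine h4.trans ?_
  have h5 : 32 * (g : ℝ) / (100 * g - 1) < 1 := by
    rw [div_lt_one h1]
    linarith
  have h6 := Real.exp_bound_div_one_sub_of_interval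
    (by positivity : 0 ≤ 32 * (g : ℝ) / (100 * g - 1)) h5
  refine h6.trans ?_
  have h7 : 1 / (1 - 32 * (g : ℝ) / (100 * g - 1)) = (100 * g - 1) / (68 * g - 1) := by
    have : (68 : ℝ) * g - 1 ≠ 0 := by
      have : (0 : ℝ) < 68 * g - 1 := by linarith
      exact this.ne'
    have h8 : 1 - 32 * (g : ℝ) / (100 * g - 1) = (68 * g - 1) / (100 * g - 1) := by
      rw [eq_div_iff h1.ne', sub_mul, one_mul, div_mul_cancel₀ _ h1.ne']
      ring
    rw [h8, one_div_div]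
  rw [h7, div_le_div_iff₀ (by linarith) (by norm_num)]
  linarith

theorem numeric {n m L g p T X Y E : ℝ} (hn : 9000 ≤ n) (hm1 : 10 * m ≤ n) (hm2 : n ≤ 10 * m + 9)
    (hL : n ^ 2 ≤ 4 * L + 3) (hg : 1 ≤ g) (hT0 : 0 ≤ T) (hT : T ≤ g) (hp : 1 ≤ p) (hp2 : p ≤ n ^ 2)
    (hX : X = Y ^ 2) (hY : 0 ≤ Y) (hmain : p * (X * (100 * g) ^ 3) < n ^ 2) (hE0 : 0 ≤ E)
    (hE : E * n ^ 4 ≤ 2) :
    24 * (X * (T * p * (2 * g) ^ 2 + 3 * (4 * m) ^ 2 * (T * (p * E)))) +
      6 * m * (Y * (2 * g + 2 * (4 * m) * (T * (p * E)))) + 2 * m ^ 4 / L < m ^ 2 / 3 := by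
  have hm : 0.0999 * n ≤ m := by linarith
  have hm0 : 0 < m := by linarith
  have hX0 : 0 ≤ X := by rw [hX]; positivity
  have hn0 : 0 < n := by linarith
  -- powers of n
  have hEn2 : E * n ^ 2 ≤ 1 / 100 := by
    have h1 : E * n ^ 2 * 200 ≤ E * n ^ 2 * n ^ 2 := by
      refine mul_le_mul_of_nonneg_left ?_ (by positivity)
      nlinarith
    have h2 : E * n ^ 2 * n ^ 2 = E * n ^ 4 := by ring
    linarith
  have hm2n : m ^ 2 ≤ n ^ 2 / 100 := by
    have : (10 * m) ^ 2 ≤ n ^ 2 := pow_le_pow_left₀ (by linarith) hm1 2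
    linarith
  -- first term
  have a1 : 3 * (4 * m) ^ 2 * E ≤ g ^ 2 := by
    have h1 : 3 * (4 * m) ^ 2 * E = 48 * (m ^ 2 * E) := by ring
    have h2 : m ^ 2 * E ≤ n ^ 2 / 100 * E := mul_le_mul_of_nonneg_right hm2n hE0
    have h3 : (1 : ℝ) ≤ g ^ 2 := one_le_pow₀ hg
    have h4 : n ^ 2 / 100 * E = E * n ^ 2 / 100 := by ring
    linarith
  have a2 : X * (T * p * (2 * g) ^ 2 + 3 * (4 * m) ^ 2 * (T * (p * E))) ≤ 5 * (p * (X * g ^ 3)) := by
    have h1 : X * (T * p * (2 * g) ^ 2 + 3 * (4 * m) ^ 2 * (T * (p * E))) =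
        (X * p * T) * (4 * g ^ 2 + 3 * (4 * m) ^ 2 * E) := by ring
    rw [h1]
    have h2 : X * p * T ≤ X * p * g := mul_le_mul_of_nonneg_left hT (by positivity)
    have h3 : 4 * g ^ 2 + 3 * (4 * m) ^ 2 * E ≤ 5 * g ^ 2 := by linarith
    calc _ ≤ (X * p * g) * (5 * g ^ 2) :=
          mul_le_mul h2 h3 (by positivity) (by positivity)
      _ = _ := by ring
  have a3 : p * (X * g ^ 3) ≤ n ^ 2 / 1000000 := by
    have h1 : p * (X * (100 * g) ^ 3) = 1000000 * (p * (X * g ^ 3)) := by ring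
    rw [h1] at hmain
    linarith
  -- second term
  have b1 : 2 * (4 * m) * (T * (p * E)) ≤ g := by
    have h1 : p * E ≤ n ^ 2 * E := mul_le_mul_of_nonneg_right hp2 hE0
    have h2 : m * (T * (p * E)) ≤ (n / 10) * (g * (n ^ 2 * E)) := by
      refine mul_le_mul (by linarith) (mul_le_mul hT h1 (by positivity) (by linarith))
        (by positivity) (by positivity)
    have h3 : n ^ 3 * E ≤ 1 := by
      have h4 : n ^ 3 * E * 2 ≤ n ^ 3 * E * n :=
        mul_le_mul_of_nonneg_left (by linarith) (by positivity)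
      have h5 : n ^ 3 * E * n = E * n ^ 4 := by ring
      linarith
    have h6 : (n / 10) * (g * (n ^ 2 * E)) = g * (n ^ 3 * E) / 10 := by ring
    have h7 : g * (n ^ 3 * E) ≤ g * 1 := mul_le_mul_of_nonneg_left h3 (by linarith)
    have h8 : 2 * (4 * m) * (T * (p * E)) = 8 * (m * (T * (p * E))) := by ring
    rw [h8]
    rw [h6] at h2
    linarith
  have b2 : g * Y ≤ n / 1000 := by
    have h1 : (g * Y) ^ 2 ≤ (n / 1000) ^ 2 := by
      have h2 : (g * Y) ^ 2 = X * g ^ 2 := by rw [hX]; ring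
      have h3 : X * g ^ 2 * 1 ≤ X * g ^ 2 * (p * g) := by
        refine mul_le_mul_of_nonneg_left ?_ (by positivity)
        nlinarith
      have h4 : X * g ^ 2 * (p * g) = p * (X * g ^ 3) := by ring
      rw [h2]
      have h5 : (n / 1000) ^ 2 = n ^ 2 / 1000000 := by ring
      linarith
    exact le_of_sq_le_sq h1 (by positivity)
  have b3 : 6 * m * (Y * (2 * g + 2 * (4 * m) * (T * (p * E)))) ≤ 0.018 * (m * n) := by
    have h1 : Y * (2 * g + 2 * (4 * m) * (T * (p * E))) ≤ Y * (3 * g) :=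
      mul_le_mul_of_nonneg_left (by linarith) hY
    have h2 : Y * (3 * g) = 3 * (g * Y) := by ring
    have h3 : Y * (2 * g + 2 * (4 * m) * (T * (p * E))) ≤ 3 * (n / 1000) := by linarith
    have h4 := mul_le_mul_of_nonneg_left h3 (by linarith : 0 ≤ 6 * m)
    have h5 : 6 * m * (3 * (n / 1000)) = 0.018 * (m * n) := by ring
    linarith
  -- third term
  have hLp : 0 < L := by
    have : (9000 : ℝ) ^ 2 ≤ n ^ 2 := pow_le_pow_left₀ (by norm_num) hn 2
    linarith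
  have c1 : 2 * m ^ 4 / L ≤ 0.0801 * m ^ 2 := by
    rw [div_le_iff₀ hLp]
    have h1 : n ^ 2 * 0.2499 ≤ L := by
      have : (9000 : ℝ) ^ 2 ≤ n ^ 2 := pow_le_pow_left₀ (by norm_num) hn 2
      linarith
    have h2 : 2 * m ^ 4 = 2 * m ^ 2 * m ^ 2 := by ring
    have h3 : 2 * m ^ 2 * m ^ 2 ≤ 2 * m ^ 2 * (n ^ 2 / 100) :=
      mul_le_mul_of_nonneg_left hm2n (by positivity)
    have h4 : 0.0801 * m ^ 2 * (n ^ 2 * 0.2499) ≤ 0.0801 * m ^ 2 * L :=
      mul_le_mul_of_nonneg_left h1 (by positivity)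
    have h5 : 2 * m ^ 2 * (n ^ 2 / 100) ≤ 0.0801 * m ^ 2 * (n ^ 2 * 0.2499) := by
      have : 0 ≤ m ^ 2 * n ^ 2 := by positivity
      nlinarith
    linarith
  -- the sum
  have d1 : m * n ≤ m * (m / 0.0999) := by
    refine mul_le_mul_of_nonneg_left ?_ hm0.le
    rw [le_div_iff₀ (by norm_num)]
    linarith
  have d2 : n ^ 2 ≤ (m / 0.0999) ^ 2 := by
    refine pow_le_pow_left₀ hn0.le ?_ 2
    rw [le_div_iff₀ (by norm_num)]
    linarith
  have d3 : m * (m / 0.0999) = m ^ 2 / 0.0999 := by ring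
  have d4 : (m / 0.0999) ^ 2 = m ^ 2 / 0.0999 ^ 2 := by ring
  have hm22 : 0 < m ^ 2 := by positivity
  rw [d3] at d1
  rw [d4] at d2
  norm_num at d1 d2 ⊢
  linarith

end PR16
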