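import Mathlib
import Pool.Agent.PR16.Num

/-!
# The lower bound for parallel machines
-/

namespace PR16

open Classical

/-- The lower bound. -/
theorem machine_bound {n p : ℕ} {S V Ω : Type} [Fintype Ω] (M : Ω → Machine n p S V) (μ : Ω → ℝ)
    (hμ0 : ∀ ω, 0 ≤ μ ω) (hμ1 : ∑ ω, μ ω = 1) (T : ℕ)
    (hcorr : ∀ x : Fin n → ℤ, StrictMono x → (∀ i, |x i| ≤ (n : ℤ) ^ 3) →
      (2 / 3 : ℝ) ≤ ∑ ω, if ((M ω).answer x T = true ↔ HasThreeSum x) then μ ω else 0) :
    n ^ 2 ≤ p * (100 * (Nat.log 2 n + 1)) ^ (2 * T + 3) := by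
  by_contra hc
  rw [not_le] at hc
  -- there is a processor
  have hp : 1 ≤ p := by
    have : Nonempty Ω := by
      by_contra h
      rw [not_nonempty_iff] at h
      rw [Finset.univ_eq_empty, Finset.sum_empty] at hμ1
      norm_num at hμ1
    obtain ⟨ω⟩ := this
    exact Nat.one_le_iff_ne_zero.2 fun h => by
      have := (M ω).chief.isLt
      omega
  set g : ℕ := Nat.log 2 n + 1 with hg
  have hg1 : 1 ≤ g := by omega
  have hp1 : (100 * g) ^ (2 * T + 3) < n ^ 2 :=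
    lt_of_le_of_lt (Nat.le_mul_of_pos_left _ hp) hc
  have hg3 : (100 * g) ^ 3 < n ^ 2 :=
    lt_of_le_of_lt (Nat.pow_le_pow_right (by omega) (by omega)) hp1
  -- n is large
  have n1 : 1000 < n := by
    by_contra h
    have h1 : n ^ 2 ≤ 1000 ^ 2 := Nat.pow_le_pow_left (by omega) 2
    have h2 : (100 * 1) ^ 3 ≤ (100 * g) ^ 3 := Nat.pow_le_pow_left (by omega) 3
    omega
  have g10 : 10 ≤ g := by
    have : 9 ≤ Nat.log 2 n := Nat.le_log_of_pow_le (by norm_num) (by omega)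
    omega
  have n2 : 9000 ≤ n := by
    by_contra h
    have h1 : n ^ 2 ≤ 9000 ^ 2 := Nat.pow_le_pow_left (by omega) 2
    have h2 : (100 * 10) ^ 3 ≤ (100 * g) ^ 3 := Nat.pow_le_pow_left (by omega) 3
    omega
  have hng : n < 2 ^ g := Nat.lt_pow_succ_log_self (by norm_num) n
  -- few steps
  have hT : T ≤ g := by
    have h1 : 2 ^ (2 * T + 3) ≤ (100 * g) ^ (2 * T + 3) := Nat.pow_le_pow_left (by omega) _
    have h2 : n ^ 2 < (2 ^ g) ^ 2 := Nat.pow_lt_pow_left hng (by norm_num)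
    rw [← pow_mul] at h2
    have h3 : 2 ^ (2 * T + 3) < 2 ^ (g * 2) := by omega
    have := (Nat.pow_lt_pow_iff_right (by norm_num : 1 < 2)).1 h3
    omega
  have hp2 : p ≤ n ^ 2 := by
    have : p * 1 ≤ p * (100 * g) ^ (2 * T + 3) :=
      Nat.mul_le_mul_left p (Nat.one_le_pow _ _ (by omega))
    omega
  -- the parameters
  set m : ℕ := n / 10 with hm
  set L : ℕ := n ^ 2 / 4 with hL
  have hm1 : 10 * m ≤ n := by omega
  have hm2 : n ≤ 10 * m + 9 := by omega
  have hL1 : 4 * L ≤ n ^ 2 := by omega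
  have hL2 : n ^ 2 ≤ 4 * L + 3 := by omega
  have hLpos : 0 < L := by
    have : 9000 ^ 2 ≤ n ^ 2 := Nat.pow_le_pow_left n2 2
    omega
  have : NeZero L := ⟨hLpos.ne'⟩
  have hn3 : 16 * (2 * m * L + n) + 11 ≤ n ^ 3 := by
    have h1 : (10 * m) * (4 * L) ≤ n * n ^ 2 := Nat.mul_le_mul hm1 hL1
    have h2 : n * n ^ 2 = n ^ 3 := by ring
    have h3 : 9000 * n ≤ n ^ 3 := by
      have : 9000 * 1 ≤ n * n := Nat.mul_le_mul n2 (by omega)
      calc 9000 * n ≤ (n * n) * n := Nat.mul_le_mul_right n (by omega)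
        _ = n ^ 3 := by ring
    have h4 : (10 * m) * (4 * L) = 40 * (m * L) := by ring
    have h5 : 16 * (2 * m * L + n) + 11 = 32 * (m * L) + 16 * n + 11 := by ring
    rw [h5]
    rw [h4, h2] at h1
    omega
  -- the averaging bound
  have hgR : (1 : ℝ) ≤ g := by exact_mod_cast hg1
  have hq0 : (0 : ℝ) < 1 / (100 * (g : ℝ)) := by positivity
  have hq1 : 1 / (100 * (g : ℝ)) < 1 := by
    rw [div_lt_one (by positivity)]
    linarith
  have key := avg (m := m) (L := L) M μ hμ0 hμ1 T hcorr (by omega) hn3 hq0 hq1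
    (by norm_num : (1 : ℝ) ≤ 4) (w := 2 * g) (by omega) (numW hg1)
  rw [one_div_one_div] at key
  have fin := numeric (n := n) (m := m) (L := L) (g := g) (p := p) (T := T)
    (X := (100 * (g : ℝ)) ^ (2 * T)) (Y := (100 * (g : ℝ)) ^ T) (E := 2 / 4 ^ (2 * g))
    (by exact_mod_cast n2) (by exact_mod_cast hm1) (by exact_mod_cast hm2)
    (by exact_mod_cast hL2) hgR (by positivity) (by exact_mod_cast hT) (by exact_mod_cast hp)
    (by exact_mod_cast hp2) (by ring) (by positivity) ?_ (by positivity) ?_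
  · rw [Nat.cast_mul, Nat.cast_ofNat] at key
    linarith
  · rw [← pow_add]
    exact_mod_cast hc
  · have h1 : (n : ℝ) ^ 4 ≤ 4 ^ (2 * g) := by
      have h2 : n ^ 4 ≤ (2 ^ g) ^ 4 := Nat.pow_le_pow_left hng.le 4
      have h3 : (2 ^ g) ^ 4 = 4 ^ (2 * g) := by
        rw [← pow_mul, show (4 : ℕ) = 2 ^ 2 by norm_num, ← pow_mul]
        congr 1
        ring
      rw [h3] at h2
      exact_mod_cast h2
    have h2 : (0 : ℝ) < 4 ^ (2 * g) := by positivity
    rw [div_mul_eq_mul_div, div_le_iff₀ h2]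
    linarith

end PR16
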