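import Mathlib
import Pool.Agent.PR16.Main

/-!
# Circuits

A circuit with `s` AND and OR gates of unbounded fan-in whose inputs are arbitrary functions of single
numbers.  A machine with `s + n` processors evaluates a circuit of depth `d` in `d + 1` steps.
-/

namespace PR16

/-- A circuit with `s` gates for arrays of `n` integers. -/
structure Circ (n s : ℕ) where
  /-- `true` for an AND gate, `false` for an OR gate -/
  conj : Fin s → Bool
  /-- `wire g h b`: the gate `g` reads the gate `h` (if `b` is true) or its negation (if `b` is
  false) -/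
  wire : Fin s → Fin s → Bool → Bool
  /-- `leaf g i z`: the input of the gate `g` that depends on the number `z` in place `i` -/
  leaf : Fin s → Fin n → ℤ → Bool
  level : Fin s → ℕ
  down : ∀ g h b, wire g h b = true → level h < level g
  out : Fin s

variable {n s : ℕ}

/-- The value of the gate `g` if the other gates have the values `v`. -/
def Circ.gate (C : Circ n s) (x : Fin n → ℤ) (v : Fin s → Bool) (g : Fin s) : Bool :=
  if C.conj g = true then
    decide ((∀ h b, C.wire g h b = true → v h = b) ∧ ∀ i, C.leaf g i (x i) = true)
  else
    decide ((∃ h b, C.wire g h b = true ∧ v h = b) ∨ ∃ i, C.leaf g i (x i) = true)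

/-- The values after `t` rounds of evaluation. -/
def Circ.val (C : Circ n s) (x : Fin n → ℤ) : ℕ → Fin s → Bool
  | 0 => fun _ => false
  | t + 1 => C.gate x (C.val x t)

theorem Circ.gate_congr (C : Circ n s) (x : Fin n → ℤ) {v v' : Fin s → Bool} {g : Fin s}
    (h : ∀ h b, C.wire g h b = true → v h = v' h) : C.gate x v g = C.gate x v' g := by
  unfold Circ.gate
  have h1 : (∀ h b, C.wire g h b = true → v h = b) ↔ (∀ h b, C.wire g h b = true → v' h = b) := by
    constructor
    · intro k a b hab
      rw [← h a b hab]
      exact k a b hab
    · intro k a b hab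
      rw [h a b hab]
      exact k a b hab
  have h2 : (∃ h b, C.wire g h b = true ∧ v h = b) ↔ (∃ h b, C.wire g h b = true ∧ v' h = b) := by
    constructor
    · rintro ⟨a, b, hab, k⟩
      exact ⟨a, b, hab, by rw [← h a b hab]; exact k⟩
    · rintro ⟨a, b, hab, k⟩
      exact ⟨a, b, hab, by rw [h a b hab]; exact k⟩
  simp only [h1, h2]

theorem Circ.val_stable (C : Circ n s) (x : Fin n → ℤ) :
    ∀ t g, C.level g < t → C.val x (t + 1) g = C.val x t g := by
  intro t
  induction t with
  | zero => intro g h; omega
  | succ t ih =>
    intro g hg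
    show C.gate x (C.val x (t + 1)) g = C.gate x (C.val x t) g
    exact C.gate_congr x fun h b hb => ih h (by have := C.down g h b hb; omega)

theorem Circ.val_eq (C : Circ n s) (x : Fin n → ℤ) {t : ℕ} {g : Fin s} (h : C.level g < t) :
    C.val x t g = C.val x (C.level g + 1) g := by
  obtain ⟨k, rfl⟩ := Nat.exists_eq_add_of_le (show C.level g + 1 ≤ t by omega)
  clear h
  induction k with
  | zero => rfl
  | succ k ih =>
    rw [← ih, ← add_assoc]
    exact C.val_stable x _ g (by omega)

/-- The value of the gate `g`. -/
def Circ.value (C : Circ n s) (x : Fin n → ℤ) (g : Fin s) : Bool := C.val x (C.level g + 1) g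

/-- The values satisfy the equations of the gates. -/
theorem Circ.value_spec (C : Circ n s) (x : Fin n → ℤ) (g : Fin s) :
    C.value x g = C.gate x (C.value x) g := by
  unfold Circ.value
  show C.gate x (C.val x (C.level g)) g = _
  exact C.gate_congr x fun h b hb => C.val_eq x (C.down g h b hb)

/-- The answer of the circuit. -/
def Circ.answer (C : Circ n s) (x : Fin n → ℤ) : Bool := C.value x C.out

/-- The gate `g` has an input that decides its value. -/
def Circ.hit (C : Circ n s) (x : Fin n → ℤ) (v : Fin s → Bool) (g : Fin s) : Prop :=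
  (∃ h b, C.wire g h b = true ∧ (v h == b) = !C.conj g) ∨ ∃ i, C.leaf g i (x i) = !C.conj g

open Classical in
theorem Circ.gate_eq (C : Circ n s) (x : Fin n → ℤ) (v : Fin s → Bool) (g : Fin s) :
    C.gate x v g = if C.hit x v g then !C.conj g else C.conj g := by
  unfold Circ.gate Circ.hit
  cases hc : C.conj g
  · simp only [Bool.false_eq_true, if_false, Bool.not_false]
    by_cases h : (∃ h b, C.wire g h b = true ∧ v h = b) ∨ ∃ i, C.leaf g i (x i) = true
    · rw [decide_eq_true h, if_pos]
      simpa using h
    · rw [decide_eq_false h, if_neg]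
      simpa using h
  · simp only [if_true, Bool.not_true]
    by_cases h : (∀ h b, C.wire g h b = true → v h = b) ∧ ∀ i, C.leaf g i (x i) = true
    · rw [decide_eq_true h, if_neg]
      rintro (⟨a, b, hab, k⟩ | ⟨i, hi⟩)
      · rw [h.1 a b hab] at k
        simp at k
      · rw [h.2 i] at hi
        simp at hi
    · rw [decide_eq_false h, if_pos]
      rw [not_and_or] at h
      push Not at h
      rcases h with ⟨a, b, hab, k⟩ | ⟨i, hi⟩
      · left
        refine ⟨a, b, hab, ?_⟩
        simpa using k
      · right
        refine ⟨i, ?_⟩
        simpa using hi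

end PR16
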