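import Mathlib
import Pool.Agent.PR16.Circ

/-!
# A machine that evaluates a circuit
-/

namespace PR16

open Classical

variable {n s : ℕ}

/-- The processor `i` in the state `σ` decides the gate `g`. -/
def Circ.ctrl (C : Circ n s) (i : Fin (s + n)) (σ : ℕ × Bool × ℤ) (g : Fin s) : Prop :=
  if h : i.val < s then ∃ b, C.wire g ⟨i.val, h⟩ b = true ∧ (σ.2.1 == b) = !C.conj g
  else C.leaf g ⟨i.val - s, by omega⟩ σ.2.2 = !C.conj g

/-- The machine.  The state consists of the time, the value of the gate and the number. -/
noncomputable def Circ.machine (C : Circ n s) : Machine n (s + n) (ℕ × Bool × ℤ) ℤ where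
  start := fun _ => (0, false, 0)
  addr := fun i σ => if i.val < s then n + (σ.1 * s + i.val) else i.val - s
  next := fun i σ c => if h : i.val < s then
      (σ.1 + 1, (if σ.1 = 0 then false else if c = 1 then !C.conj ⟨i.val, h⟩
        else C.conj ⟨i.val, h⟩), 0)
    else (σ.1 + 1, false, if σ.1 = 0 then c else σ.2.2)
  write := fun i σ c => if ∃ g : Fin s, c = n + (σ.1 * s + g.val) ∧ C.ctrl i σ g then some 1
    else none
  input := fun _ z => z
  blank := fun _ => 0
  chief := ⟨C.out.val, by have := C.out.isLt; omega⟩
  accept := fun σ => σ.2.1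

theorem find_one {α : Type} (l : List α) (P : α → Prop) [DecidablePred P] :
    l.findSome? (fun a => if P a then some (1 : ℤ) else none) =
      if ∃ a ∈ l, P a then some 1 else none := by
  induction l with
  | nil => simp
  | cons a l ih =>
    rw [List.findSome?_cons]
    by_cases h : P a
    · rw [if_pos h, if_pos ⟨a, List.mem_cons_self, h⟩]
    · rw [if_neg h]
      dsimp only
      rw [ih]
      by_cases h2 : ∃ b ∈ l, P b
      · obtain ⟨b, hb, hPb⟩ := h2
        rw [if_pos ⟨b, hb, hPb⟩, if_pos ⟨b, List.mem_cons_of_mem _ hb, hPb⟩]
      · rw [if_neg h2, if_neg]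
        rintro ⟨b, hb, hPb⟩
        rcases List.mem_cons.1 hb with rfl | hb
        · exact h hPb
        · exact h2 ⟨b, hb, hPb⟩

theorem Circ.stamp (C : Circ n s) (m : ℕ → ℤ) (t : ℕ) (i : Fin (s + n)) :
    (C.machine.toProg.st m t i).1 = t := by
  induction t generalizing i with
  | zero => rfl
  | succ t ih =>
    rw [Prog.st_succ]
    show (C.machine.next i _ _).1 = t + 1
    unfold Circ.machine
    dsimp only
    split_ifs <;> simp only [] <;> exact congrArg (· + 1) (ih i)

theorem Circ.write_eq (C : Circ n s) (m : ℕ → ℤ) (t : ℕ) (i : Fin (s + n)) (c : ℕ) :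
    C.machine.write i (C.machine.toProg.st m t i) c =
      if ∃ g : Fin s, c = n + (t * s + g.val) ∧ C.ctrl i (C.machine.toProg.st m t i) g then some 1
      else none := by
  have h := C.stamp m t i
  show (if ∃ g : Fin s, c = n + ((C.machine.toProg.st m t i).1 * s + g.val) ∧
    C.ctrl i (C.machine.toProg.st m t i) g then some (1 : ℤ) else none) = _
  rw [h]

theorem Circ.mem_later (C : Circ n s) (x : Fin n → ℤ) (t : ℕ) {c : ℕ}
    (hc : n + (t + 1) * s ≤ c) : C.machine.toProg.mem (C.machine.mem0 x) t c = 0 := by
  induction t with
  | zero =>
    rw [Prog.mem_zero]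
    unfold Machine.mem0
    rw [dif_neg (by omega)]
    rfl
  | succ t ih =>
    rw [Prog.mem_succ]
    have h1 : ∀ i : Fin (s + n), C.machine.write i
        (C.machine.toProg.st (C.machine.mem0 x) (t + 1) i) c = none := by
      intro i
      rw [C.write_eq, if_neg]
      rintro ⟨g, hg, -⟩
      have := g.isLt
      have h2 : (t + 1 + 1) * s = (t + 1) * s + s := by ring
      omega
    have h2 : (List.finRange (s + n)).findSome? (fun i => C.machine.write i
        (C.machine.toProg.st (C.machine.mem0 x) (t + 1) i) c) = none := by
      rw [List.findSome?_eq_none_iff]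
      intro i _
      exact h1 i
    have h3 : (t + 1 + 1) * s = (t + 1) * s + s := by ring
    rw [h2]
    exact ih (by omega)

/-- The states of the machine after `t + 1` steps. -/
theorem Circ.states (C : Circ n s) (x : Fin n → ℤ) (t : ℕ) :
    (∀ g : Fin s, C.machine.toProg.st (C.machine.mem0 x) (t + 1) ⟨g.val, by omega⟩ =
      (t + 1, C.val x t g, 0)) ∧
    (∀ i : Fin n, C.machine.toProg.st (C.machine.mem0 x) (t + 1) ⟨s + i.val, by omega⟩ =
      (t + 1, false, x i)) := by
  induction t with
  | zero =>
    constructor
    · intro g
      rw [Prog.st_succ]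
      unfold Circ.machine
      dsimp only
      rw [dif_pos g.isLt]
      rfl
    · intro i
      rw [Prog.st_succ, Prog.st_zero, Prog.mem_zero]
      have h1 : C.machine.addr ⟨s + i.val, by omega⟩ (C.machine.start ⟨s + i.val, by omega⟩) =
          i.val := by
        show (if s + i.val < s then n + (0 * s + (s + i.val)) else s + i.val - s) = i.val
        rw [if_neg (by omega)]
        omega
      have h2 : C.machine.mem0 x i.val = x i := by
        unfold Machine.mem0
        rw [dif_pos i.isLt]
        rfl
      have h3 : ∀ c : ℤ, C.machine.next ⟨s + i.val, by omega⟩ (0, false, 0) c =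
          (0 + 1, false, c) := by
        intro c
        unfold Circ.machine
        dsimp only
        rw [dif_neg (by omega), if_pos rfl]
      have h4 := h3 (C.machine.mem0 x i.val)
      rw [h2] at h4
      show C.machine.next ⟨s + i.val, by omega⟩ (0, false, 0)
        (C.machine.mem0 x (C.machine.addr ⟨s + i.val, by omega⟩
          (C.machine.start ⟨s + i.val, by omega⟩))) = _
      rw [h1, h2, h4]
  | succ t ih =>
    obtain ⟨ihg, ihi⟩ := ih
    constructor
    · intro g
      rw [Prog.st_succ, ihg]
      have h1 : C.machine.addr ⟨g.val, by omega⟩ (t + 1, C.val x t g, 0) =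
          n + ((t + 1) * s + g.val) := by
        show (if g.val < s then n + ((t + 1) * s + g.val) else g.val - s) = _
        rw [if_pos g.isLt]
      have h2 : C.machine.toProg.mem (C.machine.mem0 x) (t + 1) (n + ((t + 1) * s + g.val)) =
          if C.hit x (C.val x t) g then 1 else 0 := by
        rw [Prog.mem_succ, C.mem_later x t (by omega)]
        simp only [C.write_eq]
        rw [find_one]
        have h3 : (∃ i ∈ List.finRange (s + n), ∃ g' : Fin s,
            n + ((t + 1) * s + g.val) = n + ((t + 1) * s + g'.val) ∧
            C.ctrl i (C.machine.toProg.st (C.machine.mem0 x) (t + 1) i) g') ↔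
            C.hit x (C.val x t) g := by
          constructor
          · rintro ⟨i, -, g', hg', hi⟩
            have e : g' = g := Fin.ext (by omega)
            rw [e] at hi
            unfold Circ.ctrl at hi
            unfold Circ.hit
            by_cases h : i.val < s
            · rw [dif_pos h] at hi
              have := ihg ⟨i.val, h⟩
              have e2 : C.machine.toProg.st (C.machine.mem0 x) (t + 1) i =
                  (t + 1, C.val x t ⟨i.val, h⟩, 0) := this
              rw [e2] at hi
              obtain ⟨b, hb1, hb2⟩ := hi
              exact Or.inl ⟨_, b, hb1, hb2⟩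
            · rw [dif_neg h] at hi
              have := ihi ⟨i.val - s, by omega⟩
              have e3 : (⟨s + (i.val - s), by omega⟩ : Fin (s + n)) = i := Fin.ext (by
                show s + (i.val - s) = i.val
                omega)
              have e2 : C.machine.toProg.st (C.machine.mem0 x) (t + 1) i =
                  (t + 1, false, x ⟨i.val - s, by omega⟩) := by
                rw [← this]
                exact congrArg _ e3.symm
              rw [e2] at hi
              exact Or.inr ⟨_, hi⟩
          · rintro (⟨h, b, hb1, hb2⟩ | ⟨i, hi⟩)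
            · refine ⟨⟨h.val, by omega⟩, List.mem_finRange _, g, rfl, ?_⟩
              rw [ihg]
              unfold Circ.ctrl
              rw [dif_pos h.isLt]
              exact ⟨b, hb1, hb2⟩
            · refine ⟨⟨s + i.val, by omega⟩, List.mem_finRange _, g, rfl, ?_⟩
              rw [ihi]
              unfold Circ.ctrl
              rw [dif_neg (by show ¬ s + i.val < s; omega)]
              have e3 : (⟨s + i.val - s, by omega⟩ : Fin n) = i := Fin.ext (by
                show s + i.val - s = i.val
                omega)
              dsimp only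
              rw [e3]
              exact hi
        by_cases h4 : C.hit x (C.val x t) g
        · rw [if_pos (h3.2 h4), if_pos h4]
          rfl
        · rw [if_neg (fun h5 => h4 (h3.1 h5)), if_neg h4]
          rfl
      have h5 : C.machine.next ⟨g.val, by omega⟩ (t + 1, C.val x t g, 0)
          (if C.hit x (C.val x t) g then 1 else 0) = (t + 1 + 1, C.val x (t + 1) g, 0) := by
        show (if h : g.val < s then ((t + 1 + 1, (if t + 1 = 0 then false else
          if (if C.hit x (C.val x t) g then (1 : ℤ) else 0) = 1 then !C.conj ⟨g.val, h⟩
          else C.conj ⟨g.val, h⟩), 0) : ℕ × Bool × ℤ) else _) = _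
        rw [dif_pos g.isLt, if_neg (by omega)]
        have h6 : C.val x (t + 1) g = if C.hit x (C.val x t) g then !C.conj g else C.conj g :=
          C.gate_eq x (C.val x t) g
        rw [h6]
        by_cases h4 : C.hit x (C.val x t) g
        · simp only [if_pos h4, if_true]
        · simp only [if_neg h4]
          rfl
      show C.machine.next ⟨g.val, by omega⟩ (t + 1, C.val x t g, 0)
        (C.machine.toProg.mem (C.machine.mem0 x) (t + 1)
          (C.machine.addr ⟨g.val, by omega⟩ (t + 1, C.val x t g, 0))) = _
      rw [h1, h2, h5]
    · intro i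
      rw [Prog.st_succ, ihi]
      show (if h : s + i.val < s then _ else ((t + 1 + 1, false, if t + 1 = 0 then _ else x i) :
        ℕ × Bool × ℤ)) = _
      rw [dif_neg (by omega), if_neg (by omega)]

theorem Circ.machine_answer (C : Circ n s) (x : Fin n → ℤ) {d : ℕ} (hd : C.level C.out < d) :
    C.machine.answer x (d + 1) = C.answer x := by
  have h := (C.states x d).1 C.out
  unfold Machine.answer
  show (C.machine.toProg.st (C.machine.mem0 x) (d + 1) ⟨C.out.val, _⟩).2.1 = _
  rw [h]
  exact C.val_eq x hd

end PR16
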