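import Mathlib
import Pool.Agent.PR16.Circ2

/-!
# A machine with `n * n` processors and four steps

Processor `(i, j)` reads the numbers in places `i` and `j`; processor `(i, i)` writes `i + 1` in the
cell of a table that belongs to its number; processor `(i, j)` with `i ≠ j` looks up the sum of its
numbers and reports a hit in cell `n`.
-/

namespace PR16

variable {n : ℕ}

/-- The machine.  The state consists of the time, the two numbers and a flag. -/
noncomputable def quad (hn : 0 < n) : Machine n (n * n) (ℕ × ℤ × ℤ × Bool) ℤ where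
  start := fun _ => (0, 0, 0, false)
  addr := fun e σ => if σ.1 = 0 then (finProdFinEquiv.symm e).1.val
    else if σ.1 = 1 then (finProdFinEquiv.symm e).2.val
    else if σ.1 = 2 then n + 1 + Equiv.intEquivNat (σ.2.1 + σ.2.2.1)
    else n
  next := fun e σ c => if σ.1 = 0 then (1, c, 0, false)
    else if σ.1 = 1 then (2, σ.2.1, c, false)
    else if σ.1 = 2 then (3, σ.2.1, σ.2.2.1,
      decide ((finProdFinEquiv.symm e).1 ≠ (finProdFinEquiv.symm e).2 ∧ c ≠ 0 ∧
        c ≠ (finProdFinEquiv.symm e).1.val + 1 ∧ c ≠ (finProdFinEquiv.symm e).2.val + 1))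
    else (4, 0, 0, decide (c = 1))
  write := fun e σ c => if σ.1 = 2 ∧ (finProdFinEquiv.symm e).1 = (finProdFinEquiv.symm e).2 ∧
      c = n + 1 + Equiv.intEquivNat σ.2.1 then some ((finProdFinEquiv.symm e).1.val + 1)
    else if σ.1 = 3 ∧ σ.2.2.2 = true ∧ c = n then some 1
    else none
  input := fun _ z => z
  blank := fun _ => 0
  chief := ⟨0, Nat.mul_pos hn hn⟩
  accept := fun σ => σ.2.2.2

theorem find_unique {α β : Type} (l : List α) (f : α → Option β) (v : β)
    (h : ∀ a ∈ l, f a = none ∨ f a = some v) (he : ∃ a ∈ l, f a = some v) :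
    l.findSome? f = some v := by
  rcases hf : l.findSome? f with _ | w
  · rw [List.findSome?_eq_none_iff] at hf
    obtain ⟨a, ha, hv⟩ := he
    rw [hf a ha] at hv
    exact absurd hv (by simp)
  · obtain ⟨a, ha, hw⟩ := List.exists_of_findSome?_eq_some hf
    rcases h a ha with h1 | h1
    · rw [h1] at hw
      exact absurd hw (by simp)
    · rw [h1] at hw
      exact hw.symm

section

variable (hn : 0 < n) (x : Fin n → ℤ)

theorem quad_mem0 (i : Fin n) : (quad hn).mem0 x i.val = x i := by
  unfold Machine.mem0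
  rw [dif_pos i.isLt]
  rfl

theorem quad_mem0' {c : ℕ} (hc : n ≤ c) : (quad hn).mem0 x c = 0 := by
  unfold Machine.mem0
  rw [dif_neg (by omega)]
  rfl

theorem quad_st1 (e : Fin (n * n)) : (quad hn).toProg.st ((quad hn).mem0 x) 1 e =
    (1, x (finProdFinEquiv.symm e).1, 0, false) := by
  show (1, (quad hn).mem0 x (finProdFinEquiv.symm e).1.val, 0, false) = _
  rw [quad_mem0]

theorem quad_mem1 (c : ℕ) : (quad hn).toProg.mem ((quad hn).mem0 x) 1 c = (quad hn).mem0 x c := by
  rw [Prog.mem_succ, Prog.mem_zero]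
  have h : (List.finRange (n * n)).findSome? (fun e => (quad hn).write e
      ((quad hn).toProg.st ((quad hn).mem0 x) (0 + 1) e) c) = none := by
    rw [List.findSome?_eq_none_iff]
    intro e _
    rw [show (0 + 1) = 1 from rfl, quad_st1]
    rfl
  rw [h]
  rfl

theorem quad_st2 (e : Fin (n * n)) : (quad hn).toProg.st ((quad hn).mem0 x) 2 e =
    (2, x (finProdFinEquiv.symm e).1, x (finProdFinEquiv.symm e).2, false) := by
  rw [Prog.st_succ, quad_st1, quad_mem1]
  show (2, x (finProdFinEquiv.symm e).1, (quad hn).mem0 x (finProdFinEquiv.symm e).2.val, false) = _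
  rw [quad_mem0]

theorem quad_mem2_hit (hx : Function.Injective x) (k : Fin n) :
    (quad hn).toProg.mem ((quad hn).mem0 x) 2 (n + 1 + Equiv.intEquivNat (x k)) = k.val + 1 := by
  rw [Prog.mem_succ]
  rw [find_unique _ _ ((k.val : ℤ) + 1)]
  · rfl
  · intro e _
    rw [show (1 + 1) = 2 from rfl, quad_st2]
    by_cases h : 2 = 2 ∧ (finProdFinEquiv.symm e).1 = (finProdFinEquiv.symm e).2 ∧
      n + 1 + Equiv.intEquivNat (x k) =
        n + 1 + Equiv.intEquivNat (x (finProdFinEquiv.symm e).1)
    · right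
      have hk : (finProdFinEquiv.symm e).1 = k := by
        have h1 : Equiv.intEquivNat (x k) = Equiv.intEquivNat (x (finProdFinEquiv.symm e).1) := by
          have := h.2.2
          omega
        exact (hx (Equiv.intEquivNat.injective h1)).symm
      show (if 2 = 2 ∧ (finProdFinEquiv.symm e).1 = (finProdFinEquiv.symm e).2 ∧
        n + 1 + Equiv.intEquivNat (x k) =
        n + 1 + Equiv.intEquivNat (x (finProdFinEquiv.symm e).1) then _ else _) = _
      rw [if_pos h, hk]
    · left
      show (if 2 = 2 ∧ (finProdFinEquiv.symm e).1 = (finProdFinEquiv.symm e).2 ∧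
        n + 1 + Equiv.intEquivNat (x k) =
        n + 1 + Equiv.intEquivNat (x (finProdFinEquiv.symm e).1) then _ else _) = _
      rw [if_neg h, if_neg (by omega)]
  · refine ⟨finProdFinEquiv (k, k), List.mem_finRange _, ?_⟩
    rw [show (1 + 1) = 2 from rfl, quad_st2]
    show (if 2 = 2 ∧ (finProdFinEquiv.symm (finProdFinEquiv (k, k))).1 =
      (finProdFinEquiv.symm (finProdFinEquiv (k, k))).2 ∧ n + 1 + Equiv.intEquivNat (x k) =
        n + 1 + Equiv.intEquivNat (x (finProdFinEquiv.symm (finProdFinEquiv (k, k))).1)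
        then some (((finProdFinEquiv.symm (finProdFinEquiv (k, k))).1.val : ℤ) + 1) else _) = _
    rw [Equiv.symm_apply_apply, if_pos ⟨rfl, rfl, rfl⟩]

theorem quad_mem2_miss {z : ℤ} (hz : ∀ k, x k ≠ z) :
    (quad hn).toProg.mem ((quad hn).mem0 x) 2 (n + 1 + Equiv.intEquivNat z) = 0 := by
  rw [Prog.mem_succ, quad_mem1, quad_mem0' hn x (by omega)]
  have h : (List.finRange (n * n)).findSome? (fun e => (quad hn).write e
      ((quad hn).toProg.st ((quad hn).mem0 x) (1 + 1) e) (n + 1 + Equiv.intEquivNat z)) = none := by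
    rw [List.findSome?_eq_none_iff]
    intro e _
    rw [show (1 + 1) = 2 from rfl, quad_st2]
    show (if 2 = 2 ∧ (finProdFinEquiv.symm e).1 = (finProdFinEquiv.symm e).2 ∧
        n + 1 + Equiv.intEquivNat z =
        n + 1 + Equiv.intEquivNat (x (finProdFinEquiv.symm e).1) then _ else
        if 2 = 3 ∧ _ ∧ _ then some (1 : ℤ) else none) = none
    rw [if_neg, if_neg (by omega)]
    rintro ⟨-, -, h3⟩
    have h1 : Equiv.intEquivNat z = Equiv.intEquivNat (x (finProdFinEquiv.symm e).1) := by omega
    exact hz _ (Equiv.intEquivNat.injective h1).symm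
  rw [h]
  rfl

theorem quad_mem2_n : (quad hn).toProg.mem ((quad hn).mem0 x) 2 n = 0 := by
  rw [Prog.mem_succ, quad_mem1, quad_mem0' hn x le_rfl]
  have h : (List.finRange (n * n)).findSome? (fun e => (quad hn).write e
      ((quad hn).toProg.st ((quad hn).mem0 x) (1 + 1) e) n) = none := by
    rw [List.findSome?_eq_none_iff]
    intro e _
    rw [show (1 + 1) = 2 from rfl, quad_st2]
    show (if 2 = 2 ∧ (finProdFinEquiv.symm e).1 = (finProdFinEquiv.symm e).2 ∧
        n = n + 1 + Equiv.intEquivNat (x (finProdFinEquiv.symm e).1) then _ else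
        if 2 = 3 ∧ _ ∧ _ then some (1 : ℤ) else none) = none
    rw [if_neg (by omega), if_neg (by omega)]
  rw [h]
  rfl

/-- Processor `e` sees a triple. -/
def Sees (x : Fin n → ℤ) (e : Fin (n * n)) : Prop :=
  ∃ k, (finProdFinEquiv.symm e).1 ≠ (finProdFinEquiv.symm e).2 ∧ (finProdFinEquiv.symm e).1 ≠ k ∧
    (finProdFinEquiv.symm e).2 ≠ k ∧
    x (finProdFinEquiv.symm e).1 + x (finProdFinEquiv.symm e).2 = x k

open Classical in
theorem quad_st3 (hx : Function.Injective x) (e : Fin (n * n)) :
    (quad hn).toProg.st ((quad hn).mem0 x) 3 e =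
    (3, x (finProdFinEquiv.symm e).1, x (finProdFinEquiv.symm e).2, decide (Sees x e)) := by
  rw [Prog.st_succ, quad_st2]
  set i := (finProdFinEquiv.symm e).1 with hi
  set j := (finProdFinEquiv.symm e).2 with hj
  show (3, x i, x j, decide (i ≠ j ∧
    (quad hn).toProg.mem ((quad hn).mem0 x) 2 (n + 1 + Equiv.intEquivNat (x i + x j)) ≠ 0 ∧
    (quad hn).toProg.mem ((quad hn).mem0 x) 2 (n + 1 + Equiv.intEquivNat (x i + x j)) ≠
      i.val + 1 ∧
    (quad hn).toProg.mem ((quad hn).mem0 x) 2 (n + 1 + Equiv.intEquivNat (x i + x j)) ≠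
      j.val + 1)) = _
  congr 3
  rw [decide_eq_decide]
  by_cases h : ∃ k, x i + x j = x k
  · obtain ⟨k, hk⟩ := h
    rw [hk, quad_mem2_hit hn x hx k]
    constructor
    · rintro ⟨h1, h2, h3, h4⟩
      refine ⟨k, h1, ?_, ?_, hk⟩
      · intro h5
        exact h3 (by rw [show i = k from h5])
      · intro h5
        exact h4 (by rw [show j = k from h5])
    · rintro ⟨k', h1, h2, h3, h4⟩
      have hkk : k' = k := hx (by rw [← h4]; exact hk)
      rw [hkk] at h2 h3
      refine ⟨h1, by omega, ?_, ?_⟩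
      · intro h5
        exact h2 (Fin.ext (by show i.val = k.val; omega))
      · intro h5
        exact h3 (Fin.ext (by show j.val = k.val; omega))
  · have hz : ∀ k, x k ≠ x i + x j := fun k hk => h ⟨k, hk.symm⟩
    rw [quad_mem2_miss hn x hz]
    constructor
    · rintro ⟨-, h2, -⟩
      exact absurd rfl h2
    · rintro ⟨k', -, -, -, h4⟩
      exact absurd ⟨k', h4⟩ h

open Classical in
theorem quad_mem3 (hx : Function.Injective x) :
    (quad hn).toProg.mem ((quad hn).mem0 x) 3 n = if ∃ e, Sees x e then 1 else 0 := by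
  rw [Prog.mem_succ, quad_mem2_n]
  have hw : ∀ e : Fin (n * n), (quad hn).write e
      ((quad hn).toProg.st ((quad hn).mem0 x) (2 + 1) e) n = if Sees x e then some 1 else none := by
    intro e
    rw [show (2 + 1) = 3 from rfl, quad_st3 hn x hx]
    show (if 3 = 2 ∧ (finProdFinEquiv.symm e).1 = (finProdFinEquiv.symm e).2 ∧
        n = n + 1 + Equiv.intEquivNat (x (finProdFinEquiv.symm e).1) then
        some (((finProdFinEquiv.symm e).1.val : ℤ) + 1) else
        if 3 = 3 ∧ decide (Sees x e) = true ∧ n = n then some (1 : ℤ) else none) = _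
    rw [if_neg (by omega)]
    by_cases h : Sees x e
    · rw [if_pos ⟨rfl, decide_eq_true h, rfl⟩, if_pos h]
    · rw [if_neg, if_neg h]
      rintro ⟨-, h2, -⟩
      exact h (of_decide_eq_true h2)
  simp only [hw]
  rw [find_one]
  by_cases h : ∃ e, Sees x e
  · obtain ⟨e, he⟩ := h
    rw [if_pos ⟨e, List.mem_finRange _, he⟩, if_pos ⟨e, he⟩]
    rfl
  · rw [if_neg h, if_neg]
    · rfl
    · rintro ⟨e, -, he⟩
      exact h ⟨e, he⟩

/-- The machine is right. -/
theorem quad_answer (hx : Function.Injective x) :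
    (quad hn).answer x 4 = true ↔ HasThreeSum x := by
  classical
  have h1 : (quad hn).answer x 4 = decide
      ((quad hn).toProg.mem ((quad hn).mem0 x) 3 n = 1) := by
    unfold Machine.answer
    rw [Prog.st_succ, quad_st3 hn x hx]
    rfl
  rw [h1, quad_mem3 hn x hx, decide_eq_true_iff]
  have h2 : (∃ e, Sees x e) ↔ HasThreeSum x := by
    constructor
    · rintro ⟨e, k, h⟩
      exact ⟨_, _, k, h⟩
    · rintro ⟨i, j, k, h⟩
      refine ⟨finProdFinEquiv (i, j), k, ?_⟩
      rw [Equiv.symm_apply_apply]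
      exact h
  rw [← h2]
  by_cases h : ∃ e, Sees x e
  · rw [if_pos h]
    exact ⟨fun _ => h, fun _ => rfl⟩
  · rw [if_neg h]
    exact ⟨fun h3 => absurd h3 (by norm_num), fun h3 => absurd h3 h⟩

end

end PR16
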